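import Mathlib
import Pool.Agent.TH554.J1595.C
set_option autoImplicit false

/-! # The circle estimate in the squared variable -/

namespace Run7.h783.RV

open MeasureTheory Set Complex
open scoped ENNReal NNReal
open Pool.Agent.H789R2.FR (E)
open Pool.Agent.H438R2.BR (Q)
open Pool.Agent.TH554.J1595 (FF ff quarter pr pr_mp)

/-- scaling -/
theorem lint_smul {V : Type*} [NormedAddCommGroup V] [NormedSpace ℝ V] [MeasurableSpace V]
    [BorelSpace V] [FiniteDimensional ℝ V] (μ : Measure V) [μ.IsAddHaarMeasure] (f : V → ℝ≥0∞)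
    (hf : Measurable f) (a : ℝ) (ha : a ≠ 0) :
    ∫⁻ x, f (a • x) ∂μ = ENNReal.ofReal |(a ^ Module.finrank ℝ V)⁻¹| * ∫⁻ x, f x ∂μ := by
  have h1 := Measure.map_addHaar_smul μ ha
  have h2 : ∫⁻ x, f (a • x) ∂μ = ∫⁻ y, f y ∂(Measure.map (a • ·) μ) := by
    rw [lintegral_map hf (measurable_const_smul _)]
  rw [h2, h1, lintegral_smul_measure, smul_eq_mul]

/-- the arc -/
def AA : Set ℝ := Ioo 0 (Real.pi / 4)

theorem AA_meas : MeasurableSet AA := measurableSet_Ioo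

/-- `⟨e^{iθ}, ξ⟩` -/
noncomputable def aa (θ : ℝ) (ξ : ℂ) : ℝ := Real.cos θ * ξ.re + Real.sin θ * ξ.im

theorem aa_sq (θ : ℝ) (ξ : ℂ) : (aa θ ξ) ^ 2 =
    (‖ξ‖ ^ 2 + (Real.cos (2 * θ) * (ξ ^ 2).re + Real.sin (2 * θ) * (ξ ^ 2).im)) / 2 := by
  have h1 : ‖ξ‖ ^ 2 = ξ.re ^ 2 + ξ.im ^ 2 := by
    rw [← Complex.normSq_eq_norm_sq, Complex.normSq_apply]; ring
  have h2 : (ξ ^ 2).re = ξ.re ^ 2 - ξ.im ^ 2 := by
    rw [pow_two, Complex.mul_re]; ring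
  have h3 : (ξ ^ 2).im = 2 * ξ.re * ξ.im := by
    rw [pow_two, Complex.mul_im]; ring
  have h4 := Real.sin_sq_add_cos_sq θ
  rw [h1, h2, h3, Real.cos_two_mul, Real.sin_two_mul]
  unfold aa
  linear_combination (ξ.im ^ 2) * h4

/-- the operator -/
noncomputable def Y (b : ℝ → ℂ) (t : ℝ) (ξ : ℂ) : ℂ :=
  ∫ θ in AA, b θ * cexp ((((aa θ ξ) ^ 2 / (4 * t) : ℝ) : ℂ) * I)

theorem Y_meas (b : ℝ → ℂ) (hb : Measurable b) (t : ℝ) : Measurable (Y b t) := by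
  unfold Y
  refine StronglyMeasurable.measurable ?_
  refine StronglyMeasurable.integral_prod_right
    (f := fun (ξ : ℂ) (θ : ℝ) => b θ * cexp ((((aa θ ξ) ^ 2 / (4 * t) : ℝ) : ℂ) * I)) ?_
  refine Measurable.stronglyMeasurable ?_
  refine (hb.comp measurable_snd).mul ?_
  refine Continuous.measurable ?_
  unfold aa
  fun_prop

theorem Y_norm (b : ℝ → ℂ) (t : ℝ) (ξ : ℂ) : ‖Y b t ξ‖ₑ ≤ ∫⁻ θ in AA, ‖b θ‖ₑ := by
  unfold Y
  refine (enorm_integral_le_lintegral_enorm _).trans (le_of_eq ?_)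
  refine lintegral_congr fun θ => ?_
  rw [enorm_mul, ← ofReal_norm (cexp _), Complex.norm_exp_ofReal_mul_I, ENNReal.ofReal_one, mul_one]

theorem sub_two (F : ℝ → ℂ) : ∫ φ in Q, F (φ / 2) = 2 * ∫ θ in AA, F θ := by
  have hpi := Real.pi_pos
  unfold Q AA
  rw [← integral_Ioc_eq_integral_Ioo, ← integral_Ioc_eq_integral_Ioo,
    ← intervalIntegral.integral_of_le (by positivity), ← intervalIntegral.integral_of_le (by positivity),
    intervalIntegral.integral_comp_div (fun x => F x) (by norm_num : (2 : ℝ) ≠ 0)]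
  rw [zero_div, show Real.pi / 2 / 2 = Real.pi / 4 by ring]
  simp [Complex.real_smul]

theorem sub_two_lint (F : ℝ → ℝ≥0∞) (hF : Measurable F) :
    ∫⁻ φ in Q, F (φ / 2) = 2 * ∫⁻ θ in AA, F θ := by
  rw [← lintegral_indicator Pool.Agent.TH554.J1595.Q_meas, ← lintegral_indicator AA_meas]
  have h := lint_smul (volume : Measure ℝ) (AA.indicator F) (hF.indicator AA_meas) (1 / 2) (by norm_num)
  have e : ∀ x, AA.indicator F ((1 / 2 : ℝ) • x) = Q.indicator (fun φ => F (φ / 2)) x := by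
    intro x
    have e2 : (1 / 2 : ℝ) • x = x / 2 := by rw [smul_eq_mul]; ring
    rw [e2]
    by_cases hx : x ∈ Q
    · have : x / 2 ∈ AA := by
        unfold AA
        unfold Q at hx
        exact ⟨by have := hx.1; linarith, by have := hx.2; linarith⟩
      rw [indicator_of_mem hx, indicator_of_mem this]
    · have : x / 2 ∉ AA := by
        unfold AA
        unfold Q at hx
        intro h
        apply hx
        exact ⟨by have := h.1; linarith, by have := h.2; linarith⟩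
      rw [indicator_of_notMem hx, indicator_of_notMem this]
  simp_rw [e] at h
  rw [h]
  congr 1
  simp

theorem Y_eq (b : ℝ → ℂ) (t : ℝ) (ht : t ≠ 0) (ξ : ℂ) :
    ‖Y b t ξ‖ₑ ≤ ‖FF (fun φ => b (φ / 2)) (pr.symm ((-(1 / (8 * t)) * (ξ ^ 2).re,
      -(1 / (8 * t)) * (ξ ^ 2).im) : ℝ × ℝ))‖ₑ := by
  have h1 : FF (fun φ => b (φ / 2)) (pr.symm ((-(1 / (8 * t)) * (ξ ^ 2).re,
      -(1 / (8 * t)) * (ξ ^ 2).im) : ℝ × ℝ)) = 2 * ∫ θ in AA, b θ *
        cexp ((((1 / (8 * t)) * (Real.cos (2 * θ) * (ξ ^ 2).re + Real.sin (2 * θ) * (ξ ^ 2).im) : ℝ) : ℂ) * I) := by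
    rw [← sub_two]
    unfold FF ff
    refine integral_congr_ae (Filter.Eventually.of_forall fun φ => ?_)
    simp only
    have e0 : (pr.symm ((-(1 / (8 * t)) * (ξ ^ 2).re, -(1 / (8 * t)) * (ξ ^ 2).im) : ℝ × ℝ)) 0 =
      -(1 / (8 * t)) * (ξ ^ 2).re := by
      have := pr.apply_symm_apply ((-(1 / (8 * t)) * (ξ ^ 2).re, -(1 / (8 * t)) * (ξ ^ 2).im) : ℝ × ℝ)
      rw [Pool.Agent.TH554.J1595.pr_apply] at this
      exact congrArg Prod.fst this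
    have e1 : (pr.symm ((-(1 / (8 * t)) * (ξ ^ 2).re, -(1 / (8 * t)) * (ξ ^ 2).im) : ℝ × ℝ)) 1 =
      -(1 / (8 * t)) * (ξ ^ 2).im := by
      have := pr.apply_symm_apply ((-(1 / (8 * t)) * (ξ ^ 2).re, -(1 / (8 * t)) * (ξ ^ 2).im) : ℝ × ℝ)
      rw [Pool.Agent.TH554.J1595.pr_apply] at this
      exact congrArg Prod.snd this
    rw [e0, e1, show 2 * (φ / 2) = φ by ring]
    congr 3
    congr 1
    ring
  have h2 : Y b t ξ = cexp (((‖ξ‖ ^ 2 / (8 * t) : ℝ) : ℂ) * I) * ∫ θ in AA, b θ *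
        cexp ((((1 / (8 * t)) * (Real.cos (2 * θ) * (ξ ^ 2).re + Real.sin (2 * θ) * (ξ ^ 2).im) : ℝ) : ℂ) * I) := by
    unfold Y
    rw [← integral_const_mul]
    refine integral_congr_ae (Filter.Eventually.of_forall fun θ => ?_)
    simp only
    rw [mul_left_comm, ← Complex.exp_add, aa_sq, ← add_mul, ← Complex.ofReal_add]
    congr 4
    field_simp
    ring
  rw [h1, h2, enorm_mul, enorm_mul, ← ofReal_norm (cexp _), Complex.norm_exp_ofReal_mul_I,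
    ENNReal.ofReal_one]
  gcongr
  rw [← ofReal_norm]
  norm_num


/-- the Jacobian of the square -/
theorem sq_deriv (ξ : ℂ) : HasFDerivAt (fun z : ℂ => z ^ 2)
    ((LinearMap.mul ℝ ℂ (2 * ξ)).toContinuousLinearMap : ℂ →L[ℝ] ℂ) ξ := by
  have h : HasFDerivAt (fun z : ℂ => z ^ 2)
      ((ContinuousLinearMap.smulRight (1 : ℂ →L[ℂ] ℂ) (2 * ξ)).restrictScalars ℝ) ξ := by
    have h0 : HasDerivAt (fun z : ℂ => z ^ 2) (2 * ξ) ξ := by simpa using hasDerivAt_pow 2 ξ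
    exact h0.hasFDerivAt.restrictScalars ℝ
  refine h.congr_fderiv ?_
  ext z; simp [mul_comm]

theorem sq_det (ξ : ℂ) : ((LinearMap.mul ℝ ℂ (2 * ξ)).toContinuousLinearMap : ℂ →L[ℝ] ℂ).det =
    4 * ‖ξ‖ ^ 2 := by
  have h : ((LinearMap.mul ℝ ℂ (2 * ξ)).toContinuousLinearMap : ℂ →L[ℝ] ℂ).det =
    Algebra.norm ℝ (2 * ξ) := by
    rw [Algebra.norm_apply]
    rfl
  rw [h, Algebra.norm_complex_apply, Complex.normSq_mul, Complex.normSq_eq_norm_sq,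
    Complex.normSq_eq_norm_sq]
  norm_num

theorem sq_half (F : ℂ → ℝ≥0∞) (s : Set ℂ) (hs : MeasurableSet s)
    (hinj : InjOn (fun z : ℂ => z ^ 2) s) :
    ∫⁻ ξ in s, ENNReal.ofReal (4 * ‖ξ‖ ^ 2) * F (ξ ^ 2) ≤ ∫⁻ ζ, F ζ := by
  have h := lintegral_image_eq_lintegral_abs_det_fderiv_mul (volume : Measure ℂ) hs
    (fun x _ => (sq_deriv x).hasFDerivWithinAt) hinj F
  simp_rw [sq_det] at h
  have e : ∀ ξ : ℂ, |4 * ‖ξ‖ ^ 2| = 4 * ‖ξ‖ ^ 2 := fun ξ => abs_of_nonneg (by positivity)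
  simp_rw [e] at h
  rw [← h]
  exact setLIntegral_le_lintegral _ _

theorem sq_lint (F : ℂ → ℝ≥0∞) (hF : Measurable F) (R : ℝ) (hR : 0 < R) :
    ∫⁻ ξ in {ξ : ℂ | R ≤ ‖ξ‖}, F (ξ ^ 2) ≤ ENNReal.ofReal (1 / (2 * R ^ 2)) * ∫⁻ ζ, F ζ := by
  have hm : MeasurableSet {ξ : ℂ | R ≤ ‖ξ‖} := measurableSet_le measurable_const measurable_norm
  have hp : MeasurableSet {ξ : ℂ | 0 < ξ.re} := measurableSet_lt measurable_const Complex.measurable_re
  have hn : MeasurableSet {ξ : ℂ | ξ.re < 0} := measurableSet_lt Complex.measurable_re measurable_const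
  have key : ∀ s : Set ℂ, MeasurableSet s → InjOn (fun z : ℂ => z ^ 2) s →
      ∫⁻ ξ in {ξ : ℂ | R ≤ ‖ξ‖} ∩ s, F (ξ ^ 2) ≤ ENNReal.ofReal (1 / (4 * R ^ 2)) * ∫⁻ ζ, F ζ := by
    intro s hs hinj
    calc ∫⁻ ξ in {ξ : ℂ | R ≤ ‖ξ‖} ∩ s, F (ξ ^ 2)
        ≤ ∫⁻ ξ in {ξ : ℂ | R ≤ ‖ξ‖} ∩ s, ENNReal.ofReal (1 / (4 * R ^ 2)) *
            (ENNReal.ofReal (4 * ‖ξ‖ ^ 2) * F (ξ ^ 2)) := by
          refine setLIntegral_mono' (hm.inter hs) fun ξ hξ => ?_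
          rw [← mul_assoc, ← ENNReal.ofReal_mul (by positivity)]
          refine le_mul_of_one_le_left zero_le ?_
          rw [← ENNReal.ofReal_one]
          refine ENNReal.ofReal_le_ofReal ?_
          rw [one_div, inv_mul_eq_div, le_div_iff₀ (by positivity), one_mul]
          have : R ^ 2 ≤ ‖ξ‖ ^ 2 := pow_le_pow_left₀ hR.le hξ.1 2
          linarith
      _ ≤ ENNReal.ofReal (1 / (4 * R ^ 2)) * ∫⁻ ξ in s, ENNReal.ofReal (4 * ‖ξ‖ ^ 2) * F (ξ ^ 2) := by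
          rw [lintegral_const_mul]
          · gcongr
            exact inter_subset_right
          · exact (by fun_prop : Measurable fun ξ : ℂ => ENNReal.ofReal (4 * ‖ξ‖ ^ 2)).mul
              (hF.comp (by fun_prop))
      _ ≤ _ := mul_le_mul' le_rfl (sq_half F s hs hinj)
  have hip : InjOn (fun z : ℂ => z ^ 2) {ξ : ℂ | 0 < ξ.re} := by
    intro x hx y hy h
    rcases sq_eq_sq_iff_eq_or_eq_neg.1 h with h | h
    · exact h
    · exfalso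
      have h1 : x.re = -y.re := by rw [h]; simp
      simp only [mem_ofPred_eq] at hx hy
      linarith
  have hin : InjOn (fun z : ℂ => z ^ 2) {ξ : ℂ | ξ.re < 0} := by
    intro x hx y hy h
    rcases sq_eq_sq_iff_eq_or_eq_neg.1 h with h | h
    · exact h
    · exfalso
      have h1 : x.re = -y.re := by rw [h]; simp
      simp only [mem_ofPred_eq] at hx hy
      linarith
  have h0 : volume {ξ : ℂ | ξ.re = 0} = 0 := by
    have h1 : {ξ : ℂ | ξ.re = 0} = Complex.reCLM.ker := by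
      ext; simp
    have h2 := Measure.addHaar_submodule (volume : Measure ℂ) (LinearMap.ker (Complex.reCLM : ℂ →ₗ[ℝ] ℝ)) (by
      intro h
      have : (1 : ℂ) ∈ LinearMap.ker (Complex.reCLM : ℂ →ₗ[ℝ] ℝ) := by rw [h]; trivial
      simp at this)
    convert h2 using 2
  have hsub : {ξ : ℂ | R ≤ ‖ξ‖} ⊆ ({ξ : ℂ | R ≤ ‖ξ‖} ∩ {ξ : ℂ | 0 < ξ.re}) ∪
      (({ξ : ℂ | R ≤ ‖ξ‖} ∩ {ξ : ℂ | ξ.re < 0}) ∪ {ξ : ℂ | ξ.re = 0}) := by
    intro ξ hξ
    rcases lt_trichotomy ξ.re 0 with h | h | h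
    · exact Or.inr (Or.inl ⟨hξ, h⟩)
    · exact Or.inr (Or.inr h)
    · exact Or.inl ⟨hξ, h⟩
  calc ∫⁻ ξ in {ξ : ℂ | R ≤ ‖ξ‖}, F (ξ ^ 2)
      ≤ ∫⁻ ξ in ({ξ : ℂ | R ≤ ‖ξ‖} ∩ {ξ : ℂ | 0 < ξ.re}) ∪
          (({ξ : ℂ | R ≤ ‖ξ‖} ∩ {ξ : ℂ | ξ.re < 0}) ∪ {ξ : ℂ | ξ.re = 0}), F (ξ ^ 2) :=
        lintegral_mono_set hsub
    _ ≤ (ENNReal.ofReal (1 / (4 * R ^ 2)) * ∫⁻ ζ, F ζ) +
          ((ENNReal.ofReal (1 / (4 * R ^ 2)) * ∫⁻ ζ, F ζ) + 0) := by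
        refine (lintegral_union_le _ _ _).trans (add_le_add (key _ hp hip) ?_)
        refine (lintegral_union_le _ _ _).trans (add_le_add (key _ hn hin) ?_)
        rw [setLIntegral_measure_zero _ _ h0]
    _ = _ := by
        rw [add_zero, ← add_mul, ← ENNReal.ofReal_add (by positivity) (by positivity)]
        congr 2
        field_simp
        norm_num

/-- the map to the Euclidean plane -/
noncomputable def toE (z : ℂ) : E 2 := pr.symm ((z.re, z.im) : ℝ × ℝ)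

theorem toE_mp : MeasurePreserving toE (volume : Measure ℂ) (volume : Measure (E 2)) :=
  (MeasurePreserving.symm _ pr_mp).comp Complex.volume_preserving_equiv_real_prod

theorem FF_meas (b : ℝ → ℂ) (hb : Measurable b) : Measurable (FF b) := by
  unfold FF
  refine StronglyMeasurable.measurable ?_
  refine StronglyMeasurable.integral_prod_right (f := fun (x : E 2) (θ : ℝ) => ff b x θ) ?_
  exact (Pool.Agent.TH554.J1595.ff_meas b hb).stronglyMeasurable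

/-- **The circle estimate.** -/
theorem Y_est (q : ℝ) (hq : 4 < q) : ∃ C : ℝ≥0, ∀ b : ℝ → ℂ, Measurable b →
    (∃ M : ℝ, ∀ z, ‖b z‖ ≤ M) → ∀ t R : ℝ, t ≠ 0 → 0 < R →
    ∫⁻ ξ in {ξ : ℂ | R ≤ ‖ξ‖}, ‖Y b t ξ‖ₑ ^ q ≤
      ENNReal.ofReal ((t / R) ^ 2) * C * (∫⁻ θ in AA, ‖b θ‖ₑ ^ 4) ^ (q / 4) := by
  obtain ⟨C, hC⟩ := quarter q hq
  refine ⟨32 * C * (2 : ℝ≥0) ^ (q / 4), fun b hb hM t R ht hR => ?_⟩
  obtain ⟨M, hM⟩ := hM
  set b' : ℝ → ℂ := fun φ => b (φ / 2) with hb'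
  have hbm : Measurable b' := hb.comp (by fun_prop)
  have hFm := FF_meas b' hbm
  set c : ℝ := -(1 / (8 * t)) with hc
  have hc0 : c ≠ 0 := by
    rw [hc]
    simp [ht]
  set G : ℂ → ℝ≥0∞ := fun z => ‖FF b' (toE z)‖ₑ ^ q with hG
  have hGm : Measurable G := ((hFm.comp toE_mp.measurable).enorm).pow_const q
  have h1 : ∀ ξ : ℂ, ‖Y b t ξ‖ₑ ^ q ≤ G (c • ξ ^ 2) := by
    intro ξ
    have := Y_eq b t ht ξ
    simp only [hG, hb', toE, Complex.smul_re, Complex.smul_im, smul_eq_mul, hc]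
    exact ENNReal.rpow_le_rpow this (by linarith)
  have h2 : ∫⁻ ζ, G (c • ζ) = ENNReal.ofReal |(c ^ 2)⁻¹| * ∫⁻ ζ, G ζ := by
    have := lint_smul (volume : Measure ℂ) G hGm c hc0
    rwa [Complex.finrank_real_complex] at this
  have h3 : ∫⁻ ζ, G ζ = ∫⁻ x : E 2, ‖FF b' x‖ₑ ^ q :=
    toE_mp.lintegral_comp (f := fun x => ‖FF b' x‖ₑ ^ q) (hFm.enorm.pow_const q)
  have h4 := hC b' hbm ⟨M, fun z => hM _⟩
  have h5 : ∫⁻ θ in Q, ‖b' θ‖ₑ ^ 4 = 2 * ∫⁻ θ in AA, ‖b θ‖ₑ ^ 4 :=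
    sub_two_lint (fun θ => ‖b θ‖ₑ ^ 4) (hb.enorm.pow_const 4)
  calc ∫⁻ ξ in {ξ : ℂ | R ≤ ‖ξ‖}, ‖Y b t ξ‖ₑ ^ q
      ≤ ∫⁻ ξ in {ξ : ℂ | R ≤ ‖ξ‖}, (fun z => G (c • z)) (ξ ^ 2) := lintegral_mono fun ξ => h1 ξ
    _ ≤ ENNReal.ofReal (1 / (2 * R ^ 2)) * ∫⁻ ζ, G (c • ζ) :=
        sq_lint (fun z => G (c • z)) (hGm.comp (measurable_const_smul _)) R hR
    _ ≤ ENNReal.ofReal (1 / (2 * R ^ 2)) * (ENNReal.ofReal |(c ^ 2)⁻¹| *
          (C * (2 * ∫⁻ θ in AA, ‖b θ‖ₑ ^ 4) ^ (q / 4))) := by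
        rw [h2, h3, ← h5]
        gcongr
    _ = _ := by
        rw [ENNReal.mul_rpow_of_nonneg _ _ (by linarith), ← mul_assoc, ← mul_assoc, ← mul_assoc,
          ← ENNReal.ofReal_mul (by positivity)]
        have e1 : 1 / (2 * R ^ 2) * |(c ^ 2)⁻¹| = (t / R) ^ 2 * 32 := by
          rw [abs_of_pos (by positivity), hc]
          field_simp
          norm_num
        rw [e1, ENNReal.ofReal_mul (by positivity), ENNReal.coe_mul, ENNReal.coe_mul,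
          ENNReal.coe_rpow_of_nonneg _ (by linarith)]
        have : ENNReal.ofReal 32 = ((32 : ℝ≥0) : ℝ≥0∞) := by
          rw [ENNReal.ofReal]; congr 1; norm_num
        rw [this]
        push_cast
        ring

end Run7.h783.RV
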