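import Mathlib
import Pool.Agent.Run7.h783.RV.Circ
set_option autoImplicit false

/-! # Fresnel integrals along rays -/

namespace Run7.h783.RV

open MeasureTheory Set Complex Filter Topology
open scoped ENNReal NNReal RealInnerProductSpace FourierTransform SchwartzMap ContDiff

/-- the direction `e^{iθ}` -/
noncomputable def om (θ : ℝ) : ℂ := ⟨Real.cos θ, Real.sin θ⟩

theorem om_norm (θ : ℝ) : ‖om θ‖ = 1 := by
  unfold om
  rw [Complex.norm_def, Complex.normSq_apply, Real.sqrt_eq_one]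
  simp only
  nlinarith [Real.sin_sq_add_cos_sq θ]

theorem inner_om (v : ℂ) (r θ : ℝ) : ⟪v, r • om θ⟫ = r * aa θ v := by
  unfold om aa
  rw [Complex.inner]
  simp
  ring

theorem aa_sub (θ : ℝ) (ξ v : ℂ) (c : ℝ) : aa θ (ξ - c • v) = aa θ ξ - c * aa θ v := by
  unfold aa
  simp
  ring

/-- the integral along a ray -/
noncomputable def ray (S : ℂ → ℂ) (t : ℝ) (ξ : ℂ) (θ : ℝ) : ℂ :=
  ∫ r : ℝ, S (r • om θ) * cexp (((-(r * aa θ ξ + t * r ^ 2) : ℝ) : ℂ) * I)

theorem gauss_norm (ε t r : ℝ) : ‖cexp (-((ε : ℂ) + t * I) * r ^ 2)‖ = Real.exp (-ε * r ^ 2) := by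
  rw [Complex.norm_exp]
  congr 1
  have : ((r : ℂ) ^ 2) = ((r ^ 2 : ℝ) : ℂ) := by push_cast; rfl
  rw [this, Complex.mul_re, Complex.ofReal_re, Complex.ofReal_im]
  simp

theorem fres_eps (S : 𝓢(ℂ, ℂ)) (ε t : ℝ) (hε : 0 < ε) (ξ : ℂ) (θ : ℝ) :
    ∫ r : ℝ, S (r • om θ) * cexp (((-(r * aa θ ξ) : ℝ) : ℂ) * I) * cexp (-((ε : ℂ) + t * I) * r ^ 2) =
    ((Real.pi : ℂ) / ((ε : ℂ) + t * I)) ^ (1 / 2 : ℂ) * ∫ v : ℂ, (𝓕 S) v *
      cexp (-((aa θ (ξ - (2 * Real.pi) • v) : ℝ) : ℂ) ^ 2 / (4 * ((ε : ℂ) + t * I))) := by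
  have hb : 0 < ((ε : ℂ) + t * I).re := by simp [hε]
  have hS : ∀ x : ℂ, S x = ∫ v : ℂ, cexp (((2 * Real.pi * ⟪v, x⟫ : ℝ) : ℂ) * I) * (𝓕 S) v := by
    intro x
    have h1 : S x = (𝓕⁻ (𝓕 S)) x := by rw [FourierTransform.fourierInv_fourier_eq]
    rw [h1, SchwartzMap.fourierInv_coe, Real.fourierInv_eq']
    simp only [smul_eq_mul]
  set G : ℝ → ℂ → ℂ := fun r v => (𝓕 S) v * cexp (((2 * Real.pi * (r * aa θ v) : ℝ) : ℂ) * I) *
    cexp (((-(r * aa θ ξ) : ℝ) : ℂ) * I) * cexp (-((ε : ℂ) + t * I) * r ^ 2) with hG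
  have hint : Integrable (Function.uncurry G) ((volume : Measure ℝ).prod (volume : Measure ℂ)) := by
    have h1 : Integrable (fun p : ℝ × ℂ => Real.exp (-ε * p.1 ^ 2) * ‖(𝓕 S) p.2‖)
        ((volume : Measure ℝ).prod (volume : Measure ℂ)) :=
      (integrable_exp_neg_mul_sq hε).mul_prod (𝓕 S).integrable.norm
    refine h1.mono' ?_ (Eventually.of_forall fun p => ?_)
    · refine Continuous.aestronglyMeasurable ?_
      have h2 : Continuous (fun x => (𝓕 S) x) := (𝓕 S).continuous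
      rw [hG]
      unfold Function.uncurry aa
      simp only
      have h3 : Continuous fun p : ℝ × ℂ => (𝓕 S) p.2 := h2.comp continuous_snd
      fun_prop
    · rw [hG]
      simp only [Function.uncurry]
      rw [norm_mul, norm_mul, norm_mul, Complex.norm_exp_ofReal_mul_I, Complex.norm_exp_ofReal_mul_I,
        gauss_norm, mul_one, mul_one, mul_comm]
  have e1 : ∀ r : ℝ, S (r • om θ) * cexp (((-(r * aa θ ξ) : ℝ) : ℂ) * I) *
      cexp (-((ε : ℂ) + t * I) * r ^ 2) = ∫ v, G r v := by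
    intro r
    rw [hS, hG]
    simp only
    rw [← integral_mul_const, ← integral_mul_const]
    refine integral_congr_ae (Eventually.of_forall fun v => ?_)
    simp only
    rw [inner_om]
    ring
  simp_rw [e1]
  rw [integral_integral_swap hint, ← integral_const_mul]
  refine integral_congr_ae (Eventually.of_forall fun v => ?_)
  simp only
  have e2 : ∀ r : ℝ, G r v = (𝓕 S) v * (cexp (I * ((-(aa θ (ξ - (2 * Real.pi) • v)) : ℝ) : ℂ) * r) *
      cexp (-((ε : ℂ) + t * I) * r ^ 2)) := by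
    intro r
    rw [hG]
    simp only
    rw [mul_assoc, mul_assoc, mul_assoc]
    congr 1
    rw [← mul_assoc]
    congr 1
    rw [← Complex.exp_add]
    congr 1
    rw [aa_sub]
    push_cast
    ring
  simp_rw [e2]
  rw [integral_const_mul, fourierIntegral_gaussian hb]
  push_cast
  ring_nf

/-- **The Fresnel formula.** -/
theorem fres (S : 𝓢(ℂ, ℂ)) (t : ℝ) (ht : t ≠ 0) (ξ : ℂ) (θ : ℝ)
    (hS : Integrable fun r : ℝ => S (r • om θ)) :
    ray S t ξ θ = ((Real.pi : ℂ) / (t * I)) ^ (1 / 2 : ℂ) * ∫ v : ℂ, (𝓕 S) v *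
      cexp ((((aa θ (ξ - (2 * Real.pi) • v)) ^ 2 / (4 * t) : ℝ) : ℂ) * I) := by
  have htI : (t : ℂ) * I ≠ 0 := by simp [ht]
  have hε0 : Tendsto (fun ε : ℝ => ((ε : ℂ) + t * I)) (𝓝[>] 0) (𝓝 (t * I)) := by
    have : Tendsto (fun ε : ℝ => ((ε : ℂ) + t * I)) (𝓝 0) (𝓝 (((0 : ℝ) : ℂ) + t * I)) := by
      refine Continuous.tendsto ?_ 0
      fun_prop
    rw [Complex.ofReal_zero, zero_add] at this
    exact this.mono_left nhdsWithin_le_nhds
  have hl : Tendsto (fun ε : ℝ => ∫ r : ℝ, S (r • om θ) * cexp (((-(r * aa θ ξ) : ℝ) : ℂ) * I) *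
      cexp (-((ε : ℂ) + t * I) * r ^ 2)) (𝓝[>] 0) (𝓝 (ray S t ξ θ)) := by
    unfold ray
    refine tendsto_integral_filter_of_dominated_convergence (fun r => ‖S (r • om θ)‖) ?_ ?_ hS.norm ?_
    · refine Eventually.of_forall fun ε => ?_
      refine (hS.aestronglyMeasurable.mul ?_).mul ?_
      · exact Continuous.aestronglyMeasurable (by fun_prop)
      · exact Continuous.aestronglyMeasurable (by fun_prop)
    · filter_upwards [self_mem_nhdsWithin] with ε hε
      refine Eventually.of_forall fun r => ?_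
      rw [norm_mul, norm_mul, Complex.norm_exp_ofReal_mul_I, gauss_norm, mul_one]
      refine mul_le_of_le_one_right (norm_nonneg _) ?_
      rw [Real.exp_le_one_iff]
      have : 0 < ε := hε
      nlinarith [sq_nonneg r, mul_nonneg this.le (sq_nonneg r)]
    · refine Eventually.of_forall fun r => ?_
      have h1 : Tendsto (fun ε : ℝ => cexp (-((ε : ℂ) + t * I) * r ^ 2)) (𝓝[>] 0)
          (𝓝 (cexp (-(t * I) * r ^ 2))) := by
        exact (Complex.continuous_exp.tendsto _).comp ((hε0.neg).mul_const _)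
      have h2 := h1.const_mul (S (r • om θ) * cexp (((-(r * aa θ ξ) : ℝ) : ℂ) * I))
      refine h2.congr_dist ?_ |>.trans (le_of_eq ?_)
      · simp
      · congr 1
        rw [mul_assoc, ← Complex.exp_add]
        congr 2
        push_cast
        ring
  have hr : Tendsto (fun ε : ℝ => ((Real.pi : ℂ) / ((ε : ℂ) + t * I)) ^ (1 / 2 : ℂ) *
      ∫ v : ℂ, (𝓕 S) v *
      cexp (-((aa θ (ξ - (2 * Real.pi) • v) : ℝ) : ℂ) ^ 2 / (4 * ((ε : ℂ) + t * I)))) (𝓝[>] 0)
      (𝓝 (((Real.pi : ℂ) / (t * I)) ^ (1 / 2 : ℂ) * ∫ v : ℂ, (𝓕 S) v *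
      cexp ((((aa θ (ξ - (2 * Real.pi) • v)) ^ 2 / (4 * t) : ℝ) : ℂ) * I))) := by
    refine Tendsto.mul ?_ ?_
    · have h1 : Tendsto (fun ε : ℝ => (Real.pi : ℂ) / ((ε : ℂ) + t * I)) (𝓝[>] 0)
          (𝓝 ((Real.pi : ℂ) / (t * I))) := tendsto_const_nhds.div hε0 htI
      refine (continuousAt_cpow_const ?_).tendsto.comp h1
      rw [Complex.mem_slitPlane_iff]
      right
      rw [show (Real.pi : ℂ) / (t * I) = ((-(Real.pi / t) : ℝ) : ℂ) * I by
        have : (t : ℂ) ≠ 0 := by exact_mod_cast ht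
        push_cast
        field_simp
        rw [Complex.I_sq]
        ring]
      simp [ht, Real.pi_ne_zero]
    · refine tendsto_integral_filter_of_dominated_convergence (fun v => ‖(𝓕 S) v‖) ?_ ?_
        (𝓕 S).integrable.norm ?_
      · filter_upwards [self_mem_nhdsWithin] with ε hε
        refine (𝓕 S).integrable.aestronglyMeasurable.mul ?_
        refine Continuous.aestronglyMeasurable ?_
        unfold aa
        fun_prop
      · filter_upwards [self_mem_nhdsWithin] with ε hε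
        refine Eventually.of_forall fun v => ?_
        rw [norm_mul]
        refine mul_le_of_le_one_right (norm_nonneg _) ?_
        rw [Complex.norm_exp, Real.exp_le_one_iff]
        have hε' : 0 < ε := hε
        set a := aa θ (ξ - (2 * Real.pi) • v)
        have e : -((a : ℂ)) ^ 2 / (4 * ((ε : ℂ) + t * I)) = ((-(a ^ 2) / 4 : ℝ) : ℂ) *
          ((ε : ℂ) + t * I)⁻¹ := by
          push_cast
          rw [div_eq_mul_inv, mul_inv]
          ring
        rw [e, Complex.re_ofReal_mul, Complex.inv_re]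
        refine mul_nonpos_of_nonpos_of_nonneg ?_ ?_
        · nlinarith [sq_nonneg a]
        · refine div_nonneg ?_ (Complex.normSq_nonneg _)
          simp [hε'.le]
      · refine Eventually.of_forall fun v => ?_
        refine Tendsto.const_mul _ ?_
        refine (Complex.continuous_exp.tendsto _).comp ?_
        set a := aa θ (ξ - (2 * Real.pi) • v)
        have h1 : Tendsto (fun ε : ℝ => -((a : ℂ)) ^ 2 / (4 * ((ε : ℂ) + t * I))) (𝓝[>] 0)
          (𝓝 (-((a : ℂ)) ^ 2 / (4 * (t * I)))) :=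
          tendsto_const_nhds.div (hε0.const_mul 4) (by simp [ht])
        refine h1.trans (le_of_eq ?_)
        congr 1
        have : (t : ℂ) ≠ 0 := by exact_mod_cast ht
        push_cast
        field_simp
        rw [Complex.I_sq]
        ring
  refine tendsto_nhds_unique hl (hr.congr' ?_)
  filter_upwards [self_mem_nhdsWithin] with ε hε
  exact (fres_eps S ε t hε ξ θ).symm

end Run7.h783.RV
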