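import Mathlib
import Pool.Agent.Run7.h783.RV.Fres
set_option autoImplicit false

/-! # Polar coordinates with the square of the radius -/

namespace Run7.h783.RV

open MeasureTheory Set Complex Filter Topology
open scoped ENNReal NNReal RealInnerProductSpace

theorem sub_sq (G : ℝ → ℂ) : ∫ s in Ioi (0 : ℝ), G s = ∫ r in Ioi (0 : ℝ), (2 * r : ℝ) * G (r ^ 2) := by
  rw [← integral_comp_rpow_Ioi_of_pos (g := G) (p := 2) (by norm_num)]
  refine setIntegral_congr_fun measurableSet_Ioi fun r hr => ?_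
  simp only [Real.rpow_two]
  rw [show (2 : ℝ) - 1 = 1 by norm_num, Real.rpow_one, Complex.real_smul]

theorem sub_sq_lint (G : ℝ → ℝ≥0∞) :
    ∫⁻ s in Ioi (0 : ℝ), G s = ∫⁻ r in Ioi (0 : ℝ), ENNReal.ofReal (2 * r) * G (r ^ 2) := by
  have a : (fun x : ℝ => x ^ 2) '' (Ioi 0) = Ioi (0 : ℝ) := by
    ext x
    constructor
    · rintro ⟨y, hy, rfl⟩
      exact pow_pos (show (0 : ℝ) < y from hy) 2
    · intro hx
      exact ⟨√x, Real.sqrt_pos.2 hx, Real.sq_sqrt (le_of_lt hx)⟩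
  have h := lintegral_image_eq_lintegral_abs_deriv_mul (f := fun x : ℝ => x ^ 2)
    (f' := fun x : ℝ => 2 * x) measurableSet_Ioi
    (fun x _ => by simpa using (hasDerivAt_pow 2 x).hasDerivWithinAt (s := Ioi (0 : ℝ)))
    (fun x hx y hy hxy => by
      have h1 : 0 ≤ x := le_of_lt hx
      have h2 : 0 ≤ y := le_of_lt hy
      exact (pow_left_inj₀ h1 h2 (by norm_num)).1 hxy) G
  rw [a] at h
  rw [h]
  refine setLIntegral_congr_fun measurableSet_Ioi fun r hr => ?_
  rw [abs_of_pos (by have : (0 : ℝ) < r := hr; positivity)]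

/-- the angles -/
def CC : Set ℝ := Ioo (-Real.pi) Real.pi

theorem CC_meas : MeasurableSet CC := measurableSet_Ioo

theorem symm_om (p : ℝ × ℝ) : Complex.polarCoord.symm p = p.1 • om p.2 := by
  rw [Complex.polarCoord_symm_apply]
  unfold om
  apply Complex.ext <;> simp [Complex.cos_ofReal_re, Complex.sin_ofReal_re]

theorem om_cont : Continuous om := by
  have : om = fun θ : ℝ => (Real.cos θ : ℂ) + (Real.sin θ : ℂ) * I := by
    funext θ
    unfold om
    apply Complex.ext <;> simp [Complex.cos_ofReal_re, Complex.sin_ofReal_re]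
  rw [this]
  fun_prop

theorem polar_L (F : ℂ → ℝ≥0∞) (hF : Measurable F) :
    ∫⁻ x, F x = ∫⁻ θ in CC, ∫⁻ r in Ioi (0 : ℝ), ENNReal.ofReal r * F (r • om θ) := by
  have hm : Measurable fun p : ℝ × ℝ => ENNReal.ofReal p.1 * F (p.1 • om p.2) := by
    refine (measurable_fst.ennreal_ofReal).mul (hF.comp ?_)
    exact (continuous_fst.smul (om_cont.comp continuous_snd)).measurable
  rw [← Complex.lintegral_comp_polarCoord_symm, polarCoord_target]
  simp_rw [symm_om, smul_eq_mul]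
  rw [Measure.volume_eq_prod, ← Measure.prod_restrict, lintegral_prod_symm' _ hm]
  rfl

theorem polar_C (F : ℂ → ℂ) (hF : Measurable F) (hi : Integrable F) :
    ∫ x, F x = ∫ θ in CC, ∫ r in Ioi (0 : ℝ), (r : ℂ) * F (r • om θ) := by
  have hm : Measurable fun p : ℝ × ℝ => (p.1 : ℂ) * F (p.1 • om p.2) := by
    refine (Complex.measurable_ofReal.comp measurable_fst).mul (hF.comp ?_)
    exact (continuous_fst.smul (om_cont.comp continuous_snd)).measurable
  rw [← Complex.integral_comp_polarCoord_symm, polarCoord_target]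
  have hsm : ∀ p : ℝ × ℝ, p.1 • F (Complex.polarCoord.symm p) = (p.1 : ℂ) * F (p.1 • om p.2) :=
    fun p => by rw [symm_om]; exact Complex.real_smul
  simp_rw [hsm]
  rw [Measure.volume_eq_prod, ← Measure.prod_restrict, integral_prod_symm]
  · rfl
  · refine ⟨hm.aestronglyMeasurable, ?_⟩
    unfold HasFiniteIntegral
    rw [lintegral_prod_symm' _ (hm.enorm)]
    have h1 := polar_L (fun x => ‖F x‖ₑ) hF.enorm
    have h2 : ∫⁻ θ in CC, ∫⁻ r in Ioi (0 : ℝ), ‖(r : ℂ) * F (r • om θ)‖ₑ =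
        ∫⁻ θ in CC, ∫⁻ r in Ioi (0 : ℝ), ENNReal.ofReal r * ‖F (r • om θ)‖ₑ := by
      refine lintegral_congr fun θ => setLIntegral_congr_fun measurableSet_Ioi fun r hr => ?_
      have hr0 : (0 : ℝ) < r := hr
      rw [enorm_mul, ← ofReal_norm (r : ℂ), Complex.norm_real, Real.norm_of_nonneg hr0.le]
    change ∫⁻ θ in CC, ∫⁻ r in Ioi (0 : ℝ), ‖(r : ℂ) * F (r • om θ)‖ₑ < ∞
    rw [h2, ← h1]
    exact hi.2

theorem polar_Cs (F : ℂ → ℂ) (hF : Measurable F) (hi : Integrable F) :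
    2 * ∫ x, F x = ∫ θ in CC, ∫ s in Ioi (0 : ℝ), F (√s • om θ) := by
  rw [polar_C F hF hi, ← integral_const_mul]
  refine integral_congr_ae (Eventually.of_forall fun θ => ?_)
  try simp only
  rw [sub_sq (fun s => F (√s • om θ)), ← integral_const_mul]
  refine setIntegral_congr_fun measurableSet_Ioi fun r hr => ?_
  have hr0 : (0 : ℝ) < r := hr
  try simp only
  rw [Real.sqrt_sq hr0.le]
  push_cast
  ring

theorem polar_Ls (F : ℂ → ℝ≥0∞) (hF : Measurable F) :
    2 * ∫⁻ x, F x = ∫⁻ θ in CC, ∫⁻ s in Ioi (0 : ℝ), F (√s • om θ) := by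
  rw [polar_L F hF, ← lintegral_const_mul' _ _ (by norm_num)]
  refine lintegral_congr fun θ => ?_
  rw [sub_sq_lint (fun s => F (√s • om θ)), ← lintegral_const_mul' _ _ (by norm_num)]
  refine setLIntegral_congr_fun measurableSet_Ioi fun r hr => ?_
  have hr0 : (0 : ℝ) < r := hr
  try simp only
  rw [Real.sqrt_sq hr0.le, ENNReal.ofReal_mul (by norm_num), mul_assoc]
  congr 1
  simp

/-- the operator in polar coordinates -/
noncomputable def PP (H : ℝ → ℝ → ℂ) (t : ℝ) (ξ : ℂ) : ℂ :=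
  ∫ θ in AA, ∫ s in Ioi (0 : ℝ), H s θ * cexp (((-(√s * aa θ ξ + t * s) : ℝ) : ℂ) * I)

/-- the function in the plane -/
noncomputable def fH (H : ℝ → ℝ → ℂ) (x : ℂ) : ℂ :=
  {x : ℂ | arg x ∈ AA}.indicator (fun x => 2 * H (‖x‖ ^ 2) (arg x)) x

theorem fH_meas (H : ℝ → ℝ → ℂ) (hH : Measurable (Function.uncurry H)) : Measurable (fH H) := by
  unfold fH
  refine Measurable.indicator ?_ (Complex.measurable_arg AA_meas)
  refine Measurable.const_mul ?_ 2
  exact hH.comp ((measurable_norm.pow_const 2).prodMk Complex.measurable_arg)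

theorem AA_sub : AA ⊆ CC := by
  intro θ hθ
  have := Real.pi_pos
  unfold AA at hθ
  unfold CC
  exact ⟨by have := hθ.1; linarith, by have := hθ.2; linarith⟩

theorem arg_om (r θ : ℝ) (hr : 0 < r) (hθ : θ ∈ CC) : arg (r • om θ) = θ := by
  rw [← symm_om (r, θ), Complex.polarCoord_symm_apply]
  try simp only
  have h := Complex.arg_mul_cos_add_sin_mul_I (r := r) (θ := θ) hr ⟨hθ.1, hθ.2.le⟩
  push_cast
  exact h

theorem norm_r_om (r θ : ℝ) (hr : 0 ≤ r) : ‖r • om θ‖ = r := by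
  rw [norm_smul, om_norm, mul_one, Real.norm_of_nonneg hr]

theorem fH_om (H : ℝ → ℝ → ℂ) (s θ : ℝ) (hs : 0 < s) (hθ : θ ∈ CC) :
    fH H (√s • om θ) = AA.indicator (fun θ => 2 * H s θ) θ := by
  have hs' := Real.sqrt_pos.2 hs
  unfold fH
  by_cases h : θ ∈ AA
  · rw [indicator_of_mem h, indicator_of_mem]
    · rw [norm_r_om _ _ hs'.le, arg_om _ _ hs' hθ, Real.sq_sqrt hs.le]
    · simp only [mem_ofPred_eq, arg_om _ _ hs' hθ]
      exact h
  · rw [indicator_of_notMem h, indicator_of_notMem]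
    simp only [mem_ofPred_eq, arg_om _ _ hs' hθ]
    exact h

theorem fH_lint (H : ℝ → ℝ → ℂ) (hH : Measurable (Function.uncurry H)) (p : ℝ) (hp : 0 < p) :
    2 * ∫⁻ x, ‖fH H x‖ₑ ^ p = 2 ^ p * ∫⁻ θ in AA, ∫⁻ s in Ioi (0 : ℝ), ‖H s θ‖ₑ ^ p := by
  rw [polar_Ls _ ((fH_meas H hH).enorm.pow_const p)]
  have h1 : ∀ θ ∈ CC, ∫⁻ s in Ioi (0 : ℝ), ‖fH H (√s • om θ)‖ₑ ^ p =
      AA.indicator (fun θ => 2 ^ p * ∫⁻ s in Ioi (0 : ℝ), ‖H s θ‖ₑ ^ p) θ := by
    intro θ hθ
    by_cases h : θ ∈ AA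
    · rw [indicator_of_mem h, ← lintegral_const_mul' _ _ (by
        exact ENNReal.rpow_ne_top_of_nonneg hp.le (by norm_num))]
      refine setLIntegral_congr_fun measurableSet_Ioi fun s hs => ?_
      try simp only
      rw [fH_om H s θ hs hθ, indicator_of_mem h, enorm_mul, ENNReal.mul_rpow_of_nonneg _ _ hp.le]
      congr 2
      rw [← ofReal_norm]
      norm_num
    · rw [indicator_of_notMem h]
      rw [← lintegral_zero (μ := volume.restrict (Ioi (0 : ℝ)))]
      refine setLIntegral_congr_fun measurableSet_Ioi fun s hs => ?_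
      try simp only
      rw [fH_om H s θ hs hθ, indicator_of_notMem h, enorm_zero, ENNReal.zero_rpow_of_pos hp]
  rw [setLIntegral_congr_fun CC_meas h1, lintegral_indicator AA_meas,
    Measure.restrict_restrict AA_meas, inter_eq_left.2 AA_sub, lintegral_const_mul' _ _ (by
        exact ENNReal.rpow_ne_top_of_nonneg hp.le (by norm_num))]

/-- the plane wave integral -/
theorem PP_eq (H : ℝ → ℝ → ℂ) (hH : Measurable (Function.uncurry H)) (hi : Integrable (fH H))
    (t : ℝ) (ξ : ℂ) :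
    PP H t ξ = ∫ x : ℂ, fH H x * cexp (((-(⟪ξ, x⟫ + t * ‖x‖ ^ 2) : ℝ) : ℂ) * I) := by
  have hm : Measurable fun x : ℂ => fH H x * cexp (((-(⟪ξ, x⟫ + t * ‖x‖ ^ 2) : ℝ) : ℂ) * I) := by
    refine (fH_meas H hH).mul ?_
    exact Continuous.measurable (by fun_prop)
  have hi' : Integrable fun x : ℂ => fH H x * cexp (((-(⟪ξ, x⟫ + t * ‖x‖ ^ 2) : ℝ) : ℂ) * I) := by
    refine hi.norm.mono' hm.aestronglyMeasurable (Eventually.of_forall fun x => ?_)
    rw [norm_mul, Complex.norm_exp_ofReal_mul_I, mul_one]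
  have h := polar_Cs _ hm hi'
  have h1 : ∀ θ ∈ CC, ∫ s in Ioi (0 : ℝ), (fH H (√s • om θ) *
      cexp (((-(⟪ξ, √s • om θ⟫ + t * ‖√s • om θ‖ ^ 2) : ℝ) : ℂ) * I)) =
      AA.indicator (fun θ => 2 * ∫ s in Ioi (0 : ℝ), H s θ *
        cexp (((-(√s * aa θ ξ + t * s) : ℝ) : ℂ) * I)) θ := by
    intro θ hθ
    by_cases h : θ ∈ AA
    · rw [indicator_of_mem h, ← integral_const_mul]
      refine setIntegral_congr_fun measurableSet_Ioi fun s hs => ?_
      try simp only
      rw [fH_om H s θ hs hθ, indicator_of_mem h, inner_om, norm_r_om _ _ (Real.sqrt_nonneg _),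
        Real.sq_sqrt (le_of_lt hs)]
      ring
    · rw [indicator_of_notMem h]
      rw [← integral_zero ℝ ℂ (μ := volume.restrict (Ioi (0 : ℝ)))]
      refine setIntegral_congr_fun measurableSet_Ioi fun s hs => ?_
      try simp only
      rw [fH_om H s θ hs hθ, indicator_of_notMem h, zero_mul]
  rw [setIntegral_congr_fun CC_meas h1, integral_indicator AA_meas,
    Measure.restrict_restrict AA_meas, inter_eq_left.2 AA_sub, integral_const_mul] at h
  exact (mul_left_cancel₀ (by norm_num) h).symm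

theorem bdd_int (f : ℂ → ℂ) (hf : Measurable f) (M R : ℝ) (hM : ∀ x, ‖f x‖ ≤ M)
    (hR : ∀ x, R < ‖x‖ → f x = 0) (p : ℝ≥0∞) : MemLp f p := by
  have h1 : MemLp ((Metric.closedBall (0 : ℂ) R).indicator fun _ : ℂ => M) p := by
    refine memLp_indicator_const p Metric.isClosed_closedBall.measurableSet M (Or.inr ?_)
    exact measure_closedBall_lt_top.ne
  refine h1.of_le hf.aestronglyMeasurable (Eventually.of_forall fun x => ?_)
  by_cases hx : x ∈ Metric.closedBall (0 : ℂ) R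
  · rw [indicator_of_mem hx]
    exact (hM x).trans (le_abs_self _)
  · rw [indicator_of_notMem hx, hR x (by simpa using hx)]
    simp

theorem fH_memLp (H : ℝ → ℝ → ℂ) (hH : Measurable (Function.uncurry H)) (M R : ℝ)
    (hM : ∀ s θ, ‖H s θ‖ ≤ M) (hR : ∀ s θ, R < s → H s θ = 0) (p : ℝ≥0∞) : MemLp (fH H) p := by
  have hM0 : 0 ≤ M := (norm_nonneg _).trans (hM 0 0)
  refine bdd_int (fH H) (fH_meas H hH) (2 * M) √R ?_ ?_ p
  · intro x
    unfold fH
    by_cases hx : x ∈ {x : ℂ | arg x ∈ AA}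
    · rw [indicator_of_mem hx, norm_mul]
      have := hM (‖x‖ ^ 2) (arg x)
      norm_num
      linarith
    · rw [indicator_of_notMem hx, norm_zero]
      positivity
  · intro x hx
    unfold fH
    by_cases hx' : x ∈ {x : ℂ | arg x ∈ AA}
    · rw [indicator_of_mem hx', hR, mul_zero]
      exact (Real.sqrt_lt' (lt_of_le_of_lt (Real.sqrt_nonneg _) hx)).1 hx
    · rw [indicator_of_notMem hx']

/-- **Plancherel** -/
theorem PP_l2 (H : ℝ → ℝ → ℂ) (hH : Measurable (Function.uncurry H)) (M R : ℝ)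
    (hM : ∀ s θ, ‖H s θ‖ ≤ M) (hR : ∀ s θ, R < s → H s θ = 0) (t : ℝ) :
    ∫⁻ ξ, ‖PP H t ξ‖ₑ ^ 2 = ENNReal.ofReal (8 * Real.pi ^ 2) *
      ∫⁻ θ in AA, ∫⁻ s in Ioi (0 : ℝ), ‖H s θ‖ₑ ^ 2 := by
  set f : ℂ → ℂ := fun x => fH H x * cexp (((-(t * ‖x‖ ^ 2) : ℝ) : ℂ) * I) with hf
  have hfm : Measurable f := (fH_meas H hH).mul (Continuous.measurable (by fun_prop))
  have hfn : ∀ x, ‖f x‖ = ‖fH H x‖ := fun x => by
    rw [hf]
    try simp only
    rw [norm_mul, Complex.norm_exp_ofReal_mul_I, mul_one]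
  have hlp : ∀ p : ℝ≥0∞, MemLp f p := fun p =>
    (fH_memLp H hH M R hM hR p).of_le hfm.aestronglyMeasurable
      (Eventually.of_forall fun x => (hfn x).le)
  have h1 : Integrable f := memLp_one_iff_integrable.1 (hlp 1)
  have h2 := hlp 2
  have hi : Integrable (fH H) := memLp_one_iff_integrable.1 (fH_memLp H hH M R hM hR 1)
  obtain ⟨hm, he⟩ := Pool.Agent.Helper390.Covario.plancherel h1 h2
  have e : ∀ ξ, PP H t ξ = (FourierTransform.fourier f) ((2 * Real.pi)⁻¹ • ξ) := by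
    intro ξ
    rw [PP_eq H hH hi, Real.fourier_eq']
    refine integral_congr_ae (Eventually.of_forall fun x => ?_)
    simp only [hf, smul_eq_mul]
    rw [inner_smul_right, mul_left_comm, ← Complex.exp_add, ← add_mul, ← Complex.ofReal_add,
      real_inner_comm]
    congr 3
    have := Real.pi_pos
    field_simp
    ring_nf
  have e0 : ∀ z : ℂ, ‖z‖ₑ ^ 2 = ENNReal.ofReal (‖z‖ ^ 2) := fun z => by
    rw [ENNReal.ofReal_pow (norm_nonneg _), ofReal_norm]
  have hint : Integrable (fun x => ‖(FourierTransform.fourier f) x‖ ^ 2) :=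
    (memLp_two_iff_integrable_sq_norm hm.aestronglyMeasurable).1 hm
  have hintf : Integrable (fun x => ‖f x‖ ^ 2) :=
    (memLp_two_iff_integrable_sq_norm h2.aestronglyMeasurable).1 h2
  have e1 : ∫⁻ x, ‖(FourierTransform.fourier f) x‖ₑ ^ 2 = ∫⁻ x, ‖f x‖ₑ ^ 2 := by
    simp_rw [e0]
    rw [← ofReal_integral_eq_lintegral_ofReal hint (ae_of_all _ fun _ => by positivity),
      ← ofReal_integral_eq_lintegral_ofReal hintf (ae_of_all _ fun _ => by positivity), he]
  have hFm : Measurable (FourierTransform.fourier f) := by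
    refine Continuous.measurable ?_
    exact VectorFourier.fourierIntegral_continuous Real.continuous_fourierChar continuous_inner h1
  have h3 := lint_smul (volume : Measure ℂ) (fun x => ‖(FourierTransform.fourier f) x‖ₑ ^ 2)
    (hFm.enorm.pow_const 2) ((2 * Real.pi)⁻¹) (by positivity)
  have h4 := fH_lint H hH 2 (by norm_num)
  have e5 : ∀ x, ‖f x‖ₑ ^ 2 = ‖fH H x‖ₑ ^ (2 : ℝ) := fun x => by
    rw [ENNReal.rpow_two, ← ofReal_norm, hfn, ofReal_norm]
  simp_rw [e]
  rw [h3, e1]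
  simp_rw [e5]
  rw [Complex.finrank_real_complex]
  simp only [ENNReal.rpow_two] at h4 ⊢
  have h6 : ∫⁻ x, ‖fH H x‖ₑ ^ 2 = 2 * ∫⁻ θ in AA, ∫⁻ s in Ioi (0 : ℝ), ‖H s θ‖ₑ ^ 2 := by
    have h7 : (2 : ℝ≥0∞) * ∫⁻ x, ‖fH H x‖ₑ ^ 2 = 2 * (2 * ∫⁻ θ in AA, ∫⁻ s in Ioi (0 : ℝ),
        ‖H s θ‖ₑ ^ 2) := by
      rw [h4]
      ring
    exact (ENNReal.mul_right_inj (by norm_num) (by norm_num)).1 h7
  rw [h6, ← mul_assoc]
  congr 1
  rw [show (2 : ℝ≥0∞) = ENNReal.ofReal 2 by norm_num, ← ENNReal.ofReal_mul (by positivity)]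
  congr 1
  rw [abs_of_pos (by positivity)]
  field_simp
  norm_num

end Run7.h783.RV
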