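import Mathlib
import Pool.Agent.Run7.h783.RV.Pol
set_option autoImplicit false

/-! # The cutoff -/

namespace Run7.h783.RV

open MeasureTheory Set Complex Filter Topology
open scoped ENNReal NNReal RealInnerProductSpace FourierTransform SchwartzMap ContDiff

/-- the centre of the cutoff -/
noncomputable def c0 : ℂ := ⟨7 / 10, 3 / 10⟩

/-- the cutoff -/
noncomputable def chi : ContDiffBump c0 := ⟨1 / 2, 5 / 8, by norm_num, by norm_num⟩

/-- the cutoff times the norm -/
noncomputable def psi (x : ℂ) : ℂ := ((‖x‖ * chi x : ℝ) : ℂ)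

theorem dist_c0 (r θ : ℝ) : dist (r • om θ) c0 ^ 2 =
    r ^ 2 - 2 * r * (7 / 10 * Real.cos θ + 3 / 10 * Real.sin θ) + 58 / 100 := by
  rw [Complex.dist_eq, ← Complex.normSq_eq_norm_sq, Complex.normSq_apply]
  unfold om c0
  simp
  nlinarith [Real.sin_sq_add_cos_sq θ]

theorem cs_bounds (θ : ℝ) (hθ : θ ∈ AA) :
    0 ≤ Real.sin θ ∧ Real.sin θ ≤ Real.cos θ ∧ 0 ≤ Real.cos θ := by
  have hpi := Real.pi_pos
  obtain ⟨h1, h2⟩ := hθ
  have h3 : 0 ≤ Real.sin θ := Real.sin_nonneg_of_nonneg_of_le_pi h1.le (by linarith)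
  have h4 : Real.sin θ ≤ Real.sin (Real.pi / 4) :=
    Real.sin_le_sin_of_le_of_le_pi_div_two (by linarith) (by linarith) h2.le
  have h5 : Real.cos (Real.pi / 4) ≤ Real.cos θ :=
    Real.cos_le_cos_of_nonneg_of_le_pi h1.le (by linarith) h2.le
  rw [Real.sin_pi_div_four] at h4
  rw [Real.cos_pi_div_four] at h5
  exact ⟨h3, h4.trans h5, by linarith [Real.sqrt_nonneg 2]⟩

theorem cs_lower (θ : ℝ) (hθ : θ ∈ AA) :
    7 / 10 ≤ 7 / 10 * Real.cos θ + 3 / 10 * Real.sin θ := by
  obtain ⟨h1, h2, h3⟩ := cs_bounds θ hθ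
  have h4 := Real.sin_sq_add_cos_sq θ
  have h5 : (7 / 10 : ℝ) ^ 2 ≤ (7 / 10 * Real.cos θ + 3 / 10 * Real.sin θ) ^ 2 := by
    nlinarith [mul_le_mul_of_nonneg_left h2 h1]
  exact (pow_le_pow_iff_left₀ (by norm_num) (by positivity) (by norm_num)).1 h5

theorem cs_upper (θ : ℝ) :
    7 / 10 * Real.cos θ + 3 / 10 * Real.sin θ ≤ 77 / 100 := by
  have h4 := Real.sin_sq_add_cos_sq θ
  have h5 : (7 / 10 * Real.cos θ + 3 / 10 * Real.sin θ) ^ 2 ≤ (77 / 100 : ℝ) ^ 2 := by
    nlinarith [sq_nonneg (3 / 10 * Real.cos θ - 7 / 10 * Real.sin θ)]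
  exact (abs_le_of_sq_le_sq' h5 (by norm_num)).2

theorem chi_one (r θ : ℝ) (hθ : θ ∈ AA) (h1 : 1 / 2 ≤ r) (h2 : r ≤ 1) : chi (r • om θ) = 1 := by
  refine chi.one_of_mem_closedBall ?_
  rw [Metric.mem_closedBall]
  have h3 := dist_c0 r θ
  have h4 := cs_lower θ hθ
  have h5 : dist (r • om θ) c0 ^ 2 ≤ (1 / 2 : ℝ) ^ 2 := by
    rw [h3]
    nlinarith [mul_le_mul_of_nonneg_left h4 (by linarith : (0 : ℝ) ≤ r)]
  exact (pow_le_pow_iff_left₀ dist_nonneg chi.rIn_pos.le (by norm_num)).1 h5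

theorem chi_zero (r θ : ℝ) (hθ : θ ∈ AA) (h : r ≤ 1 / 10 ∨ 3 / 2 ≤ r) : chi (r • om θ) = 0 := by
  refine chi.zero_of_le_dist ?_
  have h3 := dist_c0 r θ
  have h4 := cs_lower θ hθ
  have h6 := cs_upper θ
  have h5 : (5 / 8 : ℝ) ^ 2 ≤ dist (r • om θ) c0 ^ 2 := by
    rw [h3]
    rcases h with h | h
    · rcases le_or_gt r 0 with h0 | h0
      · nlinarith [mul_nonneg (neg_nonneg.2 h0) (by linarith : (0 : ℝ) ≤ 7 / 10 * Real.cos θ + 3 / 10 * Real.sin θ)]
      · nlinarith [mul_le_mul_of_nonneg_left h6 h0.le]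
    · nlinarith [mul_le_mul_of_nonneg_left h6 (by linarith : (0 : ℝ) ≤ r)]
  exact (pow_le_pow_iff_left₀ chi.rOut_pos.le dist_nonneg (by norm_num)).1 h5

theorem chi_near_zero : ∀ᶠ x in 𝓝 (0 : ℂ), chi x = 0 := by
  have h0 : (5 / 8 : ℝ) < dist (0 : ℂ) c0 := by
    have h := dist_c0 0 0
    rw [zero_smul] at h
    have h5 : (5 / 8 : ℝ) ^ 2 < dist (0 : ℂ) c0 ^ 2 := by
      rw [h]
      norm_num
    exact (pow_lt_pow_iff_left₀ (by norm_num) dist_nonneg (by norm_num)).1 h5
  have h1 : ∀ᶠ x in 𝓝 (0 : ℂ), (5 / 8 : ℝ) < dist x c0 :=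
    (continuous_id.dist continuous_const).continuousAt.eventually (lt_mem_nhds h0)
  filter_upwards [h1] with x hx
  exact chi.zero_of_le_dist hx.le

theorem psi_smooth : ContDiff ℝ ∞ psi := by
  unfold psi
  refine Complex.ofRealCLM.contDiff.comp ?_
  rw [contDiff_iff_contDiffAt]
  intro x
  by_cases hx : x = 0
  · subst hx
    refine (contDiffAt_const (c := (0 : ℝ))).congr_of_eventuallyEq ?_
    filter_upwards [chi_near_zero] with y hy
    change ‖y‖ * chi y = 0
    rw [hy, mul_zero]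
  · exact (contDiffAt_norm ℝ hx).mul chi.contDiffAt

theorem psi_supp : HasCompactSupport psi := by
  have h1 : HasCompactSupport (chi : ℂ → ℝ) := chi.hasCompactSupport
  refine h1.mono ?_
  intro x hx
  rw [Function.mem_support] at hx ⊢
  intro h
  apply hx
  unfold psi
  rw [h, mul_zero, Complex.ofReal_zero]

/-- as a Schwartz function -/
noncomputable def psiS : 𝓢(ℂ, ℂ) := psi_supp.toSchwartzMap psi_smooth

theorem psiS_apply (x : ℂ) : psiS x = psi x := rfl

theorem psi_zero (r θ : ℝ) (hθ : θ ∈ AA) (h : r ≤ 1 / 10 ∨ 3 / 2 ≤ r) : psi (r • om θ) = 0 := by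
  unfold psi
  rw [chi_zero r θ hθ h, mul_zero, Complex.ofReal_zero]

theorem psi_norm_le (x : ℂ) : ‖psi x‖ ≤ ‖x‖ := by
  unfold psi
  rw [Complex.norm_real, Real.norm_eq_abs, abs_mul, abs_norm, abs_of_nonneg chi.nonneg]
  exact mul_le_of_le_one_right (norm_nonneg _) chi.le_one

theorem psi_ray_cont (θ : ℝ) : Continuous fun r : ℝ => psi (r • om θ) :=
  psi_smooth.continuous.comp (continuous_id.smul continuous_const)

/-- the integral over a ray is over a bounded interval -/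
theorem ray_interval (g : ℝ → ℂ) (hg : ∀ r, r ≤ 1 / 10 ∨ 3 / 2 ≤ r → g r = 0) :
    ∫ r : ℝ, g r = ∫ r in (1 / 10)..(3 / 2), g r := by
  rw [intervalIntegral.integral_of_le (by norm_num), ← integral_indicator measurableSet_Ioc]
  congr 1
  funext r
  by_cases h : r ∈ Ioc (1 / 10 : ℝ) (3 / 2)
  · rw [indicator_of_mem h]
  · rw [indicator_of_notMem h]
    apply hg
    rw [mem_Ioc, not_and_or, not_lt, not_le] at h
    exact h.imp id le_of_lt

theorem psi_ray_int (θ : ℝ) (hθ : θ ∈ AA) : Integrable fun r : ℝ => psi (r • om θ) := by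
  refine (psi_ray_cont θ).integrable_of_hasCompactSupport ?_
  refine HasCompactSupport.intro (K := Icc (1 / 10) (3 / 2)) isCompact_Icc fun r hr => ?_
  apply psi_zero r θ hθ
  rw [mem_Icc, not_and_or, not_le, not_le] at hr
  exact hr.imp le_of_lt le_of_lt

/-- trivial bound -/
theorem ray_le (t : ℝ) (ξ : ℂ) (θ : ℝ) (hθ : θ ∈ AA) : ‖ray psi t ξ θ‖ ≤ 3 := by
  unfold ray
  rw [ray_interval _ (fun r hr => by rw [psi_zero r θ hθ hr, zero_mul])]
  have h := intervalIntegral.norm_integral_le_of_norm_le_const (a := 1 / 10) (b := 3 / 2)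
    (f := fun r : ℝ => psi (r • om θ) * cexp (((-(r * aa θ ξ + t * r ^ 2) : ℝ) : ℂ) * I))
    (C := 3 / 2) (fun r hr => by
      rw [uIoc_of_le (by norm_num)] at hr
      rw [norm_mul, Complex.norm_exp_ofReal_mul_I, mul_one]
      refine (psi_norm_le _).trans ?_
      rw [norm_r_om _ _ (by linarith [hr.1])]
      exact hr.2)
  refine h.trans ?_
  rw [abs_of_pos (by norm_num)]
  norm_num

theorem psi_deriv_bound : ∃ K : ℝ, 0 ≤ K ∧ ∀ x, ‖fderiv ℝ psi x‖ ≤ K := by
  have h1 : Continuous (fderiv ℝ psi) := psi_smooth.continuous_fderiv (by simp)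
  have h2 : HasCompactSupport (fderiv ℝ psi) := psi_supp.fderiv (𝕜 := ℝ)
  obtain ⟨K, hK⟩ := h1.bounded_above_of_compact_support h2
  exact ⟨K, (norm_nonneg _).trans (hK 0), hK⟩

/-- nonstationary phase -/
theorem ray_ns : ∃ K : ℝ, 0 ≤ K ∧ ∀ (t : ℝ) (ξ : ℂ) (θ : ℝ), t ≠ 0 → θ ∈ AA → ‖ξ‖ < |t| / 8 →
    ‖ray psi t ξ θ‖ ≤ K / |t| := by
  obtain ⟨K, hK0, hK⟩ := psi_deriv_bound
  refine ⟨(7 / 5) * (K / (3 / 40) + (3 / 2) * 2 / (3 / 40) ^ 2), by positivity, ?_⟩
  intro t ξ θ ht hθ hξ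
  have htp : 0 < |t| := abs_pos.2 ht
  set a := aa θ ξ with ha
  have haξ : |a| < |t| / 8 := by
    refine lt_of_le_of_lt ?_ hξ
    have := abs_real_inner_le_norm ξ ((1 : ℝ) • om θ)
    rw [inner_om, one_mul, one_smul, om_norm, mul_one] at this
    exact this
  have hden : ∀ r ∈ uIcc (1 / 10 : ℝ) (3 / 2), 3 / 40 * |t| ≤ |a + 2 * t * r| := by
    intro r hr
    rw [uIcc_of_le (by norm_num)] at hr
    have h1 : |2 * t * r| = 2 * |t| * r := by
      rw [abs_mul, abs_mul, abs_of_pos (by norm_num : (0 : ℝ) < 2), abs_of_nonneg (by linarith [hr.1] : (0 : ℝ) ≤ r)]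
    have h2 : |2 * t * r| ≤ |a + 2 * t * r| + |a| := by
      have := abs_sub (a + 2 * t * r) a
      rwa [add_sub_cancel_left] at this
    nlinarith [hr.1]
  have hden0 : ∀ r ∈ uIcc (1 / 10 : ℝ) (3 / 2), (a + 2 * t * r) ≠ 0 := by
    intro r hr h
    have := hden r hr
    rw [h, abs_zero] at this
    nlinarith
  set u : ℝ → ℂ := fun r => psi (r • om θ) / ((a + 2 * t * r : ℝ) : ℂ) with hu
  set u' : ℝ → ℂ := fun r => ((fderiv ℝ psi (r • om θ)) (om θ) * ((a + 2 * t * r : ℝ) : ℂ) -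
    psi (r • om θ) * ((2 * t : ℝ) : ℂ)) / ((a + 2 * t * r : ℝ) : ℂ) ^ 2 with hu'
  set v : ℝ → ℂ := fun r => cexp (((-(r * a + t * r ^ 2) : ℝ) : ℂ) * I) with hv
  set v' : ℝ → ℂ := fun r => v r * (((-(a + 2 * t * r) : ℝ) : ℂ) * I) with hv'
  have hud : ∀ r ∈ uIcc (1 / 10 : ℝ) (3 / 2), HasDerivAt u (u' r) r := by
    intro r hr
    have h1 : HasDerivAt (fun r : ℝ => psi (r • om θ)) ((fderiv ℝ psi (r • om θ)) (om θ)) r := by
      have h2 : HasFDerivAt psi (fderiv ℝ psi (r • om θ)) (r • om θ) :=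
        (psi_smooth.differentiable (by simp) _).hasFDerivAt
      have h3 : HasDerivAt (fun r : ℝ => r • om θ) (om θ) r := by
        simpa using (hasDerivAt_id r).smul_const (om θ)
      exact h2.comp_hasDerivAt r h3
    have h4 : HasDerivAt (fun r : ℝ => ((a + 2 * t * r : ℝ) : ℂ)) ((2 * t : ℝ) : ℂ) r := by
      have : HasDerivAt (fun r : ℝ => a + 2 * t * r) (2 * t) r := by
        simpa using ((hasDerivAt_id r).const_mul (2 * t)).const_add a
      exact this.ofReal_comp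
    exact h1.div h4 (by exact_mod_cast hden0 r hr)
  have hvd : ∀ r ∈ uIcc (1 / 10 : ℝ) (3 / 2), HasDerivAt v (v' r) r := by
    intro r _
    have h1 : HasDerivAt (fun r : ℝ => -(r * a + t * r ^ 2)) (-(a + 2 * t * r)) r := by
      have := (((hasDerivAt_id r).mul_const a).add ((hasDerivAt_pow 2 r).const_mul t)).neg
      refine this.congr_deriv ?_
      simp
      ring
    exact (h1.ofReal_comp.mul_const I).cexp
  have hfc : Continuous fun r : ℝ => (fderiv ℝ psi (r • om θ)) (om θ) := by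
    have h1 : Continuous (fderiv ℝ psi) := psi_smooth.continuous_fderiv (by simp)
    exact (h1.comp (continuous_id.smul continuous_const)).clm_apply continuous_const
  have huc : ContinuousOn u' (uIcc (1 / 10 : ℝ) (3 / 2)) := by
    rw [hu']
    refine ContinuousOn.div ?_ ?_ ?_
    · refine Continuous.continuousOn ?_
      have := psi_ray_cont θ
      fun_prop
    · exact Continuous.continuousOn (by fun_prop)
    · intro r hr
      exact pow_ne_zero 2 (by exact_mod_cast hden0 r hr)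
  have hvc : Continuous v := by rw [hv]; fun_prop
  have hvc' : Continuous v' := by rw [hv']; fun_prop
  have key := intervalIntegral.integral_mul_deriv_eq_deriv_mul hud hvd huc.intervalIntegrable
    (hvc'.intervalIntegrable _ _)
  have hu1 : u (1 / 10) = 0 := by
    rw [hu]
    simp only
    rw [psi_zero _ θ hθ (Or.inl le_rfl), zero_div]
  have hu2 : u (3 / 2) = 0 := by
    rw [hu]
    simp only
    rw [psi_zero _ θ hθ (Or.inr le_rfl), zero_div]
  rw [hu1, hu2, zero_mul, zero_mul, sub_zero, zero_sub] at key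
  have h5 : ray psi t ξ θ = I * ∫ r in (1 / 10)..(3 / 2), u r * v' r := by
    unfold ray
    rw [ray_interval _ (fun r hr => by rw [psi_zero r θ hθ hr, zero_mul]),
      ← intervalIntegral.integral_const_mul]
    refine intervalIntegral.integral_congr fun r hr => ?_
    simp only [hu, hv', hv]
    have h6 : ((a + 2 * t * r : ℝ) : ℂ) ≠ 0 := by exact_mod_cast hden0 r hr
    rw [← ha, div_mul_eq_mul_div, mul_div_assoc', eq_div_iff h6]
    push_cast
    ring_nf
    rw [Complex.I_sq]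
    ring
  rw [h5, key, norm_mul, Complex.norm_I, one_mul, norm_neg]
  have h7 := intervalIntegral.norm_integral_le_of_norm_le_const (a := 1 / 10) (b := 3 / 2)
    (f := fun r : ℝ => u' r * v r)
    (C := (K / (3 / 40) + (3 / 2) * 2 / (3 / 40) ^ 2) / |t|) (fun r hr => by
      have hr' : r ∈ uIcc (1 / 10 : ℝ) (3 / 2) := uIoc_subset_uIcc hr
      rw [uIoc_of_le (by norm_num)] at hr
      have hd := hden r hr'
      have hdp : 0 < |a + 2 * t * r| := lt_of_lt_of_le (by positivity) hd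
      rw [norm_mul, hv]
      simp only
      rw [Complex.norm_exp_ofReal_mul_I, mul_one, hu']
      simp only
      rw [norm_div, norm_pow, Complex.norm_real, Real.norm_eq_abs]
      have e1 : ‖(fderiv ℝ psi (r • om θ)) (om θ) * ((a + 2 * t * r : ℝ) : ℂ) -
          psi (r • om θ) * ((2 * t : ℝ) : ℂ)‖ ≤ K * |a + 2 * t * r| + 3 / 2 * (2 * |t|) := by
        refine (norm_sub_le _ _).trans ?_
        rw [norm_mul, norm_mul, Complex.norm_real, Complex.norm_real, Real.norm_eq_abs,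
          Real.norm_eq_abs, abs_mul 2 t, abs_of_pos (by norm_num : (0 : ℝ) < 2)]
        have e2 : ‖(fderiv ℝ psi (r • om θ)) (om θ)‖ ≤ K := by
          refine (ContinuousLinearMap.le_opNorm _ _).trans ?_
          rw [om_norm, mul_one]
          exact hK _
        have e3 : ‖psi (r • om θ)‖ ≤ 3 / 2 := by
          refine (psi_norm_le _).trans ?_
          rw [norm_r_om _ _ (by linarith [hr.1])]
          exact hr.2
        gcongr
      rw [div_le_iff₀ (by positivity)]
      refine e1.trans ?_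
      have hX : 1 ≤ |a + 2 * t * r| / (3 / 40 * |t|) := by
        rw [one_le_div (by positivity)]
        exact hd
      have e4 : K * |a + 2 * t * r| ≤ K / (3 / 40) / |t| * |a + 2 * t * r| ^ 2 := by
        calc K * |a + 2 * t * r| ≤ K * |a + 2 * t * r| * (|a + 2 * t * r| / (3 / 40 * |t|)) :=
              le_mul_of_one_le_right (by positivity) hX
          _ = _ := by
              field_simp
      have e5 : 3 / 2 * (2 * |t|) ≤ (3 / 2) * 2 / (3 / 40) ^ 2 / |t| * |a + 2 * t * r| ^ 2 := by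
        calc 3 / 2 * (2 * |t|) ≤ 3 / 2 * (2 * |t|) * (|a + 2 * t * r| / (3 / 40 * |t|)) ^ 2 :=
              le_mul_of_one_le_right (by positivity) (one_le_pow₀ hX)
          _ = _ := by
              field_simp
      calc K * |a + 2 * t * r| + 3 / 2 * (2 * |t|)
          ≤ K / (3 / 40) / |t| * |a + 2 * t * r| ^ 2 +
            (3 / 2) * 2 / (3 / 40) ^ 2 / |t| * |a + 2 * t * r| ^ 2 := add_le_add e4 e5
        _ = _ := by ring)
  refine h7.trans (le_of_eq ?_)
  rw [abs_of_pos (by norm_num : (0 : ℝ) < 3 / 2 - 1 / 10)]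
  ring

end Run7.h783.RV
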