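import Mathlib
import Pool.Agent.Run7.h783.RV.Bump
set_option autoImplicit false

/-! # The base estimate -/

namespace Run7.h783.RV

open MeasureTheory Set Complex Filter Topology
open scoped ENNReal NNReal RealInnerProductSpace FourierTransform SchwartzMap

/-- Jensen's inequality with a weight -/
theorem jens {α : Type*} [MeasurableSpace α] (μ : Measure α) (W g : α → ℝ≥0∞)
    (hW : AEMeasurable W μ) (hg : AEMeasurable g μ) (q : ℝ) (hq : 1 < q) :
    (∫⁻ a, W a * g a ∂μ) ^ q ≤ (∫⁻ a, W a ∂μ) ^ (q - 1) * ∫⁻ a, W a * g a ^ q ∂μ := by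
  have hq0 : 0 < q := by linarith
  have hc : (q / (q - 1)).HolderConjugate q := by
    have := (Real.HolderConjugate.conjExponent hq).symm
    exact this
  have h := ENNReal.lintegral_mul_le_Lp_mul_Lq μ hc (hW.pow_const (1 - 1 / q))
    ((hW.pow_const (1 / q)).mul hg)
  have e1 : ∀ a, ((fun a => W a ^ (1 - 1 / q)) * fun a => ((fun a => W a ^ (1 / q)) * g) a) a =
      W a * g a := by
    intro a
    simp only [Pi.mul_apply]
    rw [← mul_assoc, ← ENNReal.rpow_add_of_nonneg _ _ (by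
      rw [sub_nonneg, div_le_one hq0]; exact hq.le) (by positivity), sub_add_cancel, ENNReal.rpow_one]
  have e2 : ∀ a, (W a ^ (1 - 1 / q)) ^ (q / (q - 1)) = W a := by
    intro a
    rw [← ENNReal.rpow_mul]
    have : (1 - 1 / q) * (q / (q - 1)) = 1 := by
      have : q - 1 ≠ 0 := by linarith
      field_simp
    rw [this, ENNReal.rpow_one]
  have e3 : ∀ a, (((fun a => W a ^ (1 / q)) * g) a) ^ q = W a * g a ^ q := by
    intro a
    simp only [Pi.mul_apply]
    rw [ENNReal.mul_rpow_of_nonneg _ _ hq0.le, ← ENNReal.rpow_mul, one_div, inv_mul_cancel₀ hq0.ne',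
      ENNReal.rpow_one]
  have h' : ∫⁻ a, W a * g a ∂μ ≤ (∫⁻ a, W a ∂μ) ^ (1 / (q / (q - 1))) *
      (∫⁻ a, W a * g a ^ q ∂μ) ^ (1 / q) := by
    refine le_trans (le_of_eq ?_) (h.trans (le_of_eq ?_))
    · exact lintegral_congr fun a => (e1 a).symm
    · rw [lintegral_congr e2, lintegral_congr e3]
  refine (ENNReal.rpow_le_rpow h' hq0.le).trans (le_of_eq ?_)
  rw [ENNReal.mul_rpow_of_nonneg _ _ hq0.le, ← ENNReal.rpow_mul, ← ENNReal.rpow_mul]
  have e4 : 1 / (q / (q - 1)) * q = q - 1 := by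
    field_simp
  have e5 : 1 / q * q = 1 := by field_simp
  rw [e4, e5, ENNReal.rpow_one]

theorem young (W Z : ℂ → ℝ≥0∞) (hW : Measurable W) (hZ : Measurable Z) (q : ℝ) (hq : 1 < q) (c : ℝ) :
    ∫⁻ ξ, (∫⁻ v, W v * Z (ξ - c • v)) ^ q ≤ (∫⁻ v, W v) ^ q * ∫⁻ ξ, Z ξ ^ q := by
  have hm : Measurable fun p : ℂ × ℂ => W p.2 * Z (p.1 - c • p.2) ^ q :=
    (hW.comp measurable_snd).mul ((hZ.comp (measurable_fst.sub (measurable_snd.const_smul c))).pow_const q)
  calc ∫⁻ ξ, (∫⁻ v, W v * Z (ξ - c • v)) ^ q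
      ≤ ∫⁻ ξ, (∫⁻ v, W v) ^ (q - 1) * ∫⁻ v, W v * Z (ξ - c • v) ^ q := by
        refine lintegral_mono fun ξ => ?_
        exact jens volume W (fun v => Z (ξ - c • v)) hW.aemeasurable
          (hZ.comp (measurable_const.sub (measurable_id.const_smul c))).aemeasurable q hq
    _ = (∫⁻ v, W v) ^ (q - 1) * ∫⁻ v, ∫⁻ ξ, W v * Z (ξ - c • v) ^ q := by
        rw [lintegral_const_mul _ hm.lintegral_prod_right', lintegral_lintegral_swap hm.aemeasurable]
    _ = (∫⁻ v, W v) ^ (q - 1) * ∫⁻ v, W v * ∫⁻ ξ, Z ξ ^ q := by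
        congr 1
        refine lintegral_congr fun v => ?_
        have hz : Measurable fun ξ : ℂ => Z (ξ - c • v) ^ q :=
          (hZ.comp (measurable_id.sub_const (c • v))).pow_const q
        rw [lintegral_const_mul _ hz]
        congr 1
        exact lintegral_sub_right_eq_self (fun ξ => Z ξ ^ q) (c • v)
    _ = _ := by
        rw [lintegral_mul_const _ hW, ← mul_assoc]
        congr 1
        nth_rewrite 2 [← ENNReal.rpow_one (∫⁻ v, W v)]
        rw [← ENNReal.rpow_add_of_nonneg _ _ (by linarith) (by norm_num), sub_add_cancel]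

/-- the weight -/
noncomputable def WW (v : ℂ) : ℝ≥0∞ := ‖(𝓕 psiS) v‖ₑ

theorem WW_meas : Measurable WW := ((𝓕 psiS).continuous.measurable).enorm

theorem WW_fin : ∫⁻ v, WW v ≠ ∞ := (𝓕 psiS).integrable.2.ne

/-- the tail -/
theorem tail (q : ℝ) (hq : 1 < q) :
    ∫⁻ ξ : ℂ, (∫⁻ v, WW v * {v : ℂ | ‖ξ‖ ≤ 4 * Real.pi * ‖v‖}.indicator 1 v) ^ q ≠ ∞ := by
  have hm0 : MeasurableSet {p : ℂ × ℂ | ‖p.1‖ ≤ 4 * Real.pi * ‖p.2‖} :=
    measurableSet_le (by fun_prop) (by fun_prop)
  have hm : Measurable fun p : ℂ × ℂ => WW p.2 * ({v : ℂ | ‖p.1‖ ≤ 4 * Real.pi * ‖v‖}.indicator 1 p.2) ^ q := by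
    refine (WW_meas.comp measurable_snd).mul (Measurable.pow_const ?_ q)
    exact (measurable_one.indicator hm0 : Measurable ({p : ℂ × ℂ | ‖p.1‖ ≤ 4 * Real.pi * ‖p.2‖}.indicator (1 : ℂ × ℂ → ℝ≥0∞)))
  have hb : ∫⁻ ξ : ℂ, (∫⁻ v, WW v * {v : ℂ | ‖ξ‖ ≤ 4 * Real.pi * ‖v‖}.indicator 1 v) ^ q ≤
      (∫⁻ v, WW v) ^ (q - 1) * ∫⁻ v, WW v * (ENNReal.ofReal (4 * Real.pi * ‖v‖) ^ 2 * NNReal.pi) := by
    calc _ ≤ ∫⁻ ξ : ℂ, (∫⁻ v, WW v) ^ (q - 1) *
          ∫⁻ v, WW v * ({v : ℂ | ‖ξ‖ ≤ 4 * Real.pi * ‖v‖}.indicator 1 v) ^ q := by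
          refine lintegral_mono fun ξ => ?_
          refine jens volume WW _ WW_meas.aemeasurable ?_ q hq
          exact (measurable_one.indicator (measurableSet_le (by fun_prop) (by fun_prop))).aemeasurable
      _ = (∫⁻ v, WW v) ^ (q - 1) * ∫⁻ v, ∫⁻ ξ : ℂ, WW v * ({v : ℂ | ‖ξ‖ ≤ 4 * Real.pi * ‖v‖}.indicator 1 v) ^ q := by
          rw [lintegral_const_mul _ hm.lintegral_prod_right', lintegral_lintegral_swap hm.aemeasurable]
      _ ≤ _ := by
          gcongr with v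
          rw [lintegral_const_mul]
          · gcongr
            calc ∫⁻ ξ : ℂ, ({v : ℂ | ‖ξ‖ ≤ 4 * Real.pi * ‖v‖}.indicator 1 v : ℝ≥0∞) ^ q
                = ∫⁻ ξ : ℂ, (Metric.closedBall (0 : ℂ) (4 * Real.pi * ‖v‖)).indicator 1 ξ := by
                  refine lintegral_congr fun ξ => ?_
                  by_cases h : ‖ξ‖ ≤ 4 * Real.pi * ‖v‖
                  · rw [indicator_of_mem (by exact h), indicator_of_mem (by simpa using h)]
                    simp
                  · rw [indicator_of_notMem (by exact h), indicator_of_notMem (by simpa using h),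
                      ENNReal.zero_rpow_of_pos (by linarith)]
              _ ≤ _ := by
                  rw [lintegral_indicator_one Metric.isClosed_closedBall.measurableSet,
                    Complex.volume_closedBall]
          · refine Measurable.pow_const ?_ q
            have : Measurable fun ξ : ℂ => ({p : ℂ × ℂ | ‖p.1‖ ≤ 4 * Real.pi * ‖p.2‖}.indicator (1 : ℂ × ℂ → ℝ≥0∞)) (ξ, v) :=
              (measurable_one.indicator hm0).comp (measurable_id.prodMk measurable_const)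
            exact this
  refine ne_top_of_le_ne_top ?_ hb
  refine ENNReal.mul_ne_top (ENNReal.rpow_ne_top_of_nonneg (by linarith) WW_fin) ?_
  have h1 : Integrable fun v : ℂ => ‖v‖ ^ 2 * ‖(𝓕 psiS) v‖ := (𝓕 psiS).integrable_pow_mul volume 2
  have h2 : ∫⁻ v : ℂ, WW v * (ENNReal.ofReal (4 * Real.pi * ‖v‖) ^ 2 * NNReal.pi) =
      (ENNReal.ofReal ((4 * Real.pi) ^ 2) * NNReal.pi) * ∫⁻ v, ‖‖v‖ ^ 2 * ‖(𝓕 psiS) v‖‖ₑ := by
    rw [← lintegral_const_mul' _ _ (ENNReal.mul_ne_top ENNReal.ofReal_ne_top ENNReal.coe_ne_top)]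
    refine lintegral_congr fun v => ?_
    unfold WW
    rw [enorm_mul, enorm_norm, Real.enorm_eq_ofReal (by positivity : 0 ≤ ‖v‖ ^ 2),
      ← ENNReal.ofReal_pow (by positivity), mul_pow, ENNReal.ofReal_mul (by positivity)]
    ring
  rw [h2]
  exact ENNReal.mul_ne_top (ENNReal.mul_ne_top ENNReal.ofReal_ne_top ENNReal.coe_ne_top) h1.2.ne

/-- the base function -/
noncomputable def Hb (b : ℝ → ℂ) (s θ : ℝ) : ℂ := ((chi (√s • om θ) : ℝ) : ℂ) * b θ

theorem Hb_meas (b : ℝ → ℂ) (hb : Measurable b) : Measurable (Function.uncurry (Hb b)) := by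
  unfold Hb Function.uncurry
  refine Measurable.mul ?_ (hb.comp measurable_snd)
  refine Complex.measurable_ofReal.comp ?_
  refine (chi.continuous.comp ?_).measurable
  exact (Real.continuous_sqrt.comp continuous_fst).smul (om_cont.comp continuous_snd)

theorem Hb_norm (b : ℝ → ℂ) (s θ : ℝ) : ‖Hb b s θ‖ ≤ ‖b θ‖ := by
  unfold Hb
  rw [norm_mul, Complex.norm_real, Real.norm_of_nonneg chi.nonneg]
  exact mul_le_of_le_one_left (norm_nonneg _) chi.le_one

theorem Hb_zero (b : ℝ → ℂ) (s θ : ℝ) (hs : 9 / 4 < s) : Hb b s θ = 0 := by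
  unfold Hb
  have h1 : (3 / 2 : ℝ) ≤ √s := by
    rw [show (3 / 2 : ℝ) = √(9 / 4) by
      rw [show (9 / 4 : ℝ) = (3 / 2) ^ 2 by norm_num, Real.sqrt_sq (by norm_num)]]
    exact Real.sqrt_le_sqrt hs.le
  have h2 : chi (√s • om θ) = 0 := by
    refine chi.zero_of_le_dist ?_
    have h3 := dist_c0 √s θ
    have h6 := cs_upper θ
    have h5 : (5 / 8 : ℝ) ^ 2 ≤ dist (√s • om θ) c0 ^ 2 := by
      rw [h3]
      nlinarith [mul_le_mul_of_nonneg_left h6 (by linarith : (0 : ℝ) ≤ √s)]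
    exact (pow_le_pow_iff_left₀ chi.rOut_pos.le dist_nonneg (by norm_num)).1 h5
  rw [h2, Complex.ofReal_zero, zero_mul]

theorem PP_Hb (b : ℝ → ℂ) (t : ℝ) (ξ : ℂ) :
    PP (Hb b) t ξ = 2 * ∫ θ in AA, b θ * ray psi t ξ θ := by
  unfold PP
  rw [← integral_const_mul]
  refine setIntegral_congr_fun AA_meas fun θ hθ => ?_
  try simp only
  rw [sub_sq]
  have h1 : ray psi t ξ θ = ∫ r in Ioi (0 : ℝ), psi (r • om θ) *
      cexp (((-(r * aa θ ξ + t * r ^ 2) : ℝ) : ℂ) * I) := by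
    unfold ray
    rw [← integral_indicator measurableSet_Ioi]
    congr 1
    funext r
    by_cases h : r ∈ Ioi (0 : ℝ)
    · rw [indicator_of_mem h]
    · rw [indicator_of_notMem h, psi_zero r θ hθ (Or.inl (by
        have : r ≤ 0 := not_lt.1 h
        linarith)), zero_mul]
  rw [h1, ← integral_const_mul, ← integral_const_mul]
  refine setIntegral_congr_fun measurableSet_Ioi fun r hr => ?_
  have hr0 : (0 : ℝ) < r := hr
  try simp only
  unfold Hb psi
  rw [Real.sqrt_sq hr0.le, norm_r_om _ _ hr0.le]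
  push_cast
  ring

/-- the Fresnel representation gives a bound -/
theorem Bs_le (b : ℝ → ℂ) (hb : Measurable b) (M : ℝ) (hM : ∀ θ, ‖b θ‖ ≤ M) (t : ℝ) (ht : t ≠ 0)
    (ξ : ℂ) : ‖∫ θ in AA, b θ * ray psi t ξ θ‖ₑ ≤ ENNReal.ofReal ((Real.pi / |t|) ^ (1 / 2 : ℝ)) *
      ∫⁻ v, WW v * ‖Y b t (ξ - (2 * Real.pi) • v)‖ₑ := by
  set G : ℝ → ℂ → ℂ := fun θ v => b θ * ((𝓕 psiS) v *
      cexp ((((aa θ (ξ - (2 * Real.pi) • v)) ^ 2 / (4 * t) : ℝ) : ℂ) * I)) with hG
  have hAAf : volume AA ≠ ∞ := by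
    unfold AA
    rw [Real.volume_Ioo]
    exact ENNReal.ofReal_ne_top
  have hbi : Integrable b (volume.restrict AA) :=
    Measure.integrableOn_of_bounded (M := M) hAAf hb.aestronglyMeasurable
      (Eventually.of_forall fun θ => hM θ)
  have hint : Integrable (Function.uncurry G) ((volume.restrict AA).prod (volume : Measure ℂ)) := by
    have h1 : Integrable (fun p : ℝ × ℂ => ‖b p.1‖ * ‖(𝓕 psiS) p.2‖)
        ((volume.restrict AA).prod (volume : Measure ℂ)) :=
      hbi.norm.mul_prod (𝓕 psiS).integrable.norm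
    refine h1.mono' ?_ (Eventually.of_forall fun p => ?_)
    · refine Measurable.aestronglyMeasurable ?_
      rw [hG]
      unfold Function.uncurry
      refine (hb.comp measurable_fst).mul (((𝓕 psiS).continuous.measurable.comp measurable_snd).mul ?_)
      refine Continuous.measurable ?_
      unfold aa
      fun_prop
    · rw [hG]
      simp only [Function.uncurry]
      rw [norm_mul, norm_mul, Complex.norm_exp_ofReal_mul_I, mul_one]
  have h1 : ∫ θ in AA, b θ * ray psi t ξ θ = ((Real.pi : ℂ) / (t * I)) ^ (1 / 2 : ℂ) *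
      ∫ v, (𝓕 psiS) v * Y b t (ξ - (2 * Real.pi) • v) := by
    calc ∫ θ in AA, b θ * ray psi t ξ θ
        = ∫ θ in AA, ((Real.pi : ℂ) / (t * I)) ^ (1 / 2 : ℂ) * ∫ v, G θ v := by
          refine setIntegral_congr_fun AA_meas fun θ hθ => ?_
          have h2 := fres psiS t ht ξ θ (psi_ray_int θ hθ)
          have h3 : ray (fun x => psiS x) t ξ θ = ray psi t ξ θ := rfl
          rw [h3] at h2
          try simp only
          rw [h2, hG]
          try simp only
          rw [integral_const_mul]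
          ring
      _ = ((Real.pi : ℂ) / (t * I)) ^ (1 / 2 : ℂ) * ∫ v, ∫ θ in AA, G θ v := by
          rw [integral_const_mul, integral_integral_swap hint]
      _ = _ := by
          congr 1
          refine integral_congr_ae (Eventually.of_forall fun v => ?_)
          simp only [hG]
          unfold Y
          rw [← integral_const_mul]
          refine integral_congr_ae (Eventually.of_forall fun θ => ?_)
          try simp only
          ring
  rw [h1, enorm_mul]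
  have e1 : ‖((Real.pi : ℂ) / (t * I)) ^ (1 / 2 : ℂ)‖ₑ = ENNReal.ofReal ((Real.pi / |t|) ^ (1 / 2 : ℝ)) := by
    rw [← ofReal_norm]
    congr 1
    have := Complex.norm_cpow_real ((Real.pi : ℂ) / (t * I)) (1 / 2)
    push_cast at this
    rw [this]
    congr 1
    rw [norm_div, norm_mul, Complex.norm_I, Complex.norm_real, Complex.norm_real, mul_one,
      Real.norm_of_nonneg Real.pi_pos.le, Real.norm_eq_abs]
  rw [e1]
  gcongr
  refine (enorm_integral_le_lintegral_enorm _).trans (le_of_eq ?_)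
  refine lintegral_congr fun v => ?_
  rw [enorm_mul]
  rfl

theorem Bs_sup (b : ℝ → ℂ) (t : ℝ) (ξ : ℂ) (K : ℝ) (hK : ∀ θ ∈ AA, ‖ray psi t ξ θ‖ ≤ K) :
    ‖∫ θ in AA, b θ * ray psi t ξ θ‖ₑ ≤ ENNReal.ofReal K * ∫⁻ θ in AA, ‖b θ‖ₑ := by
  refine (enorm_integral_le_lintegral_enorm _).trans ?_
  rw [← lintegral_const_mul' _ _ ENNReal.ofReal_ne_top]
  refine setLIntegral_mono' AA_meas fun θ hθ => ?_
  rw [enorm_mul, mul_comm]
  gcongr
  rw [← ofReal_norm]
  exact ENNReal.ofReal_le_ofReal (hK θ hθ)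

theorem AA_vol : volume AA ≤ 1 := by
  unfold AA
  rw [Real.volume_Ioo, ← ENNReal.ofReal_one]
  refine ENNReal.ofReal_le_ofReal ?_
  have := Real.pi_lt_four
  linarith

/-- norms on the arc -/
theorem arc_norm (g : ℝ → ℝ≥0∞) (hg : Measurable g) (q : ℝ) (hq : 1 < q) :
    ∫⁻ θ in AA, g θ ≤ (∫⁻ θ in AA, g θ ^ q) ^ (1 / q) := by
  have h := jens (volume.restrict AA) (fun _ => 1) g aemeasurable_const hg.aemeasurable q hq
  simp only [one_mul, lintegral_one, Measure.restrict_apply_univ] at h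
  have h2 : (∫⁻ θ in AA, g θ) ^ q ≤ ∫⁻ θ in AA, g θ ^ q := by
    refine h.trans ?_
    refine mul_le_of_le_one_left zero_le ?_
    exact ENNReal.rpow_le_one AA_vol (by linarith)
  have h3 := ENNReal.rpow_le_rpow h2 (by positivity : (0 : ℝ) ≤ 1 / q)
  rwa [← ENNReal.rpow_mul, mul_one_div_cancel (by linarith), ENNReal.rpow_one] at h3

end Run7.h783.RV
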