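import Mathlib
import Pool.Agent.Run7.h783.RV.Base
set_option autoImplicit false

/-! # The base estimate, conclusion -/

namespace Run7.h783.RV

open MeasureTheory Set Complex Filter Topology
open scoped ENNReal NNReal RealInnerProductSpace

theorem arc1 (b : ℝ → ℂ) (hb : Measurable b) :
    ∫⁻ θ in AA, ‖b θ‖ₑ ≤ (∫⁻ θ in AA, ‖b θ‖ₑ ^ 4) ^ (1 / 4 : ℝ) := by
  have h := arc_norm (fun θ => ‖b θ‖ₑ) hb.enorm 4 (by norm_num)
  refine h.trans (le_of_eq ?_)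
  congr 1
  refine lintegral_congr fun θ => ?_
  exact_mod_cast ENNReal.rpow_natCast (‖b θ‖ₑ) 4

theorem arc2 (b : ℝ → ℂ) (hb : Measurable b) :
    ∫⁻ θ in AA, ‖b θ‖ₑ ^ 2 ≤ (∫⁻ θ in AA, ‖b θ‖ₑ ^ 4) ^ (1 / 2 : ℝ) := by
  have h := arc_norm (fun θ => ‖b θ‖ₑ ^ 2) (hb.enorm.pow_const 2) 2 (by norm_num)
  refine h.trans (le_of_eq ?_)
  congr 1
  refine lintegral_congr fun θ => ?_
  rw [ENNReal.rpow_two, ← pow_mul]

/-- from the supremum and the square integral -/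
theorem sup_sq {α : Type*} [MeasurableSpace α] (μ : Measure α) (f : α → ℝ≥0∞) (A : ℝ≥0∞)
    (hA : ∀ x, f x ≤ A) (q : ℝ) (hq : 2 ≤ q) (hAt : A ≠ ∞) :
    ∫⁻ x, f x ^ q ∂μ ≤ A ^ (q - 2) * ∫⁻ x, f x ^ 2 ∂μ := by
  rw [← lintegral_const_mul' _ _ (ENNReal.rpow_ne_top_of_nonneg (by linarith) hAt)]
  refine lintegral_mono fun x => ?_
  calc f x ^ q = f x ^ (q - 2) * f x ^ 2 := by
        rw [← ENNReal.rpow_two, ← ENNReal.rpow_add_of_nonneg _ _ (by linarith) (by norm_num),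
          sub_add_cancel]
    _ ≤ _ := by
        gcongr
        exact hA x

theorem base_small (q : ℝ) (hq : 4 < q) : ∃ C : ℝ≥0∞, C ≠ ∞ ∧ ∀ b : ℝ → ℂ, Measurable b →
    (∃ M : ℝ, ∀ z, ‖b z‖ ≤ M) → ∀ t : ℝ,
    ∫⁻ ξ, ‖PP (Hb b) t ξ‖ₑ ^ q ≤ C * (∫⁻ θ in AA, ‖b θ‖ₑ ^ 4) ^ (q / 4) := by
  refine ⟨6 ^ (q - 2) * (ENNReal.ofReal (8 * Real.pi ^ 2) * ENNReal.ofReal (9 / 4)), ?_, ?_⟩
  · exact ENNReal.mul_ne_top (ENNReal.rpow_ne_top_of_nonneg (by linarith) (by norm_num))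
      (ENNReal.mul_ne_top ENNReal.ofReal_ne_top ENNReal.ofReal_ne_top)
  intro b hb ⟨M, hM⟩ t
  set D := ∫⁻ θ in AA, ‖b θ‖ₑ ^ 4 with hD
  have hDt : D ≠ ∞ := by
    have h1 : D ≤ ∫⁻ θ in AA, ENNReal.ofReal M ^ 4 := by
      refine lintegral_mono fun θ => ?_
      gcongr
      rw [← ofReal_norm]
      exact ENNReal.ofReal_le_ofReal (hM θ)
    refine ne_top_of_le_ne_top ?_ h1
    rw [lintegral_const, Measure.restrict_apply_univ]
    exact ENNReal.mul_ne_top (ENNReal.pow_ne_top ENNReal.ofReal_ne_top)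
      (ne_top_of_le_ne_top ENNReal.one_ne_top AA_vol)
  have h1 : ∀ ξ, ‖PP (Hb b) t ξ‖ₑ ≤ 6 * D ^ (1 / 4 : ℝ) := by
    intro ξ
    rw [PP_Hb, enorm_mul]
    have h2 := Bs_sup b t ξ 3 (fun θ hθ => ray_le t ξ θ hθ)
    calc ‖(2 : ℂ)‖ₑ * ‖∫ θ in AA, b θ * ray psi t ξ θ‖ₑ
        ≤ 2 * (ENNReal.ofReal 3 * ∫⁻ θ in AA, ‖b θ‖ₑ) := by
          gcongr
          rw [← ofReal_norm]
          norm_num
      _ ≤ 2 * (3 * D ^ (1 / 4 : ℝ)) := by
          gcongr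
          · norm_num
          · exact arc1 b hb
      _ = _ := by
          rw [← mul_assoc]
          norm_num
  have h2 := sup_sq volume (fun ξ => ‖PP (Hb b) t ξ‖ₑ) _ h1 q (by linarith)
    (ENNReal.mul_ne_top (by norm_num) (ENNReal.rpow_ne_top_of_nonneg (by norm_num) hDt))
  refine h2.trans ?_
  have h3 := PP_l2 (Hb b) (Hb_meas b hb) M (9 / 4) (fun s θ => (Hb_norm b s θ).trans (hM θ))
    (fun s θ hs => Hb_zero b s θ hs) t
  rw [h3]
  have h4 : ∫⁻ θ in AA, ∫⁻ s in Ioi (0 : ℝ), ‖Hb b s θ‖ₑ ^ 2 ≤ ENNReal.ofReal (9 / 4) * D ^ (1 / 2 : ℝ) := by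
    calc ∫⁻ θ in AA, ∫⁻ s in Ioi (0 : ℝ), ‖Hb b s θ‖ₑ ^ 2
        ≤ ∫⁻ θ in AA, ENNReal.ofReal (9 / 4) * ‖b θ‖ₑ ^ 2 := by
          refine lintegral_mono fun θ => ?_
          have h5 : ∀ s ∈ Ioi (0 : ℝ), ‖Hb b s θ‖ₑ ^ 2 ≤ (Ioc (0 : ℝ) (9 / 4)).indicator (fun _ => ‖b θ‖ₑ ^ 2) s := by
            intro s hs
            by_cases h : s ≤ 9 / 4
            · rw [indicator_of_mem (show s ∈ Ioc (0 : ℝ) (9 / 4) from ⟨hs, h⟩)]
              gcongr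
              rw [← ofReal_norm, ← ofReal_norm]
              exact ENNReal.ofReal_le_ofReal (Hb_norm b s θ)
            · rw [Hb_zero b s θ (not_le.1 h)]
              simp
          refine (setLIntegral_mono' measurableSet_Ioi h5).trans ?_
          refine (setLIntegral_le_lintegral _ _).trans ?_
          rw [lintegral_indicator_const measurableSet_Ioc, Real.volume_Ioc, mul_comm, sub_zero]
      _ ≤ _ := by
          rw [lintegral_const_mul' _ _ ENNReal.ofReal_ne_top]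
          gcongr
          exact arc2 b hb
  calc (6 * D ^ (1 / 4 : ℝ)) ^ (q - 2) * (ENNReal.ofReal (8 * Real.pi ^ 2) *
        ∫⁻ θ in AA, ∫⁻ s in Ioi (0 : ℝ), ‖Hb b s θ‖ₑ ^ 2)
      ≤ (6 * D ^ (1 / 4 : ℝ)) ^ (q - 2) * (ENNReal.ofReal (8 * Real.pi ^ 2) *
        (ENNReal.ofReal (9 / 4) * D ^ (1 / 2 : ℝ))) := by gcongr
    _ = 6 ^ (q - 2) * (ENNReal.ofReal (8 * Real.pi ^ 2) * ENNReal.ofReal (9 / 4)) *
        (D ^ ((1 / 4 : ℝ) * (q - 2)) * D ^ (1 / 2 : ℝ)) := by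
        rw [ENNReal.mul_rpow_of_nonneg _ _ (by linarith), ← ENNReal.rpow_mul]
        ring
    _ = _ := by
        rw [← ENNReal.rpow_add_of_nonneg _ _ (by nlinarith) (by norm_num)]
        congr 2
        ring

theorem base_large (q : ℝ) (hq : 4 < q) : ∃ C : ℝ≥0∞, C ≠ ∞ ∧ ∀ b : ℝ → ℂ, Measurable b →
    (∃ M : ℝ, ∀ z, ‖b z‖ ≤ M) → ∀ t : ℝ, 1 ≤ |t| →
    ∫⁻ ξ, ‖∫ θ in AA, b θ * ray psi t ξ θ‖ₑ ^ q ≤
      C * ENNReal.ofReal (|t| ^ (-(q / 2))) * (∫⁻ θ in AA, ‖b θ‖ₑ ^ 4) ^ (q / 4) := by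
  obtain ⟨K, hK0, hK⟩ := ray_ns
  obtain ⟨C1, hC1⟩ := Y_est q hq
  set T := ∫⁻ ξ : ℂ, (∫⁻ v, WW v * {v : ℂ | ‖ξ‖ ≤ 4 * Real.pi * ‖v‖}.indicator 1 v) ^ q with hT
  have hTt : T ≠ ∞ := tail q (by linarith)
  set CS : ℝ≥0∞ := ENNReal.ofReal (K ^ q) * (ENNReal.ofReal (1 / 64) * NNReal.pi) with hCS
  set CL : ℝ≥0∞ := ENNReal.ofReal (Real.pi ^ (q / 2)) * (2 ^ (q - 1) * ((∫⁻ v, WW v) ^ q *
    (ENNReal.ofReal 256 * C1) + T)) with hCL
  refine ⟨CS + CL, ?_, ?_⟩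
  · refine ENNReal.add_ne_top.2 ⟨?_, ?_⟩
    · exact ENNReal.mul_ne_top ENNReal.ofReal_ne_top (ENNReal.mul_ne_top ENNReal.ofReal_ne_top
        ENNReal.coe_ne_top)
    · have h3 : (∫⁻ v, WW v) ^ q * (ENNReal.ofReal 256 * C1) + T ≠ ∞ :=
        ENNReal.add_ne_top.2 ⟨ENNReal.mul_ne_top (ENNReal.rpow_ne_top_of_nonneg (by linarith) WW_fin)
          (ENNReal.mul_ne_top ENNReal.ofReal_ne_top ENNReal.coe_ne_top), hTt⟩
      exact ENNReal.mul_ne_top ENNReal.ofReal_ne_top (ENNReal.mul_ne_top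
        (ENNReal.rpow_ne_top_of_nonneg (by linarith) (by norm_num)) h3)
  intro b hb hbM t ht
  obtain ⟨M, hM⟩ := hbM
  have ht0 : t ≠ 0 := by
    rintro rfl
    rw [abs_zero] at ht
    linarith
  have htp : 0 < |t| := abs_pos.2 ht0
  set D := ∫⁻ θ in AA, ‖b θ‖ₑ ^ 4 with hD
  set N := ∫⁻ θ in AA, ‖b θ‖ₑ with hN
  have hND : N ^ q ≤ D ^ (q / 4) := by
    have h1 := ENNReal.rpow_le_rpow (arc1 b hb) (by linarith : (0 : ℝ) ≤ q)
    rw [← ENNReal.rpow_mul] at h1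
    refine h1.trans (le_of_eq ?_)
    congr 1
    ring
  set F : ℂ → ℝ≥0∞ := fun ξ => ‖∫ θ in AA, b θ * ray psi t ξ θ‖ₑ ^ q with hF
  have hms : MeasurableSet {ξ : ℂ | |t| / 8 ≤ ‖ξ‖} := measurableSet_le measurable_const measurable_norm
  have hsmall : ∫⁻ ξ in {ξ : ℂ | |t| / 8 ≤ ‖ξ‖}ᶜ, F ξ ≤
      CS * ENNReal.ofReal (|t| ^ (-(q / 2))) * D ^ (q / 4) := by
    have h1 : ∀ ξ ∈ {ξ : ℂ | |t| / 8 ≤ ‖ξ‖}ᶜ, F ξ ≤ ENNReal.ofReal ((K / |t|) ^ q) * D ^ (q / 4) := by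
      intro ξ hξ
      have hξ' : ‖ξ‖ < |t| / 8 := not_le.1 hξ
      have h2 := Bs_sup b t ξ (K / |t|) (fun θ hθ => hK t ξ θ ht0 hθ hξ')
      rw [hF]
      simp only
      refine (ENNReal.rpow_le_rpow h2 (by linarith : (0 : ℝ) ≤ q)).trans ?_
      rw [ENNReal.mul_rpow_of_nonneg _ _ (by linarith), ENNReal.ofReal_rpow_of_nonneg (by positivity)
        (by linarith)]
      gcongr
    refine (setLIntegral_mono' hms.compl h1).trans ?_
    rw [lintegral_const, Measure.restrict_apply_univ]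
    have h3 : volume {ξ : ℂ | |t| / 8 ≤ ‖ξ‖}ᶜ ≤ ENNReal.ofReal (|t| ^ 2 / 64) * NNReal.pi := by
      have h4 : {ξ : ℂ | |t| / 8 ≤ ‖ξ‖}ᶜ = Metric.ball 0 (|t| / 8) := by
        ext ξ
        simp
      rw [h4, Complex.volume_ball, ← ENNReal.ofReal_pow (by positivity), div_pow]
      norm_num
    have h5 : (K / |t|) ^ q * (|t| ^ 2 / 64) ≤ K ^ q * (1 / 64) * |t| ^ (-(q / 2)) := by
      rw [Real.div_rpow hK0 htp.le, div_eq_mul_inv, ← Real.rpow_neg htp.le, ← Real.rpow_two]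
      have h6 : |t| ^ (-q) * |t| ^ (2 : ℝ) ≤ |t| ^ (-(q / 2)) := by
        rw [← Real.rpow_add htp]
        exact Real.rpow_le_rpow_of_exponent_le ht (by linarith)
      calc K ^ q * |t| ^ (-q) * (|t| ^ (2 : ℝ) / 64) = K ^ q * (1 / 64) * (|t| ^ (-q) * |t| ^ (2 : ℝ)) := by
            ring
        _ ≤ _ := mul_le_mul_of_nonneg_left h6 (by positivity)
    calc ENNReal.ofReal ((K / |t|) ^ q) * D ^ (q / 4) * volume {ξ : ℂ | |t| / 8 ≤ ‖ξ‖}ᶜ
        ≤ ENNReal.ofReal ((K / |t|) ^ q) * D ^ (q / 4) * (ENNReal.ofReal (|t| ^ 2 / 64) * NNReal.pi) := by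
          gcongr
      _ = ENNReal.ofReal ((K / |t|) ^ q * (|t| ^ 2 / 64)) * NNReal.pi * D ^ (q / 4) := by
          rw [ENNReal.ofReal_mul (by positivity)]
          ring
      _ ≤ ENNReal.ofReal (K ^ q * (1 / 64) * |t| ^ (-(q / 2))) * NNReal.pi * D ^ (q / 4) := by
          gcongr
      _ = _ := by
          rw [ENNReal.ofReal_mul (by positivity), ENNReal.ofReal_mul (by positivity), hCS]
          ring
  have hlarge : ∫⁻ ξ in {ξ : ℂ | |t| / 8 ≤ ‖ξ‖}, F ξ ≤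
      CL * ENNReal.ofReal (|t| ^ (-(q / 2))) * D ^ (q / 4) := by
    set Z : ℂ → ℝ≥0∞ := {ξ : ℂ | |t| / 16 ≤ ‖ξ‖}.indicator (fun ξ => ‖Y b t ξ‖ₑ) with hZ
    have hms2 : MeasurableSet {ξ : ℂ | |t| / 16 ≤ ‖ξ‖} := measurableSet_le measurable_const measurable_norm
    have hZm : Measurable Z := (Y_meas b hb t).enorm.indicator hms2
    set A1 : ℂ → ℝ≥0∞ := fun ξ => ∫⁻ v, WW v * Z (ξ - (2 * Real.pi) • v) with hA1
    set A2 : ℂ → ℝ≥0∞ := fun ξ => ∫⁻ v, WW v * {v : ℂ | ‖ξ‖ ≤ 4 * Real.pi * ‖v‖}.indicator 1 v with hA2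
    have hA1m : Measurable A1 := by
      have : Measurable fun p : ℂ × ℂ => WW p.2 * Z (p.1 - (2 * Real.pi) • p.2) :=
        (WW_meas.comp measurable_snd).mul (hZm.comp (by fun_prop))
      exact this.lintegral_prod_right'
    have h1 : ∀ ξ ∈ {ξ : ℂ | |t| / 8 ≤ ‖ξ‖}, F ξ ≤ ENNReal.ofReal ((Real.pi / |t|) ^ (q / 2)) *
        (2 ^ (q - 1) * (A1 ξ ^ q + N ^ q * A2 ξ ^ q)) := by
      intro ξ hξ
      have hξ' : |t| / 8 ≤ ‖ξ‖ := hξ
      have h2 := Bs_le b hb M hM t ht0 ξ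
      have h3 : ∫⁻ v, WW v * ‖Y b t (ξ - (2 * Real.pi) • v)‖ₑ ≤ A1 ξ + N * A2 ξ := by
        have hm2 : Measurable fun v : ℂ => WW v * ({v : ℂ | ‖ξ‖ ≤ 4 * Real.pi * ‖v‖}.indicator 1 v : ℝ≥0∞) :=
          WW_meas.mul (measurable_one.indicator (measurableSet_le (by fun_prop) (by fun_prop)))
        have hm1 : Measurable fun v : ℂ => WW v * Z (ξ - (2 * Real.pi) • v) :=
          WW_meas.mul (hZm.comp (by fun_prop))
        rw [hA1, hA2]
        simp only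
        rw [← lintegral_const_mul _ hm2, ← lintegral_add_left hm1]
        refine lintegral_mono fun v => ?_
        by_cases hv : |t| / 16 ≤ ‖ξ - (2 * Real.pi) • v‖
        · refine le_trans (le_of_eq ?_) le_self_add
          rw [hZ, indicator_of_mem (by exact hv)]
        · refine le_trans ?_ le_add_self
          have hv' : ‖ξ‖ ≤ 4 * Real.pi * ‖v‖ := by
            have h5 := norm_sub_norm_le ξ ((2 * Real.pi) • v)
            rw [norm_smul, Real.norm_of_nonneg (by positivity)] at h5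
            rw [not_le] at hv
            linarith
          rw [indicator_of_mem (by exact hv')]
          simp only [Pi.one_apply, mul_one]
          rw [mul_comm N]
          gcongr
          exact Y_norm b t _
      rw [hF]
      simp only
      refine (ENNReal.rpow_le_rpow (h2.trans (mul_le_mul' le_rfl h3)) (by linarith : (0 : ℝ) ≤ q)).trans ?_
      rw [ENNReal.mul_rpow_of_nonneg _ _ (by linarith), ENNReal.ofReal_rpow_of_nonneg (by positivity)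
        (by linarith), ← Real.rpow_mul (by positivity)]
      rw [show 1 / 2 * q = q / 2 by ring]
      gcongr
      refine (ENNReal.rpow_add_le_mul_rpow_add_rpow _ _ (by linarith : (1 : ℝ) ≤ q)).trans ?_
      rw [ENNReal.mul_rpow_of_nonneg N _ (by linarith)]
    refine (setLIntegral_mono' hms h1).trans ?_
    refine (setLIntegral_le_lintegral _ _).trans ?_
    rw [lintegral_const_mul' _ _ ENNReal.ofReal_ne_top, lintegral_const_mul' _ _
      (ENNReal.rpow_ne_top_of_nonneg (by linarith) (by norm_num)), lintegral_add_left (hA1m.pow_const q)]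
    have hNt : N ^ q ≠ ∞ := by
      refine ENNReal.rpow_ne_top_of_nonneg (by linarith) ?_
      have h6 : N ≤ ∫⁻ θ in AA, ENNReal.ofReal M := by
        refine lintegral_mono fun θ => ?_
        rw [← ofReal_norm]
        exact ENNReal.ofReal_le_ofReal (hM θ)
      refine ne_top_of_le_ne_top ?_ h6
      rw [lintegral_const, Measure.restrict_apply_univ]
      exact ENNReal.mul_ne_top ENNReal.ofReal_ne_top
        (ne_top_of_le_ne_top ENNReal.one_ne_top AA_vol)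
    rw [lintegral_const_mul' _ _ hNt]
    have h7 : ∫⁻ ξ, A1 ξ ^ q ≤ (∫⁻ v, WW v) ^ q * (ENNReal.ofReal 256 * C1 * D ^ (q / 4)) := by
      refine (young WW Z WW_meas hZm q (by linarith) (2 * Real.pi)).trans ?_
      gcongr
      have h8 := hC1 b hb ⟨M, hM⟩ t (|t| / 16) ht0 (by positivity)
      have h9 : (t / (|t| / 16)) ^ 2 = 256 := by
        rw [div_pow, div_pow, sq_abs]
        field_simp
        norm_num
      rw [h9] at h8
      refine le_trans (le_of_eq ?_) h8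
      rw [← lintegral_indicator hms2]
      refine lintegral_congr fun ξ => ?_
      by_cases hξ : ξ ∈ {ξ : ℂ | |t| / 16 ≤ ‖ξ‖}
      · rw [hZ, indicator_of_mem hξ, indicator_of_mem hξ]
      · rw [hZ, indicator_of_notMem hξ, indicator_of_notMem hξ, ENNReal.zero_rpow_of_pos (by linarith)]
    calc ENNReal.ofReal ((Real.pi / |t|) ^ (q / 2)) * (2 ^ (q - 1) * ((∫⁻ ξ, A1 ξ ^ q) + N ^ q * ∫⁻ ξ, A2 ξ ^ q))
        ≤ ENNReal.ofReal ((Real.pi / |t|) ^ (q / 2)) * (2 ^ (q - 1) * ((∫⁻ v, WW v) ^ q *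
          (ENNReal.ofReal 256 * C1 * D ^ (q / 4)) + D ^ (q / 4) * T)) := by
          gcongr
      _ = _ := by
          rw [Real.div_rpow Real.pi_pos.le htp.le, div_eq_mul_inv, ← Real.rpow_neg htp.le,
            ENNReal.ofReal_mul (by positivity), hCL]
          ring
  calc ∫⁻ ξ, F ξ = (∫⁻ ξ in {ξ : ℂ | |t| / 8 ≤ ‖ξ‖}, F ξ) + ∫⁻ ξ in {ξ : ℂ | |t| / 8 ≤ ‖ξ‖}ᶜ, F ξ :=
        (lintegral_add_compl _ hms).symm
    _ ≤ _ := add_le_add hlarge hsmall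
    _ = _ := by ring

/-- **The base estimate.** -/
theorem base (q : ℝ) (hq : 4 < q) : ∃ C : ℝ≥0∞, C ≠ ∞ ∧ ∀ b : ℝ → ℂ, Measurable b →
    (∃ M : ℝ, ∀ z, ‖b z‖ ≤ M) → ∀ t : ℝ,
    ∫⁻ ξ, ‖PP (Hb b) t ξ‖ₑ ^ q ≤
      C * ENNReal.ofReal ((1 + |t|) ^ (-(q / 2))) * (∫⁻ θ in AA, ‖b θ‖ₑ ^ 4) ^ (q / 4) := by
  obtain ⟨C1, hC1, h1⟩ := base_small q hq
  obtain ⟨C2, hC2, h2⟩ := base_large q hq
  have h2q : (2 : ℝ≥0∞) ^ q ≠ ∞ := ENNReal.rpow_ne_top_of_nonneg (by linarith) (by norm_num)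
  refine ⟨ENNReal.ofReal (2 ^ (q / 2)) * (C1 + 2 ^ q * C2), ?_, ?_⟩
  · exact ENNReal.mul_ne_top ENNReal.ofReal_ne_top (ENNReal.add_ne_top.2 ⟨hC1,
      ENNReal.mul_ne_top h2q hC2⟩)
  intro b hb hM t
  rcases le_or_gt 1 |t| with ht | ht
  · have htp : 0 < |t| := by linarith
    have h3 := h2 b hb hM t ht
    have h4 : ∫⁻ ξ, ‖PP (Hb b) t ξ‖ₑ ^ q = 2 ^ q * ∫⁻ ξ, ‖∫ θ in AA, b θ * ray psi t ξ θ‖ₑ ^ q := by
      rw [← lintegral_const_mul' _ _ h2q]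
      refine lintegral_congr fun ξ => ?_
      rw [PP_Hb, enorm_mul, ENNReal.mul_rpow_of_nonneg _ _ (by linarith)]
      congr 2
      rw [← ofReal_norm]
      norm_num
    rw [h4]
    have h5 : |t| ^ (-(q / 2)) ≤ 2 ^ (q / 2) * (1 + |t|) ^ (-(q / 2)) := by
      rw [Real.rpow_neg htp.le, Real.rpow_neg (by positivity), ← div_eq_mul_inv, le_div_iff₀ (by positivity),
        inv_mul_eq_div, div_le_iff₀ (by positivity), ← Real.mul_rpow (by norm_num) htp.le]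
      exact Real.rpow_le_rpow (by positivity) (by linarith) (by linarith)
    calc 2 ^ q * ∫⁻ ξ, ‖∫ θ in AA, b θ * ray psi t ξ θ‖ₑ ^ q
        ≤ 2 ^ q * (C2 * ENNReal.ofReal (2 ^ (q / 2) * (1 + |t|) ^ (-(q / 2))) *
          (∫⁻ θ in AA, ‖b θ‖ₑ ^ 4) ^ (q / 4)) := by
          gcongr
          exact h3.trans (by gcongr)
      _ = ENNReal.ofReal (2 ^ (q / 2)) * (2 ^ q * C2) * ENNReal.ofReal ((1 + |t|) ^ (-(q / 2))) *
          (∫⁻ θ in AA, ‖b θ‖ₑ ^ 4) ^ (q / 4) := by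
          rw [ENNReal.ofReal_mul (by positivity)]
          ring
      _ ≤ _ := by
          gcongr
          exact le_add_self
  · have h3 := h1 b hb hM t
    have h5 : 1 ≤ 2 ^ (q / 2) * (1 + |t|) ^ (-(q / 2)) := by
      rw [Real.rpow_neg (by positivity), ← div_eq_mul_inv, le_div_iff₀ (by positivity), one_mul]
      exact Real.rpow_le_rpow (by positivity) (by linarith) (by linarith)
    calc ∫⁻ ξ, ‖PP (Hb b) t ξ‖ₑ ^ q ≤ 1 * (C1 * (∫⁻ θ in AA, ‖b θ‖ₑ ^ 4) ^ (q / 4)) := by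
          rw [one_mul]
          exact h3
      _ ≤ ENNReal.ofReal (2 ^ (q / 2) * (1 + |t|) ^ (-(q / 2))) *
          (C1 * (∫⁻ θ in AA, ‖b θ‖ₑ ^ 4) ^ (q / 4)) := by
          gcongr
          rw [← ENNReal.ofReal_one]
          exact ENNReal.ofReal_le_ofReal h5
      _ = ENNReal.ofReal (2 ^ (q / 2)) * C1 * ENNReal.ofReal ((1 + |t|) ^ (-(q / 2))) *
          (∫⁻ θ in AA, ‖b θ‖ₑ ^ 4) ^ (q / 4) := by
          rw [ENNReal.ofReal_mul (by positivity)]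
          ring
      _ ≤ _ := by
          gcongr
          exact le_self_add

end Run7.h783.RV
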