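import Mathlib
import Pool.Agent.Run7.h783.RV.Base2
set_option autoImplicit false

/-! # Superposition of time translates -/

namespace Run7.h783.RV

open MeasureTheory Set Complex Filter Topology
open scoped ENNReal NNReal RealInnerProductSpace FourierTransform SchwartzMap

/-- the class of normalised pieces -/
structure UP (H : ℝ → ℝ → ℂ) (M : ℝ → ℝ) : Prop where
  meas : Measurable (Function.uncurry H)
  measM : Measurable M
  nonneg : ∀ θ, 0 ≤ M θ
  le_one : ∀ θ, M θ ≤ 1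
  supp : ∀ s θ, s ∉ Ioc (1 / 4 : ℝ) 1 → H s θ = 0
  bd : ∀ s θ, ‖H s θ‖ ≤ M θ
  mod : ∀ δ, 0 < δ → ∀ θ, ∫⁻ s, ‖H (s + δ) θ - H s θ‖ₑ ≤ ENNReal.ofReal (3 * δ * M θ)

variable {H : ℝ → ℝ → ℂ} {M : ℝ → ℝ}

theorem UP.meas_s (h : UP H M) (θ : ℝ) : Measurable fun s => H s θ :=
  h.meas.comp (measurable_id.prodMk measurable_const)

theorem UP.lint (h : UP H M) (θ : ℝ) : ∫⁻ s, ‖H s θ‖ₑ ≤ ENNReal.ofReal (M θ) := by
  calc ∫⁻ s, ‖H s θ‖ₑ ≤ ∫⁻ s, (Ioc (1 / 4 : ℝ) 1).indicator (fun _ => ENNReal.ofReal (M θ)) s := by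
        refine lintegral_mono fun s => ?_
        by_cases hs : s ∈ Ioc (1 / 4 : ℝ) 1
        · rw [indicator_of_mem hs, ← ofReal_norm]
          exact ENNReal.ofReal_le_ofReal (h.bd s θ)
        · rw [h.supp s θ hs]
          simp
    _ = ENNReal.ofReal (M θ) * ENNReal.ofReal (1 - 1 / 4) := by
        rw [lintegral_indicator_const measurableSet_Ioc, Real.volume_Ioc]
    _ ≤ _ := by
        refine mul_le_of_le_one_right zero_le ?_
        rw [← ENNReal.ofReal_one]
        exact ENNReal.ofReal_le_ofReal (by norm_num)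

theorem UP.int (h : UP H M) (θ : ℝ) : Integrable fun s => H s θ :=
  ⟨(h.meas_s θ).aestronglyMeasurable, (h.lint θ).trans_lt ENNReal.ofReal_lt_top⟩

/-- the Fourier transform in the squared radius -/
noncomputable def hh (H : ℝ → ℝ → ℂ) (β θ : ℝ) : ℂ :=
  ∫ s, H s θ * cexp (((2 * Real.pi * β * s : ℝ) : ℂ) * I)

theorem hh_meas (hH : Measurable (Function.uncurry H)) : Measurable fun p : ℝ × ℝ => hh H p.1 p.2 := by
  unfold hh
  refine StronglyMeasurable.measurable ?_
  refine StronglyMeasurable.integral_prod_right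
    (f := fun (p : ℝ × ℝ) (s : ℝ) => H s p.2 * cexp (((2 * Real.pi * p.1 * s : ℝ) : ℂ) * I)) ?_
  refine Measurable.stronglyMeasurable ?_
  have h1 : Measurable fun x : (ℝ × ℝ) × ℝ => H x.2 x.1.2 :=
    hH.comp (measurable_snd.prodMk (measurable_snd.comp measurable_fst))
  exact h1.mul (Continuous.measurable (by fun_prop))

theorem int_exp (g : ℝ → ℂ) (hg : Integrable g) (c : ℝ → ℝ) (hc : Continuous c) :
    Integrable fun s => g s * cexp (((c s : ℝ) : ℂ) * I) := by
  refine hg.norm.mono' (hg.aestronglyMeasurable.mul (Continuous.aestronglyMeasurable (by fun_prop)))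
    (Eventually.of_forall fun s => ?_)
  rw [norm_mul, Complex.norm_exp_ofReal_mul_I, mul_one]

theorem hh_le (h : UP H M) (β θ : ℝ) : ‖hh H β θ‖ ≤ M θ := by
  have h1 : ‖hh H β θ‖ₑ ≤ ENNReal.ofReal (M θ) := by
    unfold hh
    refine (enorm_integral_le_lintegral_enorm _).trans (le_trans (le_of_eq ?_) (h.lint θ))
    refine lintegral_congr fun s => ?_
    rw [enorm_mul, ← ofReal_norm (cexp _), Complex.norm_exp_ofReal_mul_I, ENNReal.ofReal_one, mul_one]
  rw [← ofReal_norm] at h1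
  exact (ENNReal.ofReal_le_ofReal_iff (h.nonneg θ)).1 h1

theorem hh_dec (h : UP H M) (β θ : ℝ) (hβ : β ≠ 0) : ‖hh H β θ‖ ≤ M θ / |β| := by
  have hbp : 0 < |β| := abs_pos.2 hβ
  set δ : ℝ := 1 / (2 * |β|) with hδ
  have hδ0 : 0 < δ := by positivity
  have hi := h.int θ
  have hi2 : Integrable fun s => H (s + δ) θ := hi.comp_add_right δ
  have e1 : ∫ s, H (s + δ) θ * cexp (((2 * Real.pi * β * s : ℝ) : ℂ) * I) = -hh H β θ := by
    have h2 := integral_add_right_eq_self (μ := (volume : Measure ℝ))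
      (fun s => H s θ * cexp (((2 * Real.pi * β * (s - δ) : ℝ) : ℂ) * I)) δ
    simp only [add_sub_cancel_right] at h2
    rw [h2]
    unfold hh
    rw [← integral_neg]
    refine integral_congr_ae (Eventually.of_forall fun s => ?_)
    try simp only
    rw [← mul_neg]
    congr 1
    have h3 : cexp (((-(2 * Real.pi * β * δ) : ℝ) : ℂ) * I) = -1 := by
      rcases abs_cases β with ⟨h4, h5⟩ | ⟨h4, h5⟩
      · have : -(2 * Real.pi * β * δ) = -Real.pi := by
          rw [hδ, h4]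
          field_simp
        rw [this]
        push_cast
        rw [neg_mul, Complex.exp_neg, Complex.exp_pi_mul_I]
        norm_num
      · have : -(2 * Real.pi * β * δ) = Real.pi := by
          rw [hδ, h4]
          field_simp
        rw [this]
        exact Complex.exp_pi_mul_I
    calc cexp (((2 * Real.pi * β * (s - δ) : ℝ) : ℂ) * I)
        = cexp (((2 * Real.pi * β * s : ℝ) : ℂ) * I) * cexp (((-(2 * Real.pi * β * δ) : ℝ) : ℂ) * I) := by
          rw [← Complex.exp_add, ← add_mul, ← Complex.ofReal_add]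
          congr 3
          ring
      _ = _ := by rw [h3]; ring
  have e2 : ∫ s, (H (s + δ) θ - H s θ) * cexp (((2 * Real.pi * β * s : ℝ) : ℂ) * I) = -(2 * hh H β θ) := by
    have h4 : ∀ s, (H (s + δ) θ - H s θ) * cexp (((2 * Real.pi * β * s : ℝ) : ℂ) * I) =
        H (s + δ) θ * cexp (((2 * Real.pi * β * s : ℝ) : ℂ) * I) -
        H s θ * cexp (((2 * Real.pi * β * s : ℝ) : ℂ) * I) := fun s => by ring
    simp_rw [h4]
    rw [integral_sub (int_exp _ hi2 (fun s => 2 * Real.pi * β * s) (by fun_prop))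
      (int_exp _ hi (fun s => 2 * Real.pi * β * s) (by fun_prop)), e1]
    unfold hh
    ring
  have e3 : ‖(2 : ℂ) * hh H β θ‖ₑ ≤ ENNReal.ofReal (3 * δ * M θ) := by
    rw [← enorm_neg, ← e2]
    refine (enorm_integral_le_lintegral_enorm _).trans (le_trans (le_of_eq ?_) (h.mod δ hδ0 θ))
    refine lintegral_congr fun s => ?_
    rw [enorm_mul, ← ofReal_norm (cexp _), Complex.norm_exp_ofReal_mul_I, ENNReal.ofReal_one, mul_one]
  rw [← ofReal_norm] at e3
  have e4 := (ENNReal.ofReal_le_ofReal_iff (by have := h.nonneg θ; positivity)).1 e3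
  rw [norm_mul] at e4
  have e5 : ‖(2 : ℂ)‖ = 2 := by norm_num
  rw [e5, hδ] at e4
  have e6 : 3 * (1 / (2 * |β|)) * M θ = (3 / 2) * (M θ / |β|) := by
    field_simp
  rw [e6] at e4
  have e7 : 0 ≤ M θ / |β| := div_nonneg (h.nonneg θ) hbp.le
  linarith

theorem hh_bound (h : UP H M) (β θ : ℝ) : ‖hh H β θ‖ ≤ 2 * M θ / (1 + |β|) := by
  have hM := h.nonneg θ
  rw [le_div_iff₀ (by positivity)]
  rcases eq_or_ne β 0 with hβ | hβ
  · subst hβ
    have := hh_le h 0 θ
    simp only [abs_zero, add_zero, mul_one]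
    linarith
  · have h1 := hh_le h β θ
    have h2 := hh_dec h β θ hβ
    have hbp : 0 < |β| := abs_pos.2 hβ
    rw [le_div_iff₀ hbp] at h2
    linarith

/-- the smooth amplitude -/
noncomputable def Om (t : ℝ) (ξ : ℂ) (θ s : ℝ) : ℂ :=
  ((chi (√s • om θ) : ℝ) : ℂ) * cexp (((-(√s * aa θ ξ + t * s) : ℝ) : ℂ) * I)

theorem Om_zero (t : ℝ) (ξ : ℂ) (θ s : ℝ) (hθ : θ ∈ AA) (hs : s ≤ 1 / 100 ∨ 9 / 4 ≤ s) :
    Om t ξ θ s = 0 := by
  unfold Om
  rw [chi_zero, Complex.ofReal_zero, zero_mul]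
  · exact hθ
  · rcases hs with hs | hs
    · left
      have : √s ≤ √(1 / 100) := Real.sqrt_le_sqrt hs
      rwa [show √(1 / 100 : ℝ) = 1 / 10 by
        rw [show (1 / 100 : ℝ) = (1 / 10) ^ 2 by norm_num, Real.sqrt_sq (by norm_num)]] at this
    · right
      have : √(9 / 4) ≤ √s := Real.sqrt_le_sqrt hs
      rwa [show √(9 / 4 : ℝ) = 3 / 2 by
        rw [show (9 / 4 : ℝ) = (3 / 2) ^ 2 by norm_num, Real.sqrt_sq (by norm_num)]] at this

theorem Om_smooth (t : ℝ) (ξ : ℂ) (θ : ℝ) (hθ : θ ∈ AA) :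
    ContDiff ℝ ((⊤ : ℕ∞) : WithTop ℕ∞) (Om t ξ θ) := by
  rw [contDiff_iff_contDiffAt]
  intro s
  rcases lt_or_ge s (1 / 100) with hs | hs
  · refine (contDiffAt_const (c := (0 : ℂ))).congr_of_eventuallyEq ?_
    filter_upwards [Iio_mem_nhds hs] with y hy
    exact Om_zero t ξ θ y hθ (Or.inl (le_of_lt hy))
  · have h1 : ContDiffAt ℝ ((⊤ : ℕ∞) : WithTop ℕ∞) (fun s : ℝ => √s) s :=
      Real.contDiffAt_sqrt (by linarith)
    unfold Om
    refine ContDiffAt.mul ?_ ?_
    · refine Complex.ofRealCLM.contDiff.contDiffAt.comp s ?_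
      exact chi.contDiff.contDiffAt.comp s (h1.smul contDiffAt_const)
    · refine ContDiffAt.cexp ?_
      refine ContDiffAt.mul ?_ contDiffAt_const
      refine Complex.ofRealCLM.contDiff.contDiffAt.comp s ?_
      exact ((h1.mul contDiffAt_const).add (contDiffAt_const.mul contDiffAt_id)).neg

theorem Om_supp (t : ℝ) (ξ : ℂ) (θ : ℝ) (hθ : θ ∈ AA) : HasCompactSupport (Om t ξ θ) := by
  refine HasCompactSupport.intro (K := Icc (1 / 100) (9 / 4)) isCompact_Icc fun s hs => ?_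
  apply Om_zero t ξ θ s hθ
  rw [mem_Icc, not_and_or, not_le, not_le] at hs
  exact hs.imp le_of_lt le_of_lt

theorem Om_hat (t : ℝ) (ξ : ℂ) (θ : ℝ) (hθ : θ ∈ AA) (β : ℝ) :
    (𝓕 (Om t ξ θ)) β = 2 * ray psi (t + 2 * Real.pi * β) ξ θ := by
  have h1 : (𝓕 (Om t ξ θ)) β = ∫ s in Ioi (0 : ℝ), ((chi (√s • om θ) : ℝ) : ℂ) *
      cexp (((-(√s * aa θ ξ + (t + 2 * Real.pi * β) * s) : ℝ) : ℂ) * I) := by
    rw [Real.fourier_real_eq_integral_exp_smul, ← integral_indicator measurableSet_Ioi]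
    congr 1
    funext s
    by_cases hs : s ∈ Ioi (0 : ℝ)
    · rw [indicator_of_mem hs]
      unfold Om
      rw [smul_eq_mul, mul_left_comm, ← Complex.exp_add, ← add_mul, ← Complex.ofReal_add]
      congr 4
      ring
    · rw [indicator_of_notMem hs, Om_zero t ξ θ s hθ (Or.inl (by
        have : s ≤ 0 := not_lt.1 hs
        linarith)), smul_zero]
  rw [h1, sub_sq (fun s => ((chi (√s • om θ) : ℝ) : ℂ) *
      cexp (((-(√s * aa θ ξ + (t + 2 * Real.pi * β) * s) : ℝ) : ℂ) * I))]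
  have h2 : ray psi (t + 2 * Real.pi * β) ξ θ = ∫ r in Ioi (0 : ℝ), psi (r • om θ) *
      cexp (((-(r * aa θ ξ + (t + 2 * Real.pi * β) * r ^ 2) : ℝ) : ℂ) * I) := by
    unfold ray
    rw [← integral_indicator measurableSet_Ioi]
    congr 1
    funext r
    by_cases h : r ∈ Ioi (0 : ℝ)
    · rw [indicator_of_mem h]
    · rw [indicator_of_notMem h, psi_zero r θ hθ (Or.inl (by
        have : r ≤ 0 := not_lt.1 h
        linarith)), zero_mul]
  rw [h2, ← integral_const_mul]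
  refine setIntegral_congr_fun measurableSet_Ioi fun r hr => ?_
  have hr0 : (0 : ℝ) < r := hr
  try simp only
  unfold psi
  rw [Real.sqrt_sq hr0.le, norm_r_om _ _ hr0.le]
  push_cast
  ring

/-- inversion -/
theorem Om_inv (t : ℝ) (ξ : ℂ) (θ : ℝ) (hθ : θ ∈ AA) (s : ℝ) :
    Om t ξ θ s = ∫ β : ℝ, cexp (((2 * Real.pi * β * s : ℝ) : ℂ) * I) *
      (2 * ray psi (t + 2 * Real.pi * β) ξ θ) := by
  set S : 𝓢(ℝ, ℂ) := (Om_supp t ξ θ hθ).toSchwartzMap (Om_smooth t ξ θ hθ) with hS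
  have h0 : ∀ s, S s = Om t ξ θ s := fun s => rfl
  have h1 : S s = (𝓕⁻ (𝓕 S)) s := by rw [FourierTransform.fourierInv_fourier_eq]
  rw [← h0, h1, SchwartzMap.fourierInv_coe, Real.fourierInv_eq']
  refine integral_congr_ae (Eventually.of_forall fun β => ?_)
  try simp only
  rw [SchwartzMap.fourier_coe]
  have h2 : (fun s => S s) = Om t ξ θ := funext h0
  have h3 : (𝓕 (fun s => S s)) β = 2 * ray psi (t + 2 * Real.pi * β) ξ θ := by
    rw [h2, Om_hat t ξ θ hθ β]
  rw [smul_eq_mul]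
  have h4 : 2 * Real.pi * ⟪β, s⟫ = 2 * Real.pi * β * s := by
    simp
    ring
  rw [h4]
  congr 1

theorem ray_int (t : ℝ) (ξ : ℂ) (θ : ℝ) (hθ : θ ∈ AA) :
    Integrable fun β : ℝ => 2 * ray psi (t + 2 * Real.pi * β) ξ θ := by
  set S : 𝓢(ℝ, ℂ) := (Om_supp t ξ θ hθ).toSchwartzMap (Om_smooth t ξ θ hθ) with hS
  have h0 : ∀ s, S s = Om t ξ θ s := fun s => rfl
  have h1 := (𝓕 S).integrable (μ := volume)
  refine h1.congr (Eventually.of_forall fun β => ?_)
  rw [SchwartzMap.fourier_coe]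
  have h2 : (fun s => S s) = Om t ξ θ := funext h0
  have h3 : (𝓕 (fun s => S s)) β = 2 * ray psi (t + 2 * Real.pi * β) ξ θ := by
    rw [h2, Om_hat t ξ θ hθ β]
  exact h3

/-- the representation along a ray -/
theorem repr_ray (h : UP H M) (t : ℝ) (ξ : ℂ) (θ : ℝ) (hθ : θ ∈ AA) :
    ∫ s in Ioi (0 : ℝ), H s θ * cexp (((-(√s * aa θ ξ + t * s) : ℝ) : ℂ) * I) =
    ∫ β : ℝ, hh H β θ * (2 * ray psi (t + 2 * Real.pi * β) ξ θ) := by
  have h1 : ∫ s in Ioi (0 : ℝ), H s θ * cexp (((-(√s * aa θ ξ + t * s) : ℝ) : ℂ) * I) =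
      ∫ s, H s θ * Om t ξ θ s := by
    rw [← integral_indicator measurableSet_Ioi]
    congr 1
    funext s
    by_cases hs : s ∈ Ioc (1 / 4 : ℝ) 1
    · rw [indicator_of_mem (show s ∈ Ioi (0 : ℝ) by
        have := hs.1
        exact lt_trans (by norm_num) this)]
      unfold Om
      rw [chi_one √s θ hθ, Complex.ofReal_one, one_mul]
      · have : √(1 / 4) ≤ √s := Real.sqrt_le_sqrt hs.1.le
        rwa [show √(1 / 4 : ℝ) = 1 / 2 by
          rw [show (1 / 4 : ℝ) = (1 / 2) ^ 2 by norm_num, Real.sqrt_sq (by norm_num)]] at this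
      · exact Real.sqrt_le_iff.2 ⟨by norm_num, by simpa using hs.2⟩
    · rw [h.supp s θ hs, zero_mul]
      by_cases hs' : s ∈ Ioi (0 : ℝ)
      · rw [indicator_of_mem hs', h.supp s θ hs, zero_mul]
      · rw [indicator_of_notMem hs']
  rw [h1]
  set G : ℝ → ℝ → ℂ := fun s β => H s θ * (cexp (((2 * Real.pi * β * s : ℝ) : ℂ) * I) *
      (2 * ray psi (t + 2 * Real.pi * β) ξ θ)) with hG
  have hint : Integrable (Function.uncurry G) ((volume : Measure ℝ).prod (volume : Measure ℝ)) := by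
    have h2 := (h.int θ).mul_prod (ray_int t ξ θ hθ)
    have h3 : Function.uncurry G = fun p : ℝ × ℝ => (H p.1 θ * (2 * ray psi (t + 2 * Real.pi * p.2) ξ θ)) *
        cexp (((2 * Real.pi * p.2 * p.1 : ℝ) : ℂ) * I) := by
      funext p
      rw [hG]
      simp only [Function.uncurry]
      ring
    rw [h3]
    refine h2.norm.mono' (h2.aestronglyMeasurable.mul (Continuous.aestronglyMeasurable (by fun_prop)))
      (Eventually.of_forall fun p => ?_)
    rw [norm_mul, Complex.norm_exp_ofReal_mul_I, mul_one]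
  calc ∫ s, H s θ * Om t ξ θ s = ∫ s, ∫ β, G s β := by
        refine integral_congr_ae (Eventually.of_forall fun s => ?_)
        simp only [hG]
        rw [Om_inv t ξ θ hθ s, ← integral_const_mul]
    _ = ∫ β, ∫ s, G s β := integral_integral_swap hint
    _ = _ := by
        refine integral_congr_ae (Eventually.of_forall fun β => ?_)
        simp only [hG]
        unfold hh
        rw [← integral_mul_const]
        refine integral_congr_ae (Eventually.of_forall fun s => ?_)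
        try simp only
        ring

end Run7.h783.RV
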