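import Mathlib
import Pool.Agent.Run7.h783.RV.Freq
set_option autoImplicit false

/-! # The fixed time estimate for normalised pieces -/

namespace Run7.h783.RV

open MeasureTheory Set Complex Filter Topology
open scoped ENNReal NNReal RealInnerProductSpace FourierTransform SchwartzMap

theorem ray_meas : Measurable fun p : (ℝ × ℂ) × ℝ => ray psi p.1.1 p.1.2 p.2 := by
  unfold ray
  refine StronglyMeasurable.measurable ?_
  refine StronglyMeasurable.integral_prod_right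
    (f := fun (p : (ℝ × ℂ) × ℝ) (r : ℝ) => psi (r • om p.2) *
      cexp (((-(r * aa p.2 p.1.2 + p.1.1 * r ^ 2) : ℝ) : ℂ) * I)) ?_
  refine Continuous.stronglyMeasurable ?_
  refine Continuous.mul ?_ ?_
  · refine psi_smooth.continuous.comp ?_
    exact continuous_snd.smul (om_cont.comp (continuous_snd.comp continuous_fst))
  · unfold aa
    fun_prop

theorem ray_meas1 (t : ℝ) (ξ : ℂ) : Measurable fun p : ℝ × ℝ => ray psi (t + 2 * Real.pi * p.2) ξ p.1 := by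
  have h1 : Measurable fun x : ℝ × ℝ => (((t + 2 * Real.pi * x.2, ξ), x.1) : (ℝ × ℂ) × ℝ) := by
    fun_prop
  have h2 := ray_meas.comp h1
  simp only [Function.comp_def] at h2
  exact h2

theorem ray_meas2 (t : ℝ) : Measurable fun x : (ℝ × ℂ) × ℝ => ray psi (t + 2 * Real.pi * x.1.1) x.1.2 x.2 := by
  have h1 : Measurable fun x : (ℝ × ℂ) × ℝ => (((t + 2 * Real.pi * x.1.1, x.1.2), x.2) : (ℝ × ℂ) × ℝ) := by
    fun_prop
  have h2 := ray_meas.comp h1
  simp only [Function.comp_def] at h2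
  exact h2

theorem ray_dec : ∃ K : ℝ, 0 ≤ K ∧ ∀ (t : ℝ) (ξ : ℂ) (θ : ℝ), θ ∈ AA →
    ‖ray psi t ξ θ‖ ≤ K * (1 + |t|) ^ (-(1 / 2) : ℝ) := by
  set L : ℝ := ∫ v, ‖(𝓕 psiS) v‖ with hL
  have hL0 : 0 ≤ L := integral_nonneg fun v => norm_nonneg _
  refine ⟨3 * 2 ^ (1 / 2 : ℝ) + (Real.pi * 2) ^ (1 / 2 : ℝ) * L, by positivity, ?_⟩
  intro t ξ θ hθ
  rcases le_or_gt 1 |t| with ht | ht
  · have htp : 0 < |t| := by linarith
    have ht0 : t ≠ 0 := abs_pos.1 htp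
    have h1 : ray psi t ξ θ = ((Real.pi : ℂ) / (t * I)) ^ (1 / 2 : ℂ) * ∫ v : ℂ, (𝓕 psiS) v *
        cexp ((((aa θ (ξ - (2 * Real.pi) • v)) ^ 2 / (4 * t) : ℝ) : ℂ) * I) :=
      fres psiS t ht0 ξ θ (psi_ray_int θ hθ)
    have h2 : ‖∫ v : ℂ, (𝓕 psiS) v *
        cexp ((((aa θ (ξ - (2 * Real.pi) • v)) ^ 2 / (4 * t) : ℝ) : ℂ) * I)‖ ≤ L := by
      refine (norm_integral_le_integral_norm _).trans (le_of_eq ?_)
      refine integral_congr_ae (Eventually.of_forall fun v => ?_)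
      try simp only
      rw [norm_mul, Complex.norm_exp_ofReal_mul_I, mul_one]
    have h3 : ‖((Real.pi : ℂ) / (t * I)) ^ (1 / 2 : ℂ)‖ = (Real.pi / |t|) ^ (1 / 2 : ℝ) := by
      have := Complex.norm_cpow_real ((Real.pi : ℂ) / (t * I)) (1 / 2)
      push_cast at this
      rw [this]
      congr 1
      rw [norm_div, norm_mul, Complex.norm_I, Complex.norm_real, Complex.norm_real, mul_one,
        Real.norm_of_nonneg Real.pi_pos.le, Real.norm_eq_abs]
    have h4 : (Real.pi / |t|) ^ (1 / 2 : ℝ) ≤ (Real.pi * 2) ^ (1 / 2 : ℝ) * (1 + |t|) ^ (-(1 / 2) : ℝ) := by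
      rw [Real.rpow_neg (by positivity), ← Real.inv_rpow (by positivity), ← Real.mul_rpow (by positivity)
        (by positivity)]
      refine Real.rpow_le_rpow (by positivity) ?_ (by norm_num)
      rw [div_eq_mul_inv, mul_assoc]
      gcongr
      rw [← div_eq_mul_inv, inv_eq_one_div, div_le_div_iff₀ htp (by positivity)]
      linarith
    rw [h1, norm_mul, h3]
    calc (Real.pi / |t|) ^ (1 / 2 : ℝ) * ‖∫ v : ℂ, (𝓕 psiS) v *
        cexp ((((aa θ (ξ - (2 * Real.pi) • v)) ^ 2 / (4 * t) : ℝ) : ℂ) * I)‖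
        ≤ ((Real.pi * 2) ^ (1 / 2 : ℝ) * (1 + |t|) ^ (-(1 / 2) : ℝ)) * L := by
          gcongr
      _ ≤ _ := by
          have : 0 ≤ 3 * (2 : ℝ) ^ (1 / 2 : ℝ) * (1 + |t|) ^ (-(1 / 2) : ℝ) := by positivity
          nlinarith
  · have h1 := ray_le t ξ θ hθ
    have h2 : 1 ≤ (2 : ℝ) ^ (1 / 2 : ℝ) * (1 + |t|) ^ (-(1 / 2) : ℝ) := by
      rw [Real.rpow_neg (by positivity), ← div_eq_mul_inv, le_div_iff₀ (by positivity), one_mul]
      exact Real.rpow_le_rpow (by positivity) (by linarith) (by norm_num)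
    have h3 : 0 ≤ (Real.pi * 2) ^ (1 / 2 : ℝ) * L * (1 + |t|) ^ (-(1 / 2) : ℝ) := by positivity
    nlinarith

/-- the weight -/
noncomputable def wt (ε t β : ℝ) : ℝ := (1 + |β|) ^ (-(1 + ε)) + (1 + |t + 2 * Real.pi * β|) ^ (-(1 + ε))

theorem wt_pos (ε t β : ℝ) : 0 < wt ε t β := by
  unfold wt
  positivity

theorem wt_meas (ε t : ℝ) : Measurable (wt ε t) := by
  unfold wt
  fun_prop

theorem wt_key (ε : ℝ) (h0 : 0 < ε) (h1 : ε < 1 / 2) (t β : ℝ) :
    (1 + |β|)⁻¹ * (1 + |t + 2 * Real.pi * β|) ^ (-(1 / 2) : ℝ) ≤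
      (4 * Real.pi) ^ (1 / 2 : ℝ) * (1 + |t|) ^ (-(1 / 2 - ε)) * wt ε t β := by
  have hpi := Real.pi_gt_three
  set A : ℝ := 1 + |β| with hA
  set B : ℝ := 1 + |t + 2 * Real.pi * β| with hB
  set S : ℝ := 1 + |t| with hS
  have hA1 : 1 ≤ A := by rw [hA]; linarith [abs_nonneg β]
  have hB1 : 1 ≤ B := by rw [hB]; linarith [abs_nonneg (t + 2 * Real.pi * β)]
  have hS1 : 1 ≤ S := by rw [hS]; linarith [abs_nonneg t]
  have hSAB : S ≤ B + 2 * Real.pi * A := by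
    have h2 : |t| ≤ |t + 2 * Real.pi * β| + 2 * Real.pi * |β| := by
      have := abs_sub (t + 2 * Real.pi * β) (2 * Real.pi * β)
      rw [add_sub_cancel_right, abs_mul, abs_of_pos (by positivity : (0 : ℝ) < 2 * Real.pi)] at this
      exact this
    rw [hS, hB, hA]
    nlinarith
  have hc : (4 * Real.pi) ^ (1 / 2 - ε) ≤ (4 * Real.pi) ^ (1 / 2 : ℝ) :=
    Real.rpow_le_rpow_of_exponent_le (by linarith) (by linarith)
  have hSc : ∀ X : ℝ, 0 < X → S ≤ 4 * Real.pi * X →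
      X ^ (-(1 / 2 - ε)) ≤ (4 * Real.pi) ^ (1 / 2 : ℝ) * S ^ (-(1 / 2 - ε)) := by
    intro X hX hSX
    have h3 : (4 * Real.pi * X) ^ (-(1 / 2 - ε)) ≤ S ^ (-(1 / 2 - ε)) :=
      Real.rpow_le_rpow_of_nonpos (by linarith) hSX (by linarith)
    rw [Real.mul_rpow (by positivity) hX.le, Real.rpow_neg (by positivity : (0 : ℝ) ≤ 4 * Real.pi),
      inv_mul_le_iff₀ (by positivity)] at h3
    exact h3.trans (by gcongr)
  have hwt : wt ε t β = A ^ (-(1 + ε)) + B ^ (-(1 + ε)) := rfl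
  rw [hwt]
  have hAp : 0 < A := by linarith
  have hBp : 0 < B := by linarith
  rcases le_total A B with hAB | hAB
  · have h4 : S ≤ 4 * Real.pi * B := by nlinarith
    have h5 := hSc B hBp h4
    have h6 : A⁻¹ * B ^ (-(1 / 2) : ℝ) ≤ A ^ (-(1 + ε)) * B ^ (-(1 / 2 - ε)) := by
      have e1 : A⁻¹ = A ^ (-(1 + ε)) * A ^ ε := by
        rw [← Real.rpow_add hAp, show -(1 + ε) + ε = -1 by ring, Real.rpow_neg_one]
      have e2 : B ^ (-(1 / 2 - ε)) = B ^ ε * B ^ (-(1 / 2) : ℝ) := by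
        rw [← Real.rpow_add hBp]
        congr 1
        ring
      rw [e1, e2, mul_assoc]
      gcongr
    calc A⁻¹ * B ^ (-(1 / 2) : ℝ) ≤ A ^ (-(1 + ε)) * B ^ (-(1 / 2 - ε)) := h6
      _ ≤ A ^ (-(1 + ε)) * ((4 * Real.pi) ^ (1 / 2 : ℝ) * S ^ (-(1 / 2 - ε))) := by gcongr
      _ ≤ _ := by
          have : 0 ≤ (4 * Real.pi) ^ (1 / 2 : ℝ) * S ^ (-(1 / 2 - ε)) * B ^ (-(1 + ε)) := by positivity
          nlinarith
  · have h4 : S ≤ 4 * Real.pi * A := by nlinarith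
    have h5 := hSc A hAp h4
    have h6 : A⁻¹ * B ^ (-(1 / 2) : ℝ) ≤ A ^ (-(1 / 2 - ε)) * B ^ (-(1 + ε)) := by
      have e1 : A⁻¹ = A ^ (-(1 / 2 - ε)) * A ^ (-(1 / 2 + ε)) := by
        rw [← Real.rpow_add hAp, show -(1 / 2 - ε) + -(1 / 2 + ε) = -1 by ring, Real.rpow_neg_one]
      have e2 : B ^ (-(1 + ε)) = B ^ (-(1 / 2 + ε)) * B ^ (-(1 / 2) : ℝ) := by
        rw [← Real.rpow_add hBp]
        congr 1
        ring
      have e3 : A ^ (-(1 / 2 + ε)) ≤ B ^ (-(1 / 2 + ε)) :=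
        Real.rpow_le_rpow_of_nonpos hBp hAB (by linarith)
      rw [e1, e2, mul_assoc]
      gcongr
    calc A⁻¹ * B ^ (-(1 / 2) : ℝ) ≤ A ^ (-(1 / 2 - ε)) * B ^ (-(1 + ε)) := h6
      _ ≤ ((4 * Real.pi) ^ (1 / 2 : ℝ) * S ^ (-(1 / 2 - ε))) * B ^ (-(1 + ε)) := by gcongr
      _ ≤ _ := by
          have : 0 ≤ (4 * Real.pi) ^ (1 / 2 : ℝ) * S ^ (-(1 / 2 - ε)) * A ^ (-(1 + ε)) := by positivity
          nlinarith

theorem wt_int (ε : ℝ) (h0 : 0 < ε) : ∃ J : ℝ≥0∞, J ≠ ∞ ∧ ∀ t, ∫⁻ β, ENNReal.ofReal (wt ε t β) ≤ J := by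
  have h1 : ∫⁻ x : ℝ, ENNReal.ofReal ((1 + ‖x‖) ^ (-(1 + ε))) < ∞ :=
    finite_integral_one_add_norm (by simp [h0])
  set J := ∫⁻ x : ℝ, ENNReal.ofReal ((1 + ‖x‖) ^ (-(1 + ε))) with hJ
  refine ⟨J + J, ENNReal.add_ne_top.2 ⟨h1.ne, h1.ne⟩, fun t => ?_⟩
  have hm : Measurable fun x : ℝ => ENNReal.ofReal ((1 + ‖x‖) ^ (-(1 + ε))) := by fun_prop
  unfold wt
  have e1 : ∀ β : ℝ, ENNReal.ofReal ((1 + |β|) ^ (-(1 + ε)) + (1 + |t + 2 * Real.pi * β|) ^ (-(1 + ε))) =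
      ENNReal.ofReal ((1 + ‖β‖) ^ (-(1 + ε))) + ENNReal.ofReal ((1 + ‖t + 2 * Real.pi * β‖) ^ (-(1 + ε))) :=
    fun β => by
      rw [ENNReal.ofReal_add (by positivity) (by positivity), Real.norm_eq_abs, Real.norm_eq_abs]
  simp_rw [e1]
  rw [lintegral_add_left hm]
  gcongr
  have h2 := lint_smul (volume : Measure ℝ) (fun x => ENNReal.ofReal ((1 + ‖t + x‖) ^ (-(1 + ε))))
    (by fun_prop) (2 * Real.pi) (by positivity)
  simp only [smul_eq_mul] at h2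
  rw [h2]
  have h3 : ∫⁻ x : ℝ, ENNReal.ofReal ((1 + ‖t + x‖) ^ (-(1 + ε))) = J :=
    lintegral_add_left_eq_self (fun x : ℝ => ENNReal.ofReal ((1 + ‖x‖) ^ (-(1 + ε)))) t
  rw [h3]
  refine mul_le_of_le_one_left zero_le ?_
  rw [← ENNReal.ofReal_one]
  refine ENNReal.ofReal_le_ofReal ?_
  have hpi := Real.pi_gt_three
  rw [abs_of_pos (by positivity), Module.finrank_self, pow_one]
  refine inv_le_one_of_one_le₀ (by linarith)

/-- Jensen -/
theorem jens2 {α : Type*} [MeasurableSpace α] (μ : Measure α) (W F : α → ℝ≥0∞)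
    (hW : AEMeasurable W μ) (hF : AEMeasurable F μ) (h0 : ∀ a, W a ≠ 0) (h1 : ∀ a, W a ≠ ∞)
    (q : ℝ) (hq : 1 < q) :
    (∫⁻ a, F a ∂μ) ^ q ≤ (∫⁻ a, W a ∂μ) ^ (q - 1) * ∫⁻ a, W a * (F a / W a) ^ q ∂μ := by
  have h := jens μ W (fun a => F a / W a) hW (hF.div hW) q hq
  refine le_trans (le_of_eq ?_) h
  congr 1
  refine lintegral_congr fun a => ?_
  exact (ENNReal.mul_div_cancel (h0 a) (h1 a)).symm

variable {H : ℝ → ℝ → ℂ} {M : ℝ → ℝ}

/-- the time translates -/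
noncomputable def JJ (H : ℝ → ℝ → ℂ) (t β : ℝ) (ξ : ℂ) : ℂ := PP (Hb (hh H β)) (t + 2 * Real.pi * β) ξ

theorem JJ_meas (hH : Measurable (Function.uncurry H)) (t : ℝ) :
    Measurable fun p : ℝ × ℂ => JJ H t p.1 p.2 := by
  unfold JJ
  simp_rw [PP_Hb]
  refine Measurable.const_mul ?_ 2
  refine StronglyMeasurable.measurable ?_
  refine StronglyMeasurable.integral_prod_right
    (f := fun (p : ℝ × ℂ) (θ : ℝ) => hh H p.1 θ * ray psi (t + 2 * Real.pi * p.1) p.2 θ) ?_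
  refine Measurable.stronglyMeasurable ?_
  refine Measurable.mul ?_ ?_
  · exact (hh_meas hH).comp ((measurable_fst.comp measurable_fst).prodMk measurable_snd)
  · exact ray_meas2 t

theorem PP_le (h : UP H M) (t : ℝ) (ξ : ℂ) : ‖PP H t ξ‖ₑ ≤ ∫⁻ β, ‖JJ H t β ξ‖ₑ := by
  obtain ⟨K, hK0, hK⟩ := ray_dec
  set G : ℝ → ℝ → ℂ := fun θ β => hh H β θ * (2 * ray psi (t + 2 * Real.pi * β) ξ θ) with hG
  have hGm : Measurable (Function.uncurry G) := by
    have h1 : Measurable fun p : ℝ × ℝ => hh H p.2 p.1 :=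
      (hh_meas h.meas).comp (measurable_snd.prodMk measurable_fst)
    have h2 := (ray_meas1 t ξ).const_mul 2
    exact h1.mul h2
  obtain ⟨J, hJt, hJ⟩ := wt_int (1 / 4) (by norm_num)
  have hwi : Integrable (fun β => wt (1 / 4) t β) := by
    refine ⟨(wt_meas _ _).aestronglyMeasurable, ?_⟩
    have : ∫⁻ β, ‖wt (1 / 4) t β‖ₑ = ∫⁻ β, ENNReal.ofReal (wt (1 / 4) t β) :=
      lintegral_congr fun β => Real.enorm_eq_ofReal (wt_pos _ _ _).le
    unfold HasFiniteIntegral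
    rw [this]
    exact (hJ t).trans_lt (lt_top_iff_ne_top.2 hJt)
  have hAAf : IsFiniteMeasure (volume.restrict AA) :=
    ⟨by rw [Measure.restrict_apply_univ]; exact AA_vol.trans_lt ENNReal.one_lt_top⟩
  have hint : Integrable (Function.uncurry G) ((volume.restrict AA).prod (volume : Measure ℝ)) := by
    have h1 : Integrable (fun p : ℝ × ℝ => (4 * K * ((4 * Real.pi) ^ (1 / 2 : ℝ) *
        (1 + |t|) ^ (-(1 / 2 - 1 / 4 : ℝ)))) * wt (1 / 4) t p.2)
        ((volume.restrict AA).prod (volume : Measure ℝ)) :=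
      (integrable_const _).mul_prod hwi
    refine h1.mono' hGm.aestronglyMeasurable ?_
    have h2 : ∀ᵐ p ∂((volume.restrict AA).prod (volume : Measure ℝ)), p.1 ∈ AA := by
      have h3 : ∀ᵐ θ ∂(volume.restrict AA), θ ∈ AA := ae_restrict_mem AA_meas
      exact Measure.quasiMeasurePreserving_fst.ae h3
    filter_upwards [h2] with p hp
    rw [hG]
    simp only [Function.uncurry]
    rw [norm_mul, norm_mul]
    have h3 := hh_bound h p.2 p.1
    have h4 := hK (t + 2 * Real.pi * p.2) ξ p.1 hp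
    have h5 := wt_key (1 / 4) (by norm_num) (by norm_num) t p.2
    have h6 := h.le_one p.1
    have h7 := h.nonneg p.1
    have h8 : ‖(2 : ℂ)‖ = 2 := by norm_num
    rw [h8]
    calc ‖hh H p.2 p.1‖ * (2 * ‖ray psi (t + 2 * Real.pi * p.2) ξ p.1‖)
        ≤ (2 * 1 / (1 + |p.2|)) * (2 * (K * (1 + |t + 2 * Real.pi * p.2|) ^ (-(1 / 2) : ℝ))) := by
          gcongr
          exact h3.trans (by gcongr)
      _ = 4 * K * ((1 + |p.2|)⁻¹ * (1 + |t + 2 * Real.pi * p.2|) ^ (-(1 / 2) : ℝ)) := by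
          rw [div_eq_mul_inv]
          ring
      _ ≤ 4 * K * ((4 * Real.pi) ^ (1 / 2 : ℝ) * (1 + |t|) ^ (-(1 / 2 - 1 / 4 : ℝ)) * wt (1 / 4) t p.2) := by
          gcongr
      _ = _ := by ring
  have h1 : PP H t ξ = ∫ β, JJ H t β ξ := by
    calc PP H t ξ = ∫ θ in AA, ∫ β, G θ β := by
          unfold PP
          refine setIntegral_congr_fun AA_meas fun θ hθ => ?_
          exact repr_ray h t ξ θ hθ
      _ = ∫ β, ∫ θ in AA, G θ β := integral_integral_swap hint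
      _ = _ := by
          refine integral_congr_ae (Eventually.of_forall fun β => ?_)
          simp only [hG]
          unfold JJ
          rw [PP_Hb, ← integral_const_mul]
          refine integral_congr_ae (Eventually.of_forall fun θ => ?_)
          simp only
          ring
  rw [h1]
  exact enorm_integral_le_lintegral_enorm _

/-- **The fixed time estimate for normalised pieces** -/
theorem PP_Lq (q : ℝ) (hq : 4 < q) (ε : ℝ) (h0 : 0 < ε) (h1 : ε < 1 / 2) : ∃ C : ℝ≥0∞, C ≠ ∞ ∧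
    ∀ (H : ℝ → ℝ → ℂ) (M : ℝ → ℝ), UP H M → ∀ t : ℝ, ∫⁻ ξ, ‖PP H t ξ‖ₑ ^ q ≤
      C * ENNReal.ofReal ((1 + |t|) ^ (-((1 / 2 - ε) * q))) *
        (∫⁻ θ in AA, ENNReal.ofReal (M θ) ^ 4) ^ (q / 4) := by
  obtain ⟨C0, hC0, hC⟩ := base q hq
  obtain ⟨J, hJt, hJ⟩ := wt_int ε h0
  set c : ℝ := 2 * (4 * Real.pi) ^ (1 / 2 : ℝ) with hc
  refine ⟨J ^ q * (C0 * ENNReal.ofReal c ^ q), ?_, ?_⟩
  · exact ENNReal.mul_ne_top (ENNReal.rpow_ne_top_of_nonneg (by linarith) hJt)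
      (ENNReal.mul_ne_top hC0 (ENNReal.rpow_ne_top_of_nonneg (by linarith) ENNReal.ofReal_ne_top))
  intro H M h t
  have hq0 : 0 < q := by linarith
  set D := ∫⁻ θ in AA, ENNReal.ofReal (M θ) ^ 4 with hD
  set W : ℝ → ℝ≥0∞ := fun β => ENNReal.ofReal (wt ε t β) with hW
  have hWm : Measurable W := (wt_meas ε t).ennreal_ofReal
  have hW0 : ∀ β, W β ≠ 0 := fun β => by
    rw [hW]
    simp only [ne_eq, ENNReal.ofReal_eq_zero, not_le]
    exact wt_pos ε t β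
  have hWt : ∀ β, W β ≠ ∞ := fun β => ENNReal.ofReal_ne_top
  have hJm := JJ_meas h.meas t
  have hm2 : Measurable fun p : ℂ × ℝ => W p.2 * (‖JJ H t p.2 p.1‖ₑ / W p.2) ^ q := by
    refine (hWm.comp measurable_snd).mul (Measurable.pow_const ?_ q)
    refine Measurable.div ?_ (hWm.comp measurable_snd)
    exact (hJm.comp (measurable_snd.prodMk measurable_fst)).enorm
  set Sc : ℝ≥0∞ := ENNReal.ofReal (c * (1 + |t|) ^ (-(1 / 2 - ε))) with hSc
  have hJb : ∀ β, ∫⁻ ξ, ‖JJ H t β ξ‖ₑ ^ q ≤ C0 * D ^ (q / 4) * (Sc * W β) ^ q := by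
    intro β
    have h2 := hC (hh H β) ((hh_meas h.meas).comp (measurable_const.prodMk measurable_id))
      ⟨2, fun θ => by
        refine (hh_bound h β θ).trans ?_
        rw [div_le_iff₀ (by positivity)]
        have := h.le_one θ
        nlinarith [abs_nonneg β]⟩ (t + 2 * Real.pi * β)
    refine h2.trans ?_
    have h3 : (∫⁻ θ in AA, ‖hh H β θ‖ₑ ^ 4) ^ (q / 4) ≤ ENNReal.ofReal (2 * (1 + |β|)⁻¹) ^ q * D ^ (q / 4) := by
      have h4 : ∫⁻ θ in AA, ‖hh H β θ‖ₑ ^ 4 ≤ ENNReal.ofReal (2 * (1 + |β|)⁻¹) ^ 4 * D := by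
        rw [hD, ← lintegral_const_mul' _ _ (ENNReal.pow_ne_top ENNReal.ofReal_ne_top)]
        refine lintegral_mono fun θ => ?_
        try simp only
        rw [← mul_pow, ← ENNReal.ofReal_mul (by positivity)]
        gcongr
        rw [← ofReal_norm]
        refine ENNReal.ofReal_le_ofReal ((hh_bound h β θ).trans (le_of_eq ?_))
        rw [div_eq_mul_inv]
        ring
      refine (ENNReal.rpow_le_rpow h4 (by positivity)).trans (le_of_eq ?_)
      rw [ENNReal.mul_rpow_of_nonneg _ _ (by positivity), ← ENNReal.rpow_natCast, ← ENNReal.rpow_mul]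
      congr 2
      push_cast
      ring
    have h5 : ENNReal.ofReal ((1 + |t + 2 * Real.pi * β|) ^ (-(q / 2))) =
        ENNReal.ofReal ((1 + |t + 2 * Real.pi * β|) ^ (-(1 / 2) : ℝ)) ^ q := by
      rw [ENNReal.ofReal_rpow_of_nonneg (by positivity) hq0.le, ← Real.rpow_mul (by positivity)]
      congr 2
      ring
    have h6 : ENNReal.ofReal ((1 + |t + 2 * Real.pi * β|) ^ (-(1 / 2) : ℝ)) * ENNReal.ofReal (2 * (1 + |β|)⁻¹) ≤
        Sc * W β := by
      rw [← ENNReal.ofReal_mul (by positivity), hSc, hW]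
      simp only
      rw [← ENNReal.ofReal_mul (by positivity)]
      refine ENNReal.ofReal_le_ofReal ?_
      have := wt_key ε h0 h1 t β
      rw [hc]
      nlinarith
    calc C0 * ENNReal.ofReal ((1 + |t + 2 * Real.pi * β|) ^ (-(q / 2))) * (∫⁻ θ in AA, ‖hh H β θ‖ₑ ^ 4) ^ (q / 4)
        ≤ C0 * ENNReal.ofReal ((1 + |t + 2 * Real.pi * β|) ^ (-(1 / 2) : ℝ)) ^ q *
          (ENNReal.ofReal (2 * (1 + |β|)⁻¹) ^ q * D ^ (q / 4)) := by
          rw [h5]
          gcongr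
      _ = C0 * D ^ (q / 4) * (ENNReal.ofReal ((1 + |t + 2 * Real.pi * β|) ^ (-(1 / 2) : ℝ)) *
          ENNReal.ofReal (2 * (1 + |β|)⁻¹)) ^ q := by
          rw [ENNReal.mul_rpow_of_nonneg _ _ hq0.le]
          ring
      _ ≤ _ := by gcongr
  calc ∫⁻ ξ, ‖PP H t ξ‖ₑ ^ q ≤ ∫⁻ ξ, (∫⁻ β, W β) ^ (q - 1) * ∫⁻ β, W β * (‖JJ H t β ξ‖ₑ / W β) ^ q := by
        refine lintegral_mono fun ξ => ?_
        refine (ENNReal.rpow_le_rpow (PP_le h t ξ) hq0.le).trans ?_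
        exact jens2 volume W (fun β => ‖JJ H t β ξ‖ₑ) hWm.aemeasurable
          ((hJm.comp (measurable_id.prodMk measurable_const)).enorm).aemeasurable hW0 hWt q (by linarith)
    _ = (∫⁻ β, W β) ^ (q - 1) * ∫⁻ β, ∫⁻ ξ, W β * (‖JJ H t β ξ‖ₑ / W β) ^ q := by
        rw [lintegral_const_mul _ hm2.lintegral_prod_right', lintegral_lintegral_swap hm2.aemeasurable]
    _ ≤ (∫⁻ β, W β) ^ (q - 1) * ∫⁻ β, W β * (C0 * D ^ (q / 4) * Sc ^ q) := by
        gcongr with β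
        have h7 : ∀ ξ, W β * (‖JJ H t β ξ‖ₑ / W β) ^ q = (W β / W β ^ q) * ‖JJ H t β ξ‖ₑ ^ q := by
          intro ξ
          rw [ENNReal.div_rpow_of_nonneg _ _ hq0.le]
          simp only [div_eq_mul_inv]
          ring
        simp_rw [h7]
        have h8 : W β ^ q ≠ 0 := by
          rw [Ne, ENNReal.rpow_eq_zero_iff]
          push Not
          exact ⟨fun h => absurd h (hW0 β), fun h => absurd h (hWt β)⟩
        have h9 : W β ^ q ≠ ∞ := ENNReal.rpow_ne_top_of_nonneg hq0.le (hWt β)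
        rw [lintegral_const_mul' _ _ (ENNReal.div_ne_top (hWt β) h8)]
        calc W β / W β ^ q * ∫⁻ ξ, ‖JJ H t β ξ‖ₑ ^ q
            ≤ W β / W β ^ q * (C0 * D ^ (q / 4) * (Sc * W β) ^ q) := by
              gcongr
              exact hJb β
          _ = W β * (C0 * D ^ (q / 4) * Sc ^ q) * (W β ^ q / W β ^ q) := by
              rw [ENNReal.mul_rpow_of_nonneg _ _ hq0.le]
              simp only [div_eq_mul_inv]
              ring
          _ = _ := by rw [ENNReal.div_self h8 h9, mul_one]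
    _ = (∫⁻ β, W β) ^ q * (C0 * D ^ (q / 4) * Sc ^ q) := by
        rw [lintegral_mul_const _ hWm, ← mul_assoc]
        congr 1
        nth_rewrite 2 [← ENNReal.rpow_one (∫⁻ β, W β)]
        rw [← ENNReal.rpow_add_of_nonneg _ _ (by linarith) (by norm_num), sub_add_cancel]
    _ ≤ J ^ q * (C0 * D ^ (q / 4) * Sc ^ q) := by
        gcongr
        exact hJ t
    _ = _ := by
        rw [hSc, ENNReal.ofReal_mul (by positivity), ENNReal.mul_rpow_of_nonneg _ _ hq0.le,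
          ENNReal.ofReal_rpow_of_nonneg (by positivity : 0 ≤ (1 + |t|) ^ (-(1 / 2 - ε))) hq0.le,
          ← Real.rpow_mul (by positivity), show -(1 / 2 - ε) * q = -((1 / 2 - ε) * q) by ring]
        ring

end Run7.h783.RV
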