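import Mathlib
import Pool.Agent.Run7.h783.RV.Freq2
set_option autoImplicit false

/-! # Fixed time estimates for annular pieces -/

namespace Run7.h783.RV

open MeasureTheory Set Complex Filter Topology
open scoped ENNReal NNReal RealInnerProductSpace

/-- a geometric sum of functions -/
theorem geo_sum (q : ℝ) (hq : 1 < q) (ρ : ℝ) (h0 : 0 < ρ) (h1 : ρ < 1) : ∃ C : ℝ≥0∞, C ≠ ∞ ∧
    ∀ {α : Type} [MeasurableSpace α] (μ : Measure α) (F : ℕ → α → ℝ≥0∞) (A : ℝ≥0∞),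
      (∀ n, Measurable (F n)) → (∀ n, ∫⁻ x, F n x ^ q ∂μ ≤ A * ENNReal.ofReal (ρ ^ n)) →
      ∫⁻ x, (∑' n, F n x) ^ q ∂μ ≤ C * A := by
  have hq0 : 0 < q := by linarith
  set σ : ℝ := ρ ^ (1 / (2 * q)) with hσ
  have hσ0 : 0 < σ := Real.rpow_pos_of_pos h0 _
  have hσ1 : σ < 1 := Real.rpow_lt_one h0.le h1 (by positivity)
  have hσq : σ ^ q = ρ ^ (1 / 2 : ℝ) := by
    rw [hσ, ← Real.rpow_mul h0.le]
    congr 1
    field_simp
  set W : ℕ → ℝ≥0∞ := fun n => ENNReal.ofReal (σ ^ n) with hW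
  have hW0 : ∀ n, W n ≠ 0 := fun n => by
    rw [hW]
    simp only [ne_eq, ENNReal.ofReal_eq_zero, not_le]
    positivity
  have hWt : ∀ n, W n ≠ ∞ := fun n => ENNReal.ofReal_ne_top
  have hWs : ∑' n, W n ≠ ∞ := by
    have h2 : Summable fun n : ℕ => σ ^ n := summable_geometric_of_lt_one hσ0.le hσ1
    rw [hW, ← ENNReal.ofReal_tsum_of_nonneg (fun n => by positivity) h2]
    exact ENNReal.ofReal_ne_top
  refine ⟨(∑' n, W n) ^ (q - 1) * ∑' n, W n, ENNReal.mul_ne_top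
    (ENNReal.rpow_ne_top_of_nonneg (by linarith) hWs) hWs, ?_⟩
  intro α _ μ F A hF hA
  have h2 : ∀ x, (∑' n, F n x) ^ q ≤ (∑' n, W n) ^ (q - 1) * ∑' n, W n * (F n x / W n) ^ q := by
    intro x
    have := jens2 (Measure.count : Measure ℕ) W (fun n => F n x)
      (measurable_of_countable _).aemeasurable (measurable_of_countable _).aemeasurable hW0 hWt q hq
    simpa only [lintegral_count] using this
  have hWq0 : ∀ n, W n ^ q ≠ 0 := fun n => by
    rw [Ne, ENNReal.rpow_eq_zero_iff]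
    push Not
    exact ⟨fun h => absurd h (hW0 n), fun h => absurd h (hWt n)⟩
  have h3 : ∀ n x, W n * (F n x / W n) ^ q = (W n / W n ^ q) * F n x ^ q := by
    intro n x
    rw [ENNReal.div_rpow_of_nonneg _ _ hq0.le]
    simp only [div_eq_mul_inv]
    ring
  have h4 : ∀ n, (W n / W n ^ q) * ENNReal.ofReal (ρ ^ n) ≤ W n := by
    intro n
    have h5 : ENNReal.ofReal (ρ ^ n) ≤ W n ^ q := by
      rw [hW]
      simp only
      rw [ENNReal.ofReal_rpow_of_nonneg (by positivity) hq0.le]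
      refine ENNReal.ofReal_le_ofReal ?_
      rw [← Real.rpow_natCast σ n, ← Real.rpow_mul hσ0.le, mul_comm, Real.rpow_mul hσ0.le, hσq,
        ← Real.rpow_mul h0.le, ← Real.rpow_natCast ρ n]
      refine Real.rpow_le_rpow_of_exponent_ge h0 h1.le ?_
      have : (0 : ℝ) ≤ n := Nat.cast_nonneg n
      linarith
    calc (W n / W n ^ q) * ENNReal.ofReal (ρ ^ n) ≤ (W n / W n ^ q) * W n ^ q := by gcongr
      _ = W n := by
          rw [ENNReal.div_mul_cancel (hWq0 n) (ENNReal.rpow_ne_top_of_nonneg hq0.le (hWt n))]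
  calc ∫⁻ x, (∑' n, F n x) ^ q ∂μ
      ≤ ∫⁻ x, (∑' n, W n) ^ (q - 1) * ∑' n, (W n / W n ^ q) * F n x ^ q ∂μ := by
        refine lintegral_mono fun x => (h2 x).trans (le_of_eq ?_)
        simp_rw [h3]
    _ = (∑' n, W n) ^ (q - 1) * ∑' n, (W n / W n ^ q) * ∫⁻ x, F n x ^ q ∂μ := by
        rw [lintegral_const_mul' _ _ (ENNReal.rpow_ne_top_of_nonneg (by linarith) hWs),
          lintegral_tsum (fun n => (((hF n).pow_const q).const_mul _).aemeasurable)]
        congr 1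
        refine tsum_congr fun n => ?_
        rw [lintegral_const_mul _ ((hF n).pow_const q)]
    _ ≤ (∑' n, W n) ^ (q - 1) * ∑' n, W n * A := by
        refine mul_le_mul' le_rfl (ENNReal.tsum_le_tsum fun n => ?_)
        calc (W n / W n ^ q) * ∫⁻ x, F n x ^ q ∂μ
            ≤ (W n / W n ^ q) * (A * ENNReal.ofReal (ρ ^ n)) := by gcongr; exact hA n
          _ = ((W n / W n ^ q) * ENNReal.ofReal (ρ ^ n)) * A := by ring
          _ ≤ W n * A := by gcongr; exact h4 n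
    _ = _ := by
        rw [ENNReal.tsum_mul_right, mul_assoc]

theorem PP_meas (H : ℝ → ℝ → ℂ) (hH : Measurable (Function.uncurry H)) :
    Measurable fun p : ℝ × ℂ => PP H p.1 p.2 := by
  unfold PP
  refine StronglyMeasurable.measurable ?_
  refine StronglyMeasurable.integral_prod_right (f := fun (p : ℝ × ℂ) (θ : ℝ) =>
    ∫ s in Ioi (0 : ℝ), H s θ * cexp (((-(√s * aa θ p.2 + p.1 * s) : ℝ) : ℂ) * I)) ?_
  refine StronglyMeasurable.integral_prod_right (f := fun (x : (ℝ × ℂ) × ℝ) (s : ℝ) =>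
    H s x.2 * cexp (((-(√s * aa x.2 x.1.2 + x.1.1 * s) : ℝ) : ℂ) * I)) ?_
  refine Measurable.stronglyMeasurable ?_
  have h1 : Measurable fun y : ((ℝ × ℂ) × ℝ) × ℝ => H y.2 y.1.2 :=
    hH.comp (measurable_snd.prodMk (measurable_snd.comp measurable_fst))
  have h2 : Continuous fun y : ((ℝ × ℂ) × ℝ) × ℝ =>
      cexp (((-(√y.2 * aa y.1.2 y.1.1.2 + y.1.1.1 * y.2) : ℝ) : ℂ) * I) := by
    unfold aa
    fun_prop
  exact h1.mul h2.measurable

theorem PP_meas' (H : ℝ → ℝ → ℂ) (hH : Measurable (Function.uncurry H)) (t : ℝ) :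
    Measurable (PP H t) := by
  have h1 : Measurable fun ξ : ℂ => ((t, ξ) : ℝ × ℂ) := measurable_prodMk_left
  have h2 := (PP_meas H hH).comp h1
  simp only [Function.comp_def] at h2
  exact h2

/-- interpolation -/
theorem interp {α : Type*} [MeasurableSpace α] (μ : Measure α) (f : α → ℝ≥0∞) (hf : Measurable f)
    (q p : ℝ) (h1 : 2 < q) (h2 : q < p) :
    ∫⁻ x, f x ^ q ∂μ ≤ (∫⁻ x, f x ^ 2 ∂μ) ^ ((p - q) / (p - 2)) *
      (∫⁻ x, f x ^ p ∂μ) ^ ((q - 2) / (p - 2)) := by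
  have hp : 0 < p - 2 := by linarith
  have h := ENNReal.lintegral_mul_norm_pow_le (μ := μ) (f := fun x => f x ^ 2) (g := fun x => f x ^ p)
    (hf.pow_const 2).aemeasurable (hf.pow_const p).aemeasurable
    (p := (p - q) / (p - 2)) (q := (q - 2) / (p - 2)) (by
      exact div_nonneg (by linarith) hp.le) (div_nonneg (by linarith) hp.le) (by
      rw [← add_div, div_eq_one_iff_eq hp.ne']; ring)
  refine le_trans (le_of_eq ?_) h
  refine lintegral_congr fun x => ?_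
  try simp only
  rw [← ENNReal.rpow_natCast, ← ENNReal.rpow_mul, ← ENNReal.rpow_mul, ← ENNReal.rpow_add_of_nonneg]
  · congr 1
    push_cast
    field_simp
    ring
  · have := div_nonneg (by linarith : 0 ≤ p - q) hp.le
    push_cast
    linarith
  · exact mul_nonneg (by linarith) (div_nonneg (by linarith) hp.le)

theorem choose_eta (q κ : ℝ) (hκ : κ < q - 2) : ∃ η : ℝ, 0 < η ∧ η < 1 / 2 ∧
    κ ≤ (1 / 2 - η) * (4 + η) * ((q - 2) / (4 + η - 2)) := by
  have h1 : ContinuousAt (fun η : ℝ => (1 / 2 - η) * (4 + η) * ((q - 2) / (4 + η - 2))) 0 := by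
    refine ContinuousAt.mul (by fun_prop) ?_
    exact ContinuousAt.div (by fun_prop) (by fun_prop) (by norm_num)
  have h2 : κ < (fun η : ℝ => (1 / 2 - η) * (4 + η) * ((q - 2) / (4 + η - 2))) 0 := by
    norm_num
    linarith
  have h3 := h1.eventually (lt_mem_nhds h2)
  have h4 : ∀ᶠ η : ℝ in 𝓝 0, η < 1 / 2 := gt_mem_nhds (by norm_num)
  have h5 : ∀ᶠ η : ℝ in 𝓝[>] 0, 0 < η := self_mem_nhdsWithin
  have h6 := ((h3.and h4).filter_mono nhdsWithin_le_nhds).and h5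
  obtain ⟨η, ⟨h7, h8⟩, h9⟩ := h6.exists
  exact ⟨η, h9, h8, h7.le⟩

/-- **Fixed time estimate for a normalised piece over a set of directions** -/
theorem piece (q κ : ℝ) (hq : 2 < q) (hq4 : q < 4) (hκ : κ < q - 2) : ∃ E0 : ℝ, 1 < E0 ∧
    ∃ C : ℝ≥0∞, C ≠ ∞ ∧ ∀ (H : ℝ → ℝ → ℂ) (M : ℝ → ℝ) (Θ : Set ℝ), UP H M → MeasurableSet Θ →
    (∀ θ, θ ∉ Θ → M θ = 0) → ∀ t : ℝ, ∫⁻ ξ, ‖PP H t ξ‖ₑ ^ q ≤
      C * ENNReal.ofReal ((1 + |t|) ^ (-κ)) * (volume (Θ ∩ AA)) ^ E0 := by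
  obtain ⟨η, hη0, hη1, hη2⟩ := choose_eta q κ hκ
  set p : ℝ := 4 + η with hp
  have hp4 : 4 < p := by rw [hp]; linarith
  have hp2 : 0 < p - 2 := by linarith
  obtain ⟨C, hCt, hC⟩ := PP_Lq p hp4 η hη0 hη1
  set a : ℝ := (p - q) / (p - 2) with ha
  set c : ℝ := (q - 2) / (p - 2) with hc
  have ha0 : 0 < a := div_pos (by linarith) hp2
  have hc0 : 0 < c := div_pos (by linarith) hp2
  have hac : a + c = 1 := by
    rw [ha, hc, ← add_div, div_eq_one_iff_eq hp2.ne']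
    ring
  refine ⟨a + p / 4 * c, ?_, ENNReal.ofReal (8 * Real.pi ^ 2) ^ a * C ^ c, ?_, ?_⟩
  · nlinarith
  · exact ENNReal.mul_ne_top (ENNReal.rpow_ne_top_of_nonneg ha0.le ENNReal.ofReal_ne_top)
      (ENNReal.rpow_ne_top_of_nonneg hc0.le hCt)
  intro H M Θ h hΘ hM t
  set δ := volume (Θ ∩ AA) with hδ
  have hMl : ∀ k : ℕ, k ≠ 0 → ∫⁻ θ in AA, ENNReal.ofReal (M θ) ^ k ≤ δ := by
    intro k hk
    calc ∫⁻ θ in AA, ENNReal.ofReal (M θ) ^ k ≤ ∫⁻ θ in AA, Θ.indicator 1 θ := by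
          refine lintegral_mono fun θ => ?_
          try simp only
          by_cases hθ : θ ∈ Θ
          · rw [indicator_of_mem hθ]
            refine pow_le_one₀ zero_le ?_
            rw [← ENNReal.ofReal_one]
            exact ENNReal.ofReal_le_ofReal (h.le_one θ)
          · rw [indicator_of_notMem hθ, hM θ hθ, ENNReal.ofReal_zero, zero_pow hk]
      _ = δ := by
          rw [lintegral_indicator_one hΘ, Measure.restrict_apply hΘ]
  have h2 : ∫⁻ ξ, ‖PP H t ξ‖ₑ ^ 2 ≤ ENNReal.ofReal (8 * Real.pi ^ 2) * δ := by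
    rw [PP_l2 H h.meas 1 1 (fun s θ => (h.bd s θ).trans (h.le_one θ)) (fun s θ hs => h.supp s θ
      (fun hs' => absurd hs'.2 (not_le.2 hs))) t]
    gcongr
    refine le_trans ?_ (hMl 2 (by norm_num))
    refine lintegral_mono fun θ => ?_
    calc ∫⁻ s in Ioi (0 : ℝ), ‖H s θ‖ₑ ^ 2
        ≤ ∫⁻ s, (Ioc (1 / 4 : ℝ) 1).indicator (fun _ => ENNReal.ofReal (M θ) ^ 2) s := by
          refine (setLIntegral_le_lintegral _ _).trans ?_
          refine lintegral_mono fun s => ?_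
          by_cases hs : s ∈ Ioc (1 / 4 : ℝ) 1
          · rw [indicator_of_mem hs, ← ofReal_norm]
            gcongr
            exact h.bd s θ
          · rw [h.supp s θ hs]
            simp
      _ ≤ _ := by
          rw [lintegral_indicator_const measurableSet_Ioc, Real.volume_Ioc]
          refine mul_le_of_le_one_right zero_le ?_
          rw [← ENNReal.ofReal_one]
          exact ENNReal.ofReal_le_ofReal (by norm_num)
  have h3 : ∫⁻ ξ, ‖PP H t ξ‖ₑ ^ p ≤ C * ENNReal.ofReal ((1 + |t|) ^ (-((1 / 2 - η) * p))) *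
      δ ^ (p / 4) := by
    refine (hC H M h t).trans ?_
    gcongr
    exact hMl 4 (by norm_num)
  have hTe : ENNReal.ofReal ((1 + |t|) ^ (-((1 / 2 - η) * p))) ^ c ≤ ENNReal.ofReal ((1 + |t|) ^ (-κ)) := by
    rw [ENNReal.ofReal_rpow_of_nonneg (by positivity) hc0.le, ← Real.rpow_mul (by positivity)]
    refine ENNReal.ofReal_le_ofReal ?_
    refine Real.rpow_le_rpow_of_exponent_le (by linarith [abs_nonneg t]) ?_
    rw [neg_mul, neg_le_neg_iff]
    exact hη2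
  calc ∫⁻ ξ, ‖PP H t ξ‖ₑ ^ q ≤ (∫⁻ ξ, ‖PP H t ξ‖ₑ ^ 2) ^ a * (∫⁻ ξ, ‖PP H t ξ‖ₑ ^ p) ^ c :=
        interp volume _ (PP_meas' H h.meas t).enorm q p hq (by linarith)
    _ ≤ (ENNReal.ofReal (8 * Real.pi ^ 2) * δ) ^ a * (C * ENNReal.ofReal ((1 + |t|) ^ (-((1 / 2 - η) * p))) *
      δ ^ (p / 4)) ^ c := by gcongr
    _ = ENNReal.ofReal (8 * Real.pi ^ 2) ^ a * C ^ c *
          ENNReal.ofReal ((1 + |t|) ^ (-((1 / 2 - η) * p))) ^ c * (δ ^ a * δ ^ (p / 4 * c)) := by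
        rw [ENNReal.mul_rpow_of_nonneg _ _ ha0.le, ENNReal.mul_rpow_of_nonneg _ _ hc0.le,
          ENNReal.mul_rpow_of_nonneg _ _ hc0.le, ← ENNReal.rpow_mul]
        ring
    _ ≤ _ := by
        rw [ENNReal.rpow_add_of_nonneg _ _ ha0.le (by positivity)]
        gcongr

end Run7.h783.RV
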