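import Mathlib
import Pool.Agent.Run7.h783.RV.Piece
set_option autoImplicit false

/-! # Annular pieces of arbitrary size -/

namespace Run7.h783.RV

open MeasureTheory Set Complex Filter Topology
open scoped ENNReal NNReal RealInnerProductSpace

/-- annular pieces -/
structure AP (V : ℝ → ℝ → ℂ) (M : ℝ → ℝ) : Prop where
  meas : Measurable (Function.uncurry V)
  measM : Measurable M
  nonneg : ∀ θ, 0 ≤ M θ
  supp : ∀ s θ, s ∉ Ioc (1 / 4 : ℝ) 1 → V s θ = 0
  bd : ∀ s θ, ‖V s θ‖ ≤ M θ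
  mod : ∀ δ, 0 < δ → ∀ θ, ∫⁻ s, ‖V (s + δ) θ - V s θ‖ₑ ≤ ENNReal.ofReal (3 * δ * M θ)

variable {V : ℝ → ℝ → ℂ} {M : ℝ → ℝ}

/-- the level sets -/
def lev (M : ℝ → ℝ) (c : ℝ) (j : ℕ) : Set ℝ := {θ | (j = 0 ∨ 2 ^ j * c / 2 < M θ) ∧ M θ ≤ 2 ^ j * c}

theorem lev_meas (hM : Measurable M) (c : ℝ) (j : ℕ) : MeasurableSet (lev M c j) := by
  unfold lev
  refine MeasurableSet.inter ?_ (measurableSet_le hM measurable_const)
  by_cases hj : j = 0
  · have : {θ : ℝ | j = 0 ∨ 2 ^ j * c / 2 < M θ} = univ := by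
      ext; simp [hj]
    change MeasurableSet {θ : ℝ | j = 0 ∨ 2 ^ j * c / 2 < M θ}
    rw [this]
    exact MeasurableSet.univ
  · have : {θ : ℝ | j = 0 ∨ 2 ^ j * c / 2 < M θ} = {θ : ℝ | 2 ^ j * c / 2 < M θ} := by
      ext; simp [hj]
    change MeasurableSet {θ : ℝ | j = 0 ∨ 2 ^ j * c / 2 < M θ}
    rw [this]
    exact measurableSet_lt measurable_const hM

theorem lev_union (c : ℝ) (hc : 0 < c) : ⋃ j, lev M c j = univ := by
  rw [eq_univ_iff_forall]
  intro θ
  rw [mem_iUnion]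
  have hex : ∃ j : ℕ, M θ ≤ 2 ^ j * c := by
    obtain ⟨n, hn⟩ := pow_unbounded_of_one_lt (M θ / c) (by norm_num : (1 : ℝ) < 2)
    exact ⟨n, by rw [div_lt_iff₀ hc] at hn; exact hn.le⟩
  classical
  refine ⟨Nat.find hex, ?_, Nat.find_spec hex⟩
  by_cases h0 : Nat.find hex = 0
  · exact Or.inl h0
  · right
    obtain ⟨m, hm⟩ := Nat.exists_eq_succ_of_ne_zero h0
    have h1 := Nat.find_min hex (m := m) (by omega)
    rw [hm, pow_succ]
    rw [not_le] at h1
    linarith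

theorem lev_disj (c : ℝ) (hc : 0 < c) : Pairwise (Function.onFun Disjoint (lev M c)) := by
  have key : ∀ i j : ℕ, i < j → Disjoint (lev M c i) (lev M c j) := by
    intro i j hij
    rw [Set.disjoint_left]
    rintro θ ⟨_, h1⟩ ⟨h2, _⟩
    rcases h2 with h2 | h2
    · omega
    · have h3 : (2 : ℝ) ^ i * 2 ≤ 2 ^ j := by
        rw [← pow_succ]
        exact pow_le_pow_right₀ (by norm_num) (by omega)
      nlinarith
  intro i j hij
  rcases lt_or_gt_of_ne hij with h | h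
  · exact key i j h
  · exact (key j i h).symm

/-- the normalised pieces -/
noncomputable def nV (V : ℝ → ℝ → ℂ) (Θ : Set ℝ) (c : ℝ) (s θ : ℝ) : ℂ :=
  Θ.indicator (fun θ => V s θ / (c : ℂ)) θ

/-- the normalised bounds -/
noncomputable def nM (M : ℝ → ℝ) (Θ : Set ℝ) (c : ℝ) (θ : ℝ) : ℝ := Θ.indicator (fun θ => M θ / c) θ

theorem AP.up (h : AP V M) (Θ : Set ℝ) (hΘ : MeasurableSet Θ) (c : ℝ) (hc : 0 < c)
    (hb : ∀ θ ∈ Θ, M θ ≤ c) : UP (nV V Θ c) (nM M Θ c) := by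
  refine ⟨?_, ?_, ?_, ?_, ?_, ?_, ?_⟩
  · have h1 : Function.uncurry (nV V Θ c) = (Prod.snd ⁻¹' Θ).indicator
        (fun p : ℝ × ℝ => V p.1 p.2 / (c : ℂ)) := by
      funext p
      unfold nV Function.uncurry
      rfl
    rw [h1]
    exact (h.meas.div_const _).indicator (measurable_snd hΘ)
  · exact (h.measM.div_const c).indicator hΘ
  · intro θ
    unfold nM
    exact indicator_nonneg (fun θ _ => div_nonneg (h.nonneg θ) hc.le) θ
  · intro θ
    unfold nM
    by_cases hθ : θ ∈ Θ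
    · rw [indicator_of_mem hθ, div_le_one hc]
      exact hb θ hθ
    · rw [indicator_of_notMem hθ]
      exact zero_le_one
  · intro s θ hs
    unfold nV
    by_cases hθ : θ ∈ Θ
    · rw [indicator_of_mem hθ, h.supp s θ hs, zero_div]
    · rw [indicator_of_notMem hθ]
  · intro s θ
    unfold nV nM
    by_cases hθ : θ ∈ Θ
    · rw [indicator_of_mem hθ, indicator_of_mem hθ, norm_div, Complex.norm_real,
        Real.norm_of_nonneg hc.le]
      exact div_le_div_of_nonneg_right (h.bd s θ) hc.le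
    · rw [indicator_of_notMem hθ, indicator_of_notMem hθ, norm_zero]
  · intro δ hδ θ
    unfold nV nM
    by_cases hθ : θ ∈ Θ
    · simp only [indicator_of_mem hθ]
      have h1 : ∀ s, ‖V (s + δ) θ / (c : ℂ) - V s θ / (c : ℂ)‖ₑ = ENNReal.ofReal (c⁻¹) *
          ‖V (s + δ) θ - V s θ‖ₑ := by
        intro s
        rw [← sub_div, div_eq_mul_inv, mul_comm, enorm_mul]
        congr 1
        rw [← ofReal_norm, norm_inv, Complex.norm_real, Real.norm_of_nonneg hc.le]
      simp_rw [h1]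
      rw [lintegral_const_mul' _ _ ENNReal.ofReal_ne_top]
      calc ENNReal.ofReal c⁻¹ * ∫⁻ s, ‖V (s + δ) θ - V s θ‖ₑ
          ≤ ENNReal.ofReal c⁻¹ * ENNReal.ofReal (3 * δ * M θ) := by
            gcongr
            exact h.mod δ hδ θ
        _ = _ := by
            rw [← ENNReal.ofReal_mul (by positivity)]
            congr 1
            field_simp
    · simp only [indicator_of_notMem hθ]
      simp

theorem AP.inner_le (h : AP V M) (θ : ℝ) (g : ℝ → ℂ) (hg : ∀ s, ‖g s‖ = 1) :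
    ∫⁻ s in Ioi (0 : ℝ), ‖V s θ * g s‖ₑ ≤ ENNReal.ofReal (M θ) := by
  calc ∫⁻ s in Ioi (0 : ℝ), ‖V s θ * g s‖ₑ
      ≤ ∫⁻ s, (Ioc (1 / 4 : ℝ) 1).indicator (fun _ => ENNReal.ofReal (M θ)) s := by
        refine (setLIntegral_le_lintegral _ _).trans ?_
        refine lintegral_mono fun s => ?_
        by_cases hs : s ∈ Ioc (1 / 4 : ℝ) 1
        · rw [indicator_of_mem hs, ← ofReal_norm, norm_mul, hg, mul_one]
          exact ENNReal.ofReal_le_ofReal (h.bd s θ)
        · rw [h.supp s θ hs]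
          simp
    _ = ENNReal.ofReal (M θ) * ENNReal.ofReal (1 - 1 / 4) := by
        rw [lintegral_indicator_const measurableSet_Ioc, Real.volume_Ioc]
    _ ≤ _ := by
        refine mul_le_of_le_one_right zero_le ?_
        rw [← ENNReal.ofReal_one]
        exact ENNReal.ofReal_le_ofReal (by norm_num)

/-- decomposition into level sets -/
theorem AP.split (h : AP V M) (c : ℝ) (hc : 0 < c) (hM : ∫⁻ θ in AA, ENNReal.ofReal (M θ) ≠ ∞)
    (t : ℝ) (ξ : ℂ) : ‖PP V t ξ‖ₑ ≤ ∑' j : ℕ, ENNReal.ofReal (2 ^ j * c) *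
      ‖PP (nV V (lev M c j) (2 ^ j * c)) t ξ‖ₑ := by
  set e : ℝ → ℝ → ℂ := fun s θ => cexp (((-(√s * aa θ ξ + t * s) : ℝ) : ℂ) * I) with he
  set G : ℝ → ℂ := fun θ => ∫ s in Ioi (0 : ℝ), V s θ * e s θ with hG
  have hGm : StronglyMeasurable G := by
    refine StronglyMeasurable.integral_prod_right (f := fun (θ : ℝ) (s : ℝ) => V s θ * e s θ) ?_
    refine Measurable.stronglyMeasurable ?_
    have h1 : Measurable fun p : ℝ × ℝ => V p.2 p.1 :=
      h.meas.comp (measurable_snd.prodMk measurable_fst)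
    have h2 : Continuous fun p : ℝ × ℝ => e p.2 p.1 := by
      rw [he]
      unfold aa
      fun_prop
    exact h1.mul h2.measurable
  have hGb : ∀ θ, ‖G θ‖ₑ ≤ ENNReal.ofReal (M θ) := fun θ =>
    (enorm_integral_le_lintegral_enorm _).trans (h.inner_le θ (fun s => e s θ)
      (fun s => Complex.norm_exp_ofReal_mul_I _))
  have hGi : IntegrableOn G AA := by
    refine ⟨hGm.aestronglyMeasurable, ?_⟩
    exact lt_of_le_of_lt (lintegral_mono fun θ => hGb θ) (lt_top_iff_ne_top.2 hM)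
  have h1 : PP V t ξ = ∑' j : ℕ, ∫ θ in AA ∩ lev M c j, G θ := by
    have hu : (⋃ j, AA ∩ lev M c j) = AA := by
      rw [← inter_iUnion, lev_union c hc, inter_univ]
    have h2 := integral_iUnion (μ := volume) (f := G) (s := fun j => AA ∩ lev M c j)
      (fun j => AA_meas.inter (lev_meas h.measM c j))
      (fun i j hij => (lev_disj c hc hij).mono inter_subset_right inter_subset_right)
      (by rw [hu]; exact hGi)
    rw [hu] at h2
    exact h2
  have h3 : ∀ j : ℕ, ∫ θ in AA ∩ lev M c j, G θ = ((2 ^ j * c : ℝ) : ℂ) *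
      PP (nV V (lev M c j) (2 ^ j * c)) t ξ := by
    intro j
    have hcj : (0 : ℝ) < 2 ^ j * c := by positivity
    rw [inter_comm, ← Measure.restrict_restrict (lev_meas h.measM c j), ← integral_indicator (lev_meas h.measM c j)]
    unfold PP
    rw [← integral_const_mul]
    refine integral_congr_ae (Eventually.of_forall fun θ => ?_)
    try simp only
    unfold nV
    by_cases hθ : θ ∈ lev M c j
    · rw [indicator_of_mem hθ, ← integral_const_mul]
      refine integral_congr_ae (Eventually.of_forall fun s => ?_)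
      simp only
      rw [indicator_of_mem hθ]
      have : ((2 ^ j * c : ℝ) : ℂ) ≠ 0 := by exact_mod_cast hcj.ne'
      rw [he]
      simp only
      field_simp
    · rw [indicator_of_notMem hθ]
      simp [indicator_of_notMem hθ]
  rw [h1]
  simp_rw [h3]
  refine (enorm_tsum_le_tsum_enorm).trans (le_of_eq ?_)
  refine tsum_congr fun j => ?_
  rw [enorm_mul]
  congr 1
  rw [← ofReal_norm, Complex.norm_real, Real.norm_of_nonneg (by positivity)]

theorem lev_vol (hM : Measurable M) (q : ℝ) (hq : 2 < q) (c : ℝ) (hc : 0 < c)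
    (hb : ∫⁻ θ in AA, ENNReal.ofReal (M θ) ^ q ≤ 4 * ENNReal.ofReal c ^ q) (j : ℕ) :
    volume (lev M c j ∩ AA) ≤ ENNReal.ofReal (4 * 2 ^ q * (2 ^ (-q)) ^ j) := by
  have hq0 : 0 < q := by linarith
  by_cases hj : j = 0
  · subst hj
    refine (measure_mono inter_subset_right).trans (AA_vol.trans ?_)
    rw [← ENNReal.ofReal_one]
    refine ENNReal.ofReal_le_ofReal ?_
    have : (1 : ℝ) ≤ 2 ^ q := Real.one_le_rpow (by norm_num) hq0.le
    rw [pow_zero, mul_one]
    linarith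
  · have hcj : (0 : ℝ) < 2 ^ j * c / 2 := by positivity
    have h1 : ENNReal.ofReal (2 ^ j * c / 2) ^ q * volume (lev M c j ∩ AA) ≤
        ∫⁻ θ in AA, ENNReal.ofReal (M θ) ^ q := by
      have h2 := mul_meas_ge_le_lintegral (μ := volume.restrict AA) (f := fun θ => ENNReal.ofReal (M θ) ^ q)
        (hM.ennreal_ofReal.pow_const q) (ENNReal.ofReal (2 ^ j * c / 2) ^ q)
      refine le_trans ?_ h2
      refine mul_le_mul' le_rfl ?_
      rw [Measure.restrict_apply (measurableSet_le measurable_const (hM.ennreal_ofReal.pow_const q))]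
      refine measure_mono (inter_subset_inter_left _ ?_)
      rintro θ ⟨h3, _⟩
      rcases h3 with h3 | h3
      · exact absurd h3 hj
      · exact ENNReal.rpow_le_rpow (ENNReal.ofReal_le_ofReal h3.le) hq0.le
    have h4 := h1.trans hb
    rw [ENNReal.ofReal_rpow_of_nonneg hcj.le hq0.le, ENNReal.ofReal_rpow_of_nonneg hc.le hq0.le] at h4
    have h5 : (0 : ℝ) < (2 ^ j * c / 2) ^ q := Real.rpow_pos_of_pos hcj q
    have h6 : volume (lev M c j ∩ AA) ≤ (4 * ENNReal.ofReal (c ^ q)) / ENNReal.ofReal ((2 ^ j * c / 2) ^ q) := by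
      rw [ENNReal.le_div_iff_mul_le (Or.inl (by simpa using h5)) (Or.inl ENNReal.ofReal_ne_top), mul_comm]
      exact h4
    refine h6.trans (le_of_eq ?_)
    rw [show (4 : ℝ≥0∞) = ENNReal.ofReal 4 by norm_num, ← ENNReal.ofReal_mul (by norm_num),
      ← ENNReal.ofReal_div_of_pos h5]
    congr 1
    rw [div_eq_mul_inv (2 ^ j * c) 2, Real.mul_rpow (by positivity) (by positivity),
      Real.mul_rpow (by positivity) hc.le, Real.inv_rpow (by norm_num), Real.rpow_neg (by norm_num),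
      ← Real.rpow_natCast, ← Real.rpow_natCast, Real.inv_rpow (by positivity), ← Real.rpow_mul (by norm_num),
      ← Real.rpow_mul (by norm_num), mul_comm q (j : ℝ)]
    have h7 : (0 : ℝ) < c ^ q := Real.rpow_pos_of_pos hc q
    have h8 : (0 : ℝ) < 2 ^ ((j : ℝ) * q) := by positivity
    field_simp

/-- **Fixed time estimate for annular pieces** -/
theorem AP_est (q κ : ℝ) (hq : 2 < q) (hq4 : q < 4) (hκ : κ < q - 2) : ∃ C : ℝ≥0∞, C ≠ ∞ ∧
    ∀ (V : ℝ → ℝ → ℂ) (M : ℝ → ℝ), AP V M → ∀ c : ℝ, 0 < c →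
    ∫⁻ θ in AA, ENNReal.ofReal (M θ) ^ q ≤ 4 * ENNReal.ofReal c ^ q → ∀ t : ℝ,
    ∫⁻ ξ, ‖PP V t ξ‖ₑ ^ q ≤ C * ENNReal.ofReal ((1 + |t|) ^ (-κ)) * ENNReal.ofReal c ^ q := by
  obtain ⟨E0, hE0, C1, hC1, hC⟩ := piece q κ hq hq4 hκ
  have hq0 : 0 < q := by linarith
  set ρ : ℝ := 2 ^ (-(q * (E0 - 1))) with hρ
  have hρ0 : 0 < ρ := by positivity
  have hρ1 : ρ < 1 := Real.rpow_lt_one_of_one_lt_of_neg (by norm_num) (by nlinarith)
  obtain ⟨C2, hC2, hS⟩ := geo_sum q (by linarith) ρ hρ0 hρ1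
  refine ⟨C2 * (C1 * ENNReal.ofReal ((4 * 2 ^ q) ^ E0)), ENNReal.mul_ne_top hC2
    (ENNReal.mul_ne_top hC1 ENNReal.ofReal_ne_top), ?_⟩
  intro V M h c hc hb t
  have hMi : ∫⁻ θ in AA, ENNReal.ofReal (M θ) ≠ ∞ := by
    have h1 := arc_norm (fun θ => ENNReal.ofReal (M θ)) h.measM.ennreal_ofReal q (by linarith)
    refine ne_top_of_le_ne_top ?_ h1
    refine ENNReal.rpow_ne_top_of_nonneg (by positivity) (ne_top_of_le_ne_top ?_ hb)
    exact ENNReal.mul_ne_top (by norm_num) (ENNReal.rpow_ne_top_of_nonneg hq0.le ENNReal.ofReal_ne_top)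
  set T := ENNReal.ofReal ((1 + |t|) ^ (-κ)) with hT
  set F : ℕ → ℂ → ℝ≥0∞ := fun j ξ => ENNReal.ofReal (2 ^ j * c) *
      ‖PP (nV V (lev M c j) (2 ^ j * c)) t ξ‖ₑ with hF
  have hup : ∀ j, UP (nV V (lev M c j) (2 ^ j * c)) (nM M (lev M c j) (2 ^ j * c)) := fun j =>
    h.up _ (lev_meas h.measM c j) _ (by positivity) (fun θ hθ => hθ.2)
  have hFm : ∀ j, Measurable (F j) := fun j => (PP_meas' _ (hup j).meas t).enorm.const_mul _
  have hFb : ∀ j, ∫⁻ ξ, F j ξ ^ q ≤ (C1 * ENNReal.ofReal ((4 * 2 ^ q) ^ E0)) * T *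
      ENNReal.ofReal c ^ q * ENNReal.ofReal (ρ ^ j) := by
    intro j
    have h2 := hC _ _ (lev M c j) (hup j) (lev_meas h.measM c j) (fun θ hθ => by
      unfold nM
      rw [indicator_of_notMem hθ]) t
    have h3 := lev_vol h.measM q hq c hc hb j
    have h4 : ∫⁻ ξ, F j ξ ^ q = ENNReal.ofReal (2 ^ j * c) ^ q *
        ∫⁻ ξ, ‖PP (nV V (lev M c j) (2 ^ j * c)) t ξ‖ₑ ^ q := by
      rw [← lintegral_const_mul' _ _ (ENNReal.rpow_ne_top_of_nonneg hq0.le ENNReal.ofReal_ne_top)]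
      refine lintegral_congr fun ξ => ?_
      rw [hF]
      simp only
      rw [ENNReal.mul_rpow_of_nonneg _ _ hq0.le]
    rw [h4]
    calc ENNReal.ofReal (2 ^ j * c) ^ q * ∫⁻ ξ, ‖PP (nV V (lev M c j) (2 ^ j * c)) t ξ‖ₑ ^ q
        ≤ ENNReal.ofReal (2 ^ j * c) ^ q * (C1 * T * ENNReal.ofReal (4 * 2 ^ q * (2 ^ (-q)) ^ j) ^ E0) := by
          gcongr
          exact h2.trans (by gcongr)
      _ = _ := by
          have h8 : (0 : ℝ) ≤ 4 * 2 ^ q * (2 ^ (-q)) ^ j := by positivity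
          rw [ENNReal.ofReal_mul (by positivity : (0 : ℝ) ≤ 2 ^ j), ENNReal.mul_rpow_of_nonneg _ _ hq0.le,
            ENNReal.ofReal_rpow_of_nonneg (by positivity : (0 : ℝ) ≤ 2 ^ j) hq0.le,
            ENNReal.ofReal_rpow_of_nonneg h8 (by linarith)]
          have h5 : ((2 : ℝ) ^ j) ^ q * (4 * 2 ^ q * (2 ^ (-q)) ^ j) ^ E0 = (4 * 2 ^ q) ^ E0 * ρ ^ j := by
            have a1 : ((2 : ℝ) ^ j) ^ q = 2 ^ ((j : ℝ) * q) := by
              rw [← Real.rpow_natCast, ← Real.rpow_mul (by norm_num : (0 : ℝ) ≤ 2)]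
            have a2 : ((2 : ℝ) ^ (-q)) ^ j = 2 ^ (-q * j) := by
              rw [← Real.rpow_natCast, ← Real.rpow_mul (by norm_num : (0 : ℝ) ≤ 2)]
            have a4 : ρ ^ j = 2 ^ (-(q * (E0 - 1)) * j) := by
              rw [hρ, ← Real.rpow_natCast, ← Real.rpow_mul (by norm_num : (0 : ℝ) ≤ 2)]
            rw [a1, a2, a4, Real.mul_rpow (by positivity) (by positivity),
              ← Real.rpow_mul (by norm_num : (0 : ℝ) ≤ 2), mul_left_comm,
              ← Real.rpow_add (by norm_num : (0 : ℝ) < 2)]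
            congr 2
            ring
          calc ENNReal.ofReal ((2 ^ j) ^ q) * ENNReal.ofReal c ^ q *
                (C1 * T * ENNReal.ofReal ((4 * 2 ^ q * (2 ^ (-q)) ^ j) ^ E0))
              = (ENNReal.ofReal ((2 ^ j) ^ q) * ENNReal.ofReal ((4 * 2 ^ q * (2 ^ (-q)) ^ j) ^ E0)) *
                (C1 * T * ENNReal.ofReal c ^ q) := by ring
            _ = ENNReal.ofReal ((4 * 2 ^ q) ^ E0 * ρ ^ j) * (C1 * T * ENNReal.ofReal c ^ q) := by
                rw [← ENNReal.ofReal_mul (by positivity), h5]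
            _ = _ := by
                rw [ENNReal.ofReal_mul (by positivity)]
                ring
  have h6 := hS volume F _ hFm hFb
  calc ∫⁻ ξ, ‖PP V t ξ‖ₑ ^ q ≤ ∫⁻ ξ, (∑' j, F j ξ) ^ q := by
        refine lintegral_mono fun ξ => ?_
        exact ENNReal.rpow_le_rpow (h.split c hc hMi t ξ) hq0.le
    _ ≤ _ := h6
    _ = _ := by ring

end Run7.h783.RV
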