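import Mathlib
import Pool.Agent.Run7.h783.RV.Asm
set_option autoImplicit false

/-! # Dyadic decomposition of the radius -/

namespace Run7.h783.RV

open MeasureTheory Set Complex Filter Topology
open scoped ENNReal NNReal RealInnerProductSpace

/-- functions with controlled variation along the rays -/
structure RayV (H : ℝ → ℝ → ℂ) (μ : ℝ → ℝ → ℝ) : Prop where
  measH : Measurable (Function.uncurry H)
  measμ : Measurable (Function.uncurry μ)
  suppH : ∀ s θ, 1 < s → H s θ = 0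
  suppμ : ∀ s θ, 1 < s → μ s θ = 0
  var : ∀ θ s s', 0 < s → s ≤ s' → ‖H s θ - H s' θ‖ ≤ μ s θ - μ s' θ

variable {H : ℝ → ℝ → ℂ} {μ : ℝ → ℝ → ℝ}

theorem RayV.anti (h : RayV H μ) (θ s s' : ℝ) (hs : 0 < s) (hss : s ≤ s') : μ s' θ ≤ μ s θ := by
  have := (norm_nonneg _).trans (h.var θ s s' hs hss)
  linarith

theorem RayV.bd (h : RayV H μ) (θ s : ℝ) (hs : 0 < s) : ‖H s θ‖ ≤ μ s θ := by
  have h1 := h.var θ s (max s 2) hs (le_max_left _ _)
  have h2 : (1 : ℝ) < max s 2 := lt_of_lt_of_le (by norm_num) (le_max_right _ _)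
  rw [h.suppH _ θ h2, h.suppμ _ θ h2, sub_zero, sub_zero] at h1
  exact h1

theorem RayV.nonneg (h : RayV H μ) (θ s : ℝ) (hs : 0 < s) : 0 ≤ μ s θ := (norm_nonneg _).trans (h.bd θ s hs)

/-- modulus of continuity in the mean -/
theorem mod_aux (m : ℝ → ℝ) (v : ℝ → ℂ) (hm : Measurable m) (A δ : ℝ) (hA : 0 ≤ A) (hδ : 0 < δ)
    (h1 : ∀ s ∈ Ioc (1 / 4 : ℝ) 1, ‖v s‖ ≤ m s) (h2 : ∀ s ∈ Ioc (1 / 4 : ℝ) 1, m s ≤ A)
    (h3 : ∀ s ∈ Ioc (1 / 4 : ℝ) 1, ∀ s' ∈ Ioc (1 / 4 : ℝ) 1, s ≤ s' → ‖v s - v s'‖ ≤ m s - m s')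
    (h4 : ∀ s, s ∉ Ioc (1 / 4 : ℝ) 1 → v s = 0) :
    ∫⁻ s, ‖v (s + δ) - v s‖ₑ ≤ ENNReal.ofReal (3 * δ * A) := by
  classical
  set k : ℝ → ℝ := (Ioc (1 / 4 : ℝ) 1).indicator m with hk
  have hkm : Measurable k := hm.indicator measurableSet_Ioc
  have hk0 : ∀ s, 0 ≤ k s := fun s => indicator_nonneg (fun s hs => (norm_nonneg _).trans (h1 s hs)) s
  have hkA : ∀ s, k s ≤ A := fun s => by
    rw [hk]
    by_cases hs : s ∈ Ioc (1 / 4 : ℝ) 1
    · rw [indicator_of_mem hs]; exact h2 s hs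
    · rw [indicator_of_notMem hs]; exact hA
  have hki : Integrable k := by
    refine (integrable_indicator_iff measurableSet_Ioc).2 ?_
    refine Measure.integrableOn_of_bounded (M := A) (by simp) hm.aestronglyMeasurable ?_
    filter_upwards [ae_restrict_mem measurableSet_Ioc] with s hs
    rw [Real.norm_of_nonneg ((norm_nonneg _).trans (h1 s hs))]
    exact h2 s hs
  have hkd : Integrable fun s => k (s + δ) := hki.comp_add_right δ
  set w : ℝ → ℝ := fun s => k s - k (s + δ) + 2 * (Ioc (1 / 4 - δ) (1 / 4 : ℝ)).indicator (fun _ => A) s with hw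
  have hwi : Integrable w := by
    refine (hki.sub hkd).add ?_
    refine Integrable.const_mul ?_ 2
    exact (integrable_indicator_iff measurableSet_Ioc).2 (integrableOn_const (by simp))
  have hw1 : ∫ s, w s = 2 * (δ * A) := by
    have h5 : ∫ s, k (s + δ) = ∫ s, k s := integral_add_right_eq_self k δ
    have h6 : ∫ s, 2 * (Ioc (1 / 4 - δ) (1 / 4 : ℝ)).indicator (fun _ => A) s = 2 * (δ * A) := by
      rw [integral_const_mul, integral_indicator_const _ measurableSet_Ioc, smul_eq_mul]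
      congr 2
      simp [hδ.le]
    calc ∫ s, w s = (∫ s, (k s - k (s + δ))) + ∫ s, 2 * (Ioc (1 / 4 - δ) (1 / 4 : ℝ)).indicator (fun _ => A) s :=
          integral_add (hki.sub hkd) ((integrable_indicator_iff measurableSet_Ioc).2
            (integrableOn_const (by simp)) |>.const_mul 2)
      _ = _ := by rw [integral_sub hki hkd, h5, h6]; ring
  have hpt : ∀ s, ‖v (s + δ) - v s‖ ≤ w s := by
    intro s
    rw [hw]
    simp only
    by_cases ha : s ∈ Ioc (1 / 4 : ℝ) 1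
    · have hb : s ∉ Ioc (1 / 4 - δ) (1 / 4 : ℝ) := fun hb => absurd hb.2 (not_le.2 ha.1)
      rw [indicator_of_notMem hb, mul_zero, add_zero]
      by_cases hc : s + δ ∈ Ioc (1 / 4 : ℝ) 1
      · rw [hk, indicator_of_mem ha, indicator_of_mem hc, ← norm_neg, neg_sub]
        exact h3 s ha (s + δ) hc (by linarith)
      · rw [h4 (s + δ) hc, zero_sub, norm_neg, hk, indicator_of_mem ha, indicator_of_notMem hc, sub_zero]
        exact h1 s ha
    · rw [h4 s ha, sub_zero]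
      by_cases hc : s + δ ∈ Ioc (1 / 4 : ℝ) 1
      · have hb : s ∈ Ioc (1 / 4 - δ) (1 / 4 : ℝ) := by
          refine ⟨by linarith [hc.1], ?_⟩
          by_contra hlt
          exact ha ⟨not_le.1 hlt, by linarith [hc.2]⟩
        rw [indicator_of_mem hb, hk, indicator_of_notMem ha, indicator_of_mem hc]
        have := h1 _ hc
        have := h2 _ hc
        linarith
      · rw [h4 (s + δ) hc, norm_zero, hk, indicator_of_notMem ha, indicator_of_notMem hc]
        have : 0 ≤ (Ioc (1 / 4 - δ) (1 / 4 : ℝ)).indicator (fun _ => A) s :=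
          indicator_nonneg (fun _ _ => hA) s
        linarith
  calc ∫⁻ s, ‖v (s + δ) - v s‖ₑ ≤ ∫⁻ s, ENNReal.ofReal (w s) := by
        refine lintegral_mono fun s => ?_
        rw [← ofReal_norm]
        exact ENNReal.ofReal_le_ofReal (hpt s)
    _ = ENNReal.ofReal (∫ s, w s) :=
        (ofReal_integral_eq_lintegral_ofReal hwi (Eventually.of_forall fun s =>
          (norm_nonneg _).trans (hpt s))).symm
    _ ≤ _ := by
        rw [hw1]
        refine ENNReal.ofReal_le_ofReal ?_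
        nlinarith [mul_nonneg hδ.le hA]

/-- the rescaled pieces -/
noncomputable def cut (k : ℕ) (H : ℝ → ℝ → ℂ) (s θ : ℝ) : ℂ :=
  (Ioc (1 / 4 : ℝ) 1).indicator (fun s => H ((1 / 4) ^ k * s) θ) s

theorem RayV.ap (h : RayV H μ) (k : ℕ) : AP (cut k H) (fun θ => μ ((1 / 4) ^ (k + 1)) θ) := by
  have hk : (0 : ℝ) < (1 / 4) ^ k := by positivity
  have hμs : ∀ s ∈ Ioc (1 / 4 : ℝ) 1, ∀ θ, μ ((1 / 4) ^ k * s) θ ≤ μ ((1 / 4) ^ (k + 1)) θ := by
    intro s hs θ
    refine h.anti θ _ _ (by positivity) ?_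
    rw [pow_succ]
    exact mul_le_mul_of_nonneg_left hs.1.le hk.le
  refine ⟨?_, ?_, ?_, ?_, ?_, ?_⟩
  · have h1 : Function.uncurry (cut k H) = (Prod.fst ⁻¹' Ioc (1 / 4 : ℝ) 1).indicator
        (fun p : ℝ × ℝ => H ((1 / 4) ^ k * p.1) p.2) := by
      funext p
      unfold cut Function.uncurry
      rfl
    rw [h1]
    refine Measurable.indicator ?_ (measurable_fst measurableSet_Ioc)
    exact h.measH.comp ((measurable_fst.const_mul _).prodMk measurable_snd)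
  · exact h.measμ.comp (measurable_const.prodMk measurable_id)
  · intro θ
    exact h.nonneg θ _ (by positivity)
  · intro s θ hs
    unfold cut
    rw [indicator_of_notMem hs]
  · intro s θ
    unfold cut
    by_cases hs : s ∈ Ioc (1 / 4 : ℝ) 1
    · rw [indicator_of_mem hs]
      exact (h.bd θ _ (mul_pos hk (lt_trans (by norm_num) hs.1))).trans (hμs s hs θ)
    · rw [indicator_of_notMem hs, norm_zero]
      exact h.nonneg θ _ (by positivity)
  · intro δ hδ θ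
    refine mod_aux (fun s => μ ((1 / 4) ^ k * s) θ) (fun s => cut k H s θ) ?_
      (μ ((1 / 4) ^ (k + 1)) θ) δ (h.nonneg θ _ (by positivity)) hδ ?_ (fun s hs => hμs s hs θ) ?_ ?_
    · exact h.measμ.comp ((measurable_id.const_mul _).prodMk measurable_const)
    · intro s hs
      unfold cut
      rw [indicator_of_mem hs]
      exact h.bd θ _ (mul_pos hk (lt_trans (by norm_num) hs.1))
    · intro s hs s' hs' hss
      unfold cut
      rw [indicator_of_mem hs, indicator_of_mem hs']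
      exact h.var θ _ _ (mul_pos hk (lt_trans (by norm_num) hs.1)) (mul_le_mul_of_nonneg_left hss hk.le)
    · intro s hs
      unfold cut
      rw [indicator_of_notMem hs]

theorem union_dyad : ⋃ k : ℕ, Ioc ((1 / 4 : ℝ) ^ (k + 1)) ((1 / 4) ^ k) = Ioc 0 1 := by
  ext x
  rw [mem_iUnion]
  constructor
  · rintro ⟨k, h1, h2⟩
    exact ⟨lt_of_le_of_lt (by positivity) h1, h2.trans (pow_le_one₀ (by norm_num) (by norm_num))⟩
  · rintro ⟨h1, h2⟩
    obtain ⟨n, hn1, hn2⟩ := exists_nat_pow_near_of_lt_one h1 h2 (by norm_num : (0 : ℝ) < 1 / 4) (by norm_num)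
    exact ⟨n, hn1, hn2⟩

theorem disj_dyad : Pairwise (Function.onFun Disjoint
    fun k : ℕ => Ioc ((1 / 4 : ℝ) ^ (k + 1)) ((1 / 4) ^ k)) := by
  have key : ∀ i j : ℕ, i < j → Disjoint (Ioc ((1 / 4 : ℝ) ^ (i + 1)) ((1 / 4) ^ i))
      (Ioc ((1 / 4 : ℝ) ^ (j + 1)) ((1 / 4) ^ j)) := by
    intro i j hij
    rw [Set.disjoint_left]
    rintro x ⟨h1, _⟩ ⟨_, h2⟩
    have h3 : (1 / 4 : ℝ) ^ j ≤ (1 / 4) ^ (i + 1) :=
      pow_le_pow_of_le_one (by norm_num) (by norm_num) (by omega)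
    linarith
  intro i j hij
  rcases lt_or_gt_of_ne hij with h | h
  · exact key i j h
  · exact (key j i h).symm

theorem scale_in (H : ℝ → ℝ → ℂ) (k : ℕ) (t : ℝ) (ξ : ℂ) (θ : ℝ) :
    ∫ s in Ioc ((1 / 4 : ℝ) ^ (k + 1)) ((1 / 4) ^ k), H s θ *
      cexp (((-(√s * aa θ ξ + t * s) : ℝ) : ℂ) * I) =
    ((1 / 4 : ℝ) ^ k : ℝ) * ∫ s in Ioi (0 : ℝ), cut k H s θ *
      cexp (((-(√s * aa θ (((1 / 2 : ℝ) ^ k) • ξ) + ((1 / 4) ^ k * t) * s) : ℝ) : ℂ) * I) := by
  have hk : (0 : ℝ) < (1 / 4) ^ k := by positivity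
  set g : ℝ → ℂ := fun s => H s θ * cexp (((-(√s * aa θ ξ + t * s) : ℝ) : ℂ) * I) with hg
  have h1 : ∫ s in Ioi (0 : ℝ), cut k H s θ *
      cexp (((-(√s * aa θ (((1 / 2 : ℝ) ^ k) • ξ) + ((1 / 4) ^ k * t) * s) : ℝ) : ℂ) * I) =
      ∫ s in (1 / 4 : ℝ)..1, g ((1 / 4) ^ k * s) := by
    rw [intervalIntegral.integral_of_le (by norm_num), ← integral_indicator measurableSet_Ioi,
      ← integral_indicator measurableSet_Ioc]
    congr 1
    funext s
    by_cases hs : s ∈ Ioc (1 / 4 : ℝ) 1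
    · have hs0 : s ∈ Ioi (0 : ℝ) := lt_trans (by norm_num) hs.1
      rw [indicator_of_mem hs0, indicator_of_mem hs]
      unfold cut
      rw [indicator_of_mem hs, hg]
      simp only
      congr 4
      have e1 : √((1 / 4) ^ k * s) = (1 / 2) ^ k * √s := by
        rw [Real.sqrt_mul hk.le, show (1 / 4 : ℝ) ^ k = ((1 / 2) ^ k) ^ 2 by
          rw [← pow_mul, mul_comm, pow_mul]; norm_num, Real.sqrt_sq (by positivity)]
      have e2 : aa θ (((1 / 2 : ℝ) ^ k) • ξ) = (1 / 2) ^ k * aa θ ξ := by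
        unfold aa
        simp only [Complex.smul_re, Complex.smul_im, smul_eq_mul]
        ring
      rw [e1, e2]
      ring
    · rw [indicator_of_notMem hs]
      unfold cut
      by_cases hs0 : s ∈ Ioi (0 : ℝ)
      · rw [indicator_of_mem hs0, indicator_of_notMem hs, zero_mul]
      · rw [indicator_of_notMem hs0]
  rw [h1, intervalIntegral.integral_comp_mul_left g hk.ne', Complex.real_smul, ← mul_assoc,
    ← Complex.ofReal_mul, mul_inv_cancel₀ hk.ne', Complex.ofReal_one, one_mul,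
    intervalIntegral.integral_of_le]
  · rw [mul_one, ← pow_succ]
  · exact mul_le_mul_of_nonneg_left (by norm_num) hk.le

theorem RayV.lint (h : RayV H μ) (q : ℝ) (hq : 1 < q) :
    ∫⁻ θ in AA, ∫⁻ s in Ioi (0 : ℝ), ‖H s θ‖ₑ ≤
      (∫⁻ θ in AA, ∫⁻ s in Ioi (0 : ℝ), ENNReal.ofReal (μ s θ) ^ q) ^ (1 / q) := by
  have hq0 : 0 < q := by linarith
  have hm : Measurable fun p : ℝ × ℝ => ENNReal.ofReal (μ p.2 p.1) :=
    (h.measμ.comp (measurable_snd.prodMk measurable_fst)).ennreal_ofReal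
  have h1 : ∀ θ, ∫⁻ s in Ioi (0 : ℝ), ‖H s θ‖ₑ ≤
      (∫⁻ s in Ioi (0 : ℝ), ENNReal.ofReal (μ s θ) ^ q) ^ (1 / q) := by
    intro θ
    have hms : Measurable fun s => ENNReal.ofReal (μ s θ) := hm.comp (measurable_const.prodMk measurable_id)
    have h2 : ∫⁻ s in Ioi (0 : ℝ), ‖H s θ‖ₑ ≤ ∫⁻ s in Ioc (0 : ℝ) 1, ENNReal.ofReal (μ s θ) := by
      rw [← lintegral_indicator measurableSet_Ioi, ← lintegral_indicator measurableSet_Ioc]
      refine lintegral_mono fun s => ?_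
      by_cases hs : s ∈ Ioi (0 : ℝ)
      · rw [indicator_of_mem hs]
        by_cases hs1 : s ≤ 1
        · rw [indicator_of_mem (show s ∈ Ioc (0 : ℝ) 1 from ⟨hs, hs1⟩), ← ofReal_norm]
          exact ENNReal.ofReal_le_ofReal (h.bd θ s hs)
        · rw [h.suppH s θ (not_le.1 hs1)]
          simp
      · rw [indicator_of_notMem hs]
        exact zero_le
    refine h2.trans ?_
    have h3 := jens (volume.restrict (Ioc (0 : ℝ) 1)) (fun _ => 1) (fun s => ENNReal.ofReal (μ s θ))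
      aemeasurable_const hms.aemeasurable q hq
    simp only [one_mul, lintegral_one, Measure.restrict_apply_univ, Real.volume_Ioc, sub_zero,
      ENNReal.ofReal_one, ENNReal.one_rpow] at h3
    have h4 : (∫⁻ s in Ioc (0 : ℝ) 1, ENNReal.ofReal (μ s θ)) ^ q ≤
        ∫⁻ s in Ioi (0 : ℝ), ENNReal.ofReal (μ s θ) ^ q :=
      h3.trans (lintegral_mono_set Ioc_subset_Ioi_self)
    have h5 := ENNReal.rpow_le_rpow h4 (by positivity : (0 : ℝ) ≤ 1 / q)
    rwa [← ENNReal.rpow_mul, mul_one_div_cancel hq0.ne', ENNReal.rpow_one] at h5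
  have hm2 : Measurable fun θ => ∫⁻ s in Ioi (0 : ℝ), ENNReal.ofReal (μ s θ) ^ q :=
    (hm.pow_const q).lintegral_prod_right'
  refine (lintegral_mono fun θ => h1 θ).trans ?_
  have h6 := arc_norm (fun θ => (∫⁻ s in Ioi (0 : ℝ), ENNReal.ofReal (μ s θ) ^ q) ^ (1 / q))
    (hm2.pow_const _) q hq
  refine h6.trans (le_of_eq ?_)
  congr 1
  refine lintegral_congr fun θ => ?_
  rw [← ENNReal.rpow_mul, one_div_mul_cancel hq0.ne', ENNReal.rpow_one]

theorem RayV.dyad (h : RayV H μ) (hi : ∫⁻ θ in AA, ∫⁻ s in Ioi (0 : ℝ), ‖H s θ‖ₑ ≠ ∞) (t : ℝ) (ξ : ℂ) :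
    ‖PP H t ξ‖ₑ ≤ ∑' k : ℕ, ENNReal.ofReal ((1 / 4) ^ k) *
      ‖PP (cut k H) ((1 / 4) ^ k * t) (((1 / 2 : ℝ) ^ k) • ξ)‖ₑ := by
  set G : ℝ × ℝ → ℂ := fun p => H p.2 p.1 * cexp (((-(√p.2 * aa p.1 ξ + t * p.2) : ℝ) : ℂ) * I) with hG
  have hHm : Measurable fun p : ℝ × ℝ => H p.2 p.1 := h.measH.comp (measurable_snd.prodMk measurable_fst)
  have hGm : Measurable G := by
    refine hHm.mul ?_
    refine Continuous.measurable ?_
    unfold aa
    fun_prop
  have hGn : ∀ p, ‖G p‖ₑ = ‖H p.2 p.1‖ₑ := fun p => by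
    rw [hG]
    simp only
    rw [enorm_mul, ← ofReal_norm (cexp _), Complex.norm_exp_ofReal_mul_I, ENNReal.ofReal_one, mul_one]
  have hGi : IntegrableOn G (AA ×ˢ Ioi (0 : ℝ)) ((volume : Measure ℝ).prod volume) := by
    refine ⟨hGm.aestronglyMeasurable, ?_⟩
    unfold HasFiniteIntegral
    rw [← Measure.prod_restrict, lintegral_prod _ hGm.enorm.aemeasurable]
    simp_rw [hGn]
    exact lt_top_iff_ne_top.2 hi
  have h1 : PP H t ξ = ∫ p in AA ×ˢ Ioc (0 : ℝ) 1, G p ∂((volume : Measure ℝ).prod volume) := by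
    have hsub : AA ×ˢ Ioc (0 : ℝ) 1 ⊆ AA ×ˢ Ioi (0 : ℝ) := prod_mono le_rfl Ioc_subset_Ioi_self
    rw [setIntegral_prod G (hGi.mono_set hsub)]
    unfold PP
    refine integral_congr_ae (Eventually.of_forall fun θ => ?_)
    try simp only
    rw [← integral_indicator measurableSet_Ioi, ← integral_indicator measurableSet_Ioc]
    congr 1
    funext s
    by_cases hs : s ∈ Ioi (0 : ℝ)
    · rw [indicator_of_mem hs]
      by_cases hs1 : s ≤ 1
      · rw [indicator_of_mem (show s ∈ Ioc (0 : ℝ) 1 from ⟨hs, hs1⟩)]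
      · rw [h.suppH s θ (not_le.1 hs1), zero_mul, indicator_of_notMem (fun hc => hs1 hc.2)]
    · rw [indicator_of_notMem hs, indicator_of_notMem (fun hc => hs hc.1)]
  have hU : AA ×ˢ Ioc (0 : ℝ) 1 = ⋃ k : ℕ, AA ×ˢ Ioc ((1 / 4 : ℝ) ^ (k + 1)) ((1 / 4) ^ k) := by
    rw [← prod_iUnion, union_dyad]
  have h2 : PP H t ξ = ∑' k : ℕ, ∫ p in AA ×ˢ Ioc ((1 / 4 : ℝ) ^ (k + 1)) ((1 / 4) ^ k), G p
      ∂((volume : Measure ℝ).prod volume) := by
    rw [h1, hU]
    refine integral_iUnion (fun k => AA_meas.prod measurableSet_Ioc) ?_ ?_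
    · intro i j hij
      exact Set.disjoint_prod.2 (Or.inr (disj_dyad hij))
    · rw [← hU]
      exact hGi.mono_set (prod_mono le_rfl Ioc_subset_Ioi_self)
  have h3 : ∀ k : ℕ, ∫ p in AA ×ˢ Ioc ((1 / 4 : ℝ) ^ (k + 1)) ((1 / 4) ^ k), G p
      ∂((volume : Measure ℝ).prod volume) = (((1 / 4 : ℝ) ^ k : ℝ) : ℂ) *
        PP (cut k H) ((1 / 4) ^ k * t) (((1 / 2 : ℝ) ^ k) • ξ) := by
    intro k
    have hsub : AA ×ˢ Ioc ((1 / 4 : ℝ) ^ (k + 1)) ((1 / 4) ^ k) ⊆ AA ×ˢ Ioi (0 : ℝ) :=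
      prod_mono le_rfl (fun x hx => lt_of_le_of_lt (by positivity) hx.1)
    rw [setIntegral_prod G (hGi.mono_set hsub)]
    unfold PP
    rw [← integral_const_mul]
    refine integral_congr_ae (Eventually.of_forall fun θ => ?_)
    exact scale_in H k t ξ θ
  rw [h2]
  simp_rw [h3]
  refine (enorm_tsum_le_tsum_enorm).trans (le_of_eq ?_)
  refine tsum_congr fun k => ?_
  rw [enorm_mul]
  congr 1
  rw [← ofReal_norm, Complex.norm_real, Real.norm_of_nonneg (by positivity)]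

end Run7.h783.RV
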