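import Mathlib
import Pool.Agent.Run7.h783.RV.Dyad
set_option autoImplicit false

/-! # The fixed time theorem in a sector -/

namespace Run7.h783.RV

open MeasureTheory Set Complex Filter Topology
open scoped ENNReal NNReal RealInnerProductSpace

variable {H : ℝ → ℝ → ℂ} {μ : ℝ → ℝ → ℝ}

theorem RayV.hyp (h : RayV H μ) (q : ℝ) (hq : 0 < q) (N : ℝ)
    (hN : ∫⁻ θ in AA, ∫⁻ s in Ioi (0 : ℝ), ENNReal.ofReal (μ s θ) ^ q ≤ ENNReal.ofReal N) (k : ℕ) :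
    ∫⁻ θ in AA, ENNReal.ofReal (μ ((1 / 4) ^ (k + 1)) θ) ^ q ≤ ENNReal.ofReal (4 ^ (k + 1) * N) := by
  have hk : (0 : ℝ) < (1 / 4) ^ (k + 1) := by positivity
  have hm : Measurable fun θ => ENNReal.ofReal (μ ((1 / 4) ^ (k + 1)) θ) ^ q :=
    (h.measμ.comp (measurable_const.prodMk measurable_id)).ennreal_ofReal.pow_const q
  have h1 : ENNReal.ofReal ((1 / 4) ^ (k + 1)) * ∫⁻ θ in AA, ENNReal.ofReal (μ ((1 / 4) ^ (k + 1)) θ) ^ q ≤
      ENNReal.ofReal N := by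
    refine le_trans ?_ hN
    rw [← lintegral_const_mul _ hm]
    refine lintegral_mono fun θ => ?_
    calc ENNReal.ofReal ((1 / 4) ^ (k + 1)) * ENNReal.ofReal (μ ((1 / 4) ^ (k + 1)) θ) ^ q
        = ∫⁻ s in Ioc (0 : ℝ) ((1 / 4) ^ (k + 1)), ENNReal.ofReal (μ ((1 / 4) ^ (k + 1)) θ) ^ q := by
          rw [lintegral_const, Measure.restrict_apply_univ, Real.volume_Ioc, sub_zero, mul_comm]
      _ ≤ ∫⁻ s in Ioc (0 : ℝ) ((1 / 4) ^ (k + 1)), ENNReal.ofReal (μ s θ) ^ q := by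
          refine setLIntegral_mono' measurableSet_Ioc fun s hs => ?_
          exact ENNReal.rpow_le_rpow (ENNReal.ofReal_le_ofReal (h.anti θ s _ hs.1 hs.2)) hq.le
      _ ≤ _ := lintegral_mono_set Ioc_subset_Ioi_self
  have h2 : (4 : ℝ) ^ (k + 1) * (1 / 4) ^ (k + 1) = 1 := by
    rw [← mul_pow]
    norm_num
  calc ∫⁻ θ in AA, ENNReal.ofReal (μ ((1 / 4) ^ (k + 1)) θ) ^ q
      = ENNReal.ofReal (4 ^ (k + 1)) * (ENNReal.ofReal ((1 / 4) ^ (k + 1)) *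
        ∫⁻ θ in AA, ENNReal.ofReal (μ ((1 / 4) ^ (k + 1)) θ) ^ q) := by
        rw [← mul_assoc, ← ENNReal.ofReal_mul (by positivity), h2, ENNReal.ofReal_one, one_mul]
    _ ≤ ENNReal.ofReal (4 ^ (k + 1)) * ENNReal.ofReal N := by gcongr
    _ = _ := by rw [ENNReal.ofReal_mul (by positivity)]

theorem FT0 (q κ : ℝ) (hq : 2 < q) (hq4 : q < 4) (hκ0 : 0 ≤ κ) (hκ : κ < q - 2) : ∃ C : ℝ≥0∞, C ≠ ∞ ∧
    ∀ (H : ℝ → ℝ → ℂ) (μ : ℝ → ℝ → ℝ), RayV H μ → ∀ N : ℝ, 0 < N →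
    ∫⁻ θ in AA, ∫⁻ s in Ioi (0 : ℝ), ENNReal.ofReal (μ s θ) ^ q ≤ ENNReal.ofReal N → ∀ t : ℝ,
    ∫⁻ ξ, ‖PP H t ξ‖ₑ ^ q ≤ C * ENNReal.ofReal ((1 + |t|) ^ (-κ)) * ENNReal.ofReal N := by
  have hq0 : 0 < q := by linarith
  obtain ⟨C1, hC1, hA⟩ := AP_est q κ hq hq4 hκ
  set ρ : ℝ := 4 ^ (-(q - 2 - κ)) with hρ
  have hρ0 : 0 < ρ := by positivity
  have hρ1 : ρ < 1 := Real.rpow_lt_one_of_one_lt_of_neg (by norm_num) (by linarith)
  obtain ⟨C2, hC2, hS⟩ := geo_sum q (by linarith) ρ hρ0 hρ1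
  refine ⟨C2 * C1, ENNReal.mul_ne_top hC2 hC1, ?_⟩
  intro H μ h N hN hX t
  have hi : ∫⁻ θ in AA, ∫⁻ s in Ioi (0 : ℝ), ‖H s θ‖ₑ ≠ ∞ := by
    refine ne_top_of_le_ne_top ?_ (h.lint q (by linarith))
    exact ENNReal.rpow_ne_top_of_nonneg (by positivity) (ne_top_of_le_ne_top ENNReal.ofReal_ne_top hX)
  set T := ENNReal.ofReal ((1 + |t|) ^ (-κ)) with hT
  set F : ℕ → ℂ → ℝ≥0∞ := fun k ξ => ENNReal.ofReal ((1 / 4) ^ k) *
      ‖PP (cut k H) ((1 / 4) ^ k * t) (((1 / 2 : ℝ) ^ k) • ξ)‖ₑ with hF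
  have hPm : ∀ k, Measurable (PP (cut k H) ((1 / 4) ^ k * t)) := fun k => PP_meas' _ (h.ap k).meas _
  have hFm : ∀ k, Measurable (F k) := fun k =>
    (((hPm k).comp (measurable_const_smul ((1 / 2 : ℝ) ^ k))).enorm).const_mul _
  have hFb : ∀ k, ∫⁻ ξ, F k ξ ^ q ≤ C1 * T * ENNReal.ofReal N * ENNReal.ofReal (ρ ^ k) := by
    intro k
    set c : ℝ := (4 ^ k * N) ^ (1 / q) with hc
    have hc0 : 0 < c := by positivity
    have hcq : ENNReal.ofReal c ^ q = ENNReal.ofReal (4 ^ k * N) := by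
      rw [ENNReal.ofReal_rpow_of_nonneg hc0.le hq0.le, hc, ← Real.rpow_mul (by positivity),
        one_div_mul_cancel hq0.ne', Real.rpow_one]
    have h1 := hA _ _ (h.ap k) c hc0 (by
      rw [hcq]
      refine (h.hyp q hq0 N hX k).trans (le_of_eq ?_)
      rw [show (4 : ℝ≥0∞) = ENNReal.ofReal 4 by norm_num, ← ENNReal.ofReal_mul (by norm_num)]
      congr 1
      ring) ((1 / 4) ^ k * t)
    have h2 : ∫⁻ ξ, F k ξ ^ q = ENNReal.ofReal ((1 / 4) ^ k) ^ q * (ENNReal.ofReal (4 ^ k) *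
        ∫⁻ ξ, ‖PP (cut k H) ((1 / 4) ^ k * t) ξ‖ₑ ^ q) := by
      have h3 := lint_smul (volume : Measure ℂ) (fun ξ => ‖PP (cut k H) ((1 / 4) ^ k * t) ξ‖ₑ ^ q)
        ((hPm k).enorm.pow_const q) ((1 / 2 : ℝ) ^ k) (by positivity)
      have h4 : |(((1 / 2 : ℝ) ^ k) ^ Module.finrank ℝ ℂ)⁻¹| = 4 ^ k := by
        rw [Complex.finrank_real_complex, abs_of_pos (by positivity), ← pow_mul, mul_comm k 2, pow_mul,
          ← inv_pow]
        norm_num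
      rw [h4] at h3
      rw [← h3, ← lintegral_const_mul' _ _ (ENNReal.rpow_ne_top_of_nonneg hq0.le ENNReal.ofReal_ne_top)]
      refine lintegral_congr fun ξ => ?_
      rw [hF]
      simp only
      rw [ENNReal.mul_rpow_of_nonneg _ _ hq0.le]
    rw [h2]
    have hk : (0 : ℝ) < (1 / 4) ^ k := by positivity
    have h5 : (1 + |(1 / 4) ^ k * t|) ^ (-κ) ≤ ((1 / 4) ^ k) ^ (-κ) * (1 + |t|) ^ (-κ) := by
      rw [← Real.mul_rpow hk.le (by positivity)]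
      refine Real.rpow_le_rpow_of_nonpos (by positivity) ?_ (by linarith)
      rw [abs_mul, abs_of_pos hk]
      have : (1 / 4 : ℝ) ^ k ≤ 1 := pow_le_one₀ (by norm_num) (by norm_num)
      nlinarith [abs_nonneg t]
    have h6 : ((1 / 4 : ℝ) ^ k) ^ q * (4 ^ k * (((1 / 4) ^ k) ^ (-κ) * 4 ^ k)) = ρ ^ k := by
      have a0 : (1 / 4 : ℝ) ^ k = 4 ^ (-(k : ℝ)) := by
        rw [Real.rpow_neg (by norm_num), Real.rpow_natCast, one_div, inv_pow]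
      have a1 : (4 : ℝ) ^ k = 4 ^ (k : ℝ) := (Real.rpow_natCast _ _).symm
      have a2 : ρ ^ k = 4 ^ (-(q - 2 - κ) * k) := by
        rw [hρ, ← Real.rpow_natCast, ← Real.rpow_mul (by norm_num : (0 : ℝ) ≤ 4)]
      rw [a0, a1, a2, ← Real.rpow_mul (by norm_num : (0 : ℝ) ≤ 4),
        ← Real.rpow_mul (by norm_num : (0 : ℝ) ≤ 4), ← Real.rpow_add (by norm_num : (0 : ℝ) < 4),
        ← Real.rpow_add (by norm_num : (0 : ℝ) < 4), ← Real.rpow_add (by norm_num : (0 : ℝ) < 4)]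
      congr 1
      ring
    calc ENNReal.ofReal ((1 / 4) ^ k) ^ q * (ENNReal.ofReal (4 ^ k) *
          ∫⁻ ξ, ‖PP (cut k H) ((1 / 4) ^ k * t) ξ‖ₑ ^ q)
        ≤ ENNReal.ofReal ((1 / 4) ^ k) ^ q * (ENNReal.ofReal (4 ^ k) *
          (C1 * ENNReal.ofReal (((1 / 4) ^ k) ^ (-κ) * (1 + |t|) ^ (-κ)) * ENNReal.ofReal (4 ^ k * N))) := by
          gcongr
          refine h1.trans ?_
          rw [hcq]
          gcongr
      _ = C1 * T * ENNReal.ofReal N * (ENNReal.ofReal (((1 / 4) ^ k) ^ q) * (ENNReal.ofReal (4 ^ k) *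
          (ENNReal.ofReal (((1 / 4) ^ k) ^ (-κ)) * ENNReal.ofReal (4 ^ k)))) := by
          rw [ENNReal.ofReal_rpow_of_nonneg hk.le hq0.le, ENNReal.ofReal_mul (by positivity),
            ENNReal.ofReal_mul (by positivity : (0 : ℝ) ≤ 4 ^ k)]
          ring
      _ = _ := by
          rw [← ENNReal.ofReal_mul (by positivity), ← ENNReal.ofReal_mul (by positivity),
            ← ENNReal.ofReal_mul (by positivity), h6]
  have h7 := hS volume F _ hFm hFb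
  calc ∫⁻ ξ, ‖PP H t ξ‖ₑ ^ q ≤ ∫⁻ ξ, (∑' k, F k ξ) ^ q := by
        refine lintegral_mono fun ξ => ?_
        exact ENNReal.rpow_le_rpow (h.dyad hi t ξ) hq0.le
    _ ≤ _ := h7
    _ = _ := by ring

/-- **The fixed time theorem in a sector** -/
theorem FT (q κ : ℝ) (hq : 2 < q) (hq4 : q < 4) (hκ0 : 0 ≤ κ) (hκ : κ < q - 2) : ∃ C : ℝ≥0∞, C ≠ ∞ ∧
    ∀ (H : ℝ → ℝ → ℂ) (μ : ℝ → ℝ → ℝ), RayV H μ → ∀ t : ℝ,
    ∫⁻ ξ, ‖PP H t ξ‖ₑ ^ q ≤ C * ENNReal.ofReal ((1 + |t|) ^ (-κ)) *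
      ∫⁻ θ in AA, ∫⁻ s in Ioi (0 : ℝ), ENNReal.ofReal (μ s θ) ^ q := by
  obtain ⟨C, hC, h0⟩ := FT0 q κ hq hq4 hκ0 hκ
  refine ⟨C + 1, ENNReal.add_ne_top.2 ⟨hC, ENNReal.one_ne_top⟩, ?_⟩
  intro H μ h t
  set X := ∫⁻ θ in AA, ∫⁻ s in Ioi (0 : ℝ), ENNReal.ofReal (μ s θ) ^ q with hX
  have hT : ENNReal.ofReal ((1 + |t|) ^ (-κ)) ≠ 0 := by
    simp only [ne_eq, ENNReal.ofReal_eq_zero, not_le]
    positivity
  by_cases hXt : X = ∞
  · rw [hXt, ENNReal.mul_top]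
    · exact le_top
    · exact mul_ne_zero (by simp) hT
  · by_cases hX0 : X = 0
    · have h1 : ∀ N : ℝ, 0 < N → ∫⁻ ξ, ‖PP H t ξ‖ₑ ^ q ≤ C * ENNReal.ofReal ((1 + |t|) ^ (-κ)) * ENNReal.ofReal N :=
        fun N hN => h0 H μ h N hN (by rw [← hX, hX0]; exact zero_le) t
      have h2 : Tendsto (fun N : ℝ => C * ENNReal.ofReal ((1 + |t|) ^ (-κ)) * ENNReal.ofReal N) (𝓝[>] 0)
          (𝓝 (C * ENNReal.ofReal ((1 + |t|) ^ (-κ)) * ENNReal.ofReal 0)) := by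
        refine ENNReal.Tendsto.const_mul ?_ (Or.inr (ENNReal.mul_ne_top hC ENNReal.ofReal_ne_top))
        exact (ENNReal.continuous_ofReal.tendsto 0).mono_left nhdsWithin_le_nhds
      rw [ENNReal.ofReal_zero, mul_zero] at h2
      have h3 : ∫⁻ ξ, ‖PP H t ξ‖ₑ ^ q ≤ 0 := by
        refine ge_of_tendsto h2 ?_
        filter_upwards [self_mem_nhdsWithin] with N hN
        exact h1 N hN
      exact h3.trans zero_le
    · have h1 : 0 < X.toReal := ENNReal.toReal_pos hX0 hXt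
      have h2 := h0 H μ h X.toReal h1 (by rw [ENNReal.ofReal_toReal hXt]) t
      rw [ENNReal.ofReal_toReal hXt] at h2
      refine h2.trans ?_
      gcongr
      exact le_self_add

end Run7.h783.RV
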