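import Mathlib
import Pool.Agent.Run7.h783.RV.Fix
set_option autoImplicit false

/-! # The plane -/

namespace Run7.h783.RV

open MeasureTheory Set Complex Filter Topology
open scoped ENNReal NNReal RealInnerProductSpace

/-- the extension operator at a fixed time -/
noncomputable def EC (f : ℂ → ℂ) (t : ℝ) (ξ : ℂ) : ℂ :=
  ∫ x : ℂ, f x * cexp (((-(⟪ξ, x⟫ + t * ‖x‖ ^ 2) : ℝ) : ℂ) * I)

/-- functions on the unit disc with controlled variation along the rays from the origin -/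
structure BVR (f : ℂ → ℂ) (m : ℂ → ℝ) : Prop where
  measf : Measurable f
  measm : Measurable m
  suppf : ∀ x, 1 < ‖x‖ → f x = 0
  suppm : ∀ x, 1 < ‖x‖ → m x = 0
  var : ∀ x, x ≠ 0 → ∀ ρ : ℝ, 1 ≤ ρ → ‖f x - f (ρ • x)‖ ≤ m x - m (ρ • x)

variable {f : ℂ → ℂ} {m : ℂ → ℝ}

/-- the angles of the arcs -/
noncomputable def an (k : ℕ) : ℝ := -Real.pi + k * (Real.pi / 4)

/-- the function in polar coordinates -/
noncomputable def pH {E : Type*} (f : ℂ → E) (k : ℕ) (s θ : ℝ) : E := f (√s • om (θ + an k))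

theorem om_ne (θ : ℝ) : om θ ≠ 0 := by
  intro h
  have := om_norm θ
  rw [h, norm_zero] at this
  exact zero_ne_one this

theorem BVR.ray (h : BVR f m) (k : ℕ) : RayV (pH f k) (pH m k) := by
  have hc : Continuous fun p : ℝ × ℝ => √p.1 • om (p.2 + an k) :=
    (Real.continuous_sqrt.comp continuous_fst).smul (om_cont.comp (by fun_prop))
  refine ⟨h.measf.comp hc.measurable, h.measm.comp hc.measurable, ?_, ?_, ?_⟩
  · intro s θ hs
    apply h.suppf
    rw [norm_r_om _ _ (Real.sqrt_nonneg _)]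
    rw [Real.lt_sqrt (by norm_num)]
    simpa using hs
  · intro s θ hs
    apply h.suppm
    rw [norm_r_om _ _ (Real.sqrt_nonneg _)]
    rw [Real.lt_sqrt (by norm_num)]
    simpa using hs
  · intro θ s s' hs hss
    have hsq : 0 < √s := Real.sqrt_pos.2 hs
    have h1 := h.var (√s • om (θ + an k)) (smul_ne_zero hsq.ne' (om_ne _)) (√s' / √s)
      ((one_le_div hsq).2 (Real.sqrt_le_sqrt hss))
    rw [smul_smul, div_mul_cancel₀ _ hsq.ne'] at h1
    exact h1

theorem om_add (θ α : ℝ) : om (θ + α) = om θ * om α := by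
  unfold om
  apply Complex.ext
  · simp only [Complex.mul_re]
    exact Real.cos_add θ α
  · simp only [Complex.mul_im]
    rw [Real.sin_add]
    ring

theorem aa_add (θ α : ℝ) (ξ : ℂ) : aa (θ + α) ξ = aa θ ((starRingEnd ℂ) (om α) * ξ) := by
  unfold aa om
  simp only [Complex.mul_re, Complex.mul_im, Complex.conj_re, Complex.conj_im]
  rw [Real.sin_add, Real.cos_add]
  ring

theorem CC_split {G : ℝ → ℂ} (hG : IntegrableOn G CC) :
    ∫ θ in CC, G θ = ∑ k ∈ Finset.range 8, ∫ θ in AA, G (θ + an k) := by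
  have hpi := Real.pi_pos
  have hi : IntervalIntegrable G volume (-Real.pi) Real.pi := by
    rw [intervalIntegrable_iff_integrableOn_Ioo_of_le (by linarith)]
    exact hG
  have ha : ∀ k < 8, IntervalIntegrable G volume (an k) (an (k + 1)) := by
    intro k hk
    refine hi.mono_set ?_
    have h1 : an k ≤ an (k + 1) := by
      unfold an
      push_cast
      nlinarith
    have h2 : -Real.pi ≤ an k := by
      unfold an
      have : (0 : ℝ) ≤ k := Nat.cast_nonneg k
      nlinarith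
    have h3 : an (k + 1) ≤ Real.pi := by
      unfold an
      have : ((k + 1 : ℕ) : ℝ) ≤ 8 := by exact_mod_cast hk
      nlinarith
    rw [uIcc_of_le h1, uIcc_of_le (by linarith)]
    exact Icc_subset_Icc h2 h3
  have h1 := intervalIntegral.sum_integral_adjacent_intervals (n := 8) ha
  have e0 : an 0 = -Real.pi := by unfold an; simp
  have e8 : an 8 = Real.pi := by unfold an; push_cast; ring
  rw [e0, e8] at h1
  unfold CC
  rw [← integral_Ioc_eq_integral_Ioo, ← intervalIntegral.integral_of_le (by linarith), ← h1]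
  refine Finset.sum_congr rfl fun k _ => ?_
  unfold AA
  rw [← integral_Ioc_eq_integral_Ioo, ← intervalIntegral.integral_of_le (by positivity),
    intervalIntegral.integral_comp_add_right, zero_add]
  congr 1
  unfold an
  push_cast
  ring

theorem CC_split_lint (G : ℝ → ℝ≥0∞) :
    ∑ k ∈ Finset.range 8, ∫⁻ θ in AA, G (θ + an k) ≤ ∫⁻ θ in CC, G θ := by
  have hpi := Real.pi_pos
  have h1 : ∀ k, ∫⁻ θ in AA, G (θ + an k) = ∫⁻ θ in Ioo (an k) (an (k + 1)), G θ := by
    intro k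
    rw [← lintegral_indicator AA_meas, ← lintegral_indicator measurableSet_Ioo,
      ← lintegral_add_right_eq_self ((Ioo (an k) (an (k + 1))).indicator fun θ => G θ) (an k)]
    refine lintegral_congr fun θ => ?_
    by_cases hθ : θ ∈ AA
    · rw [indicator_of_mem hθ, indicator_of_mem]
      unfold AA at hθ
      refine ⟨by linarith [hθ.1], ?_⟩
      have : an (k + 1) = Real.pi / 4 + an k := by
        unfold an
        push_cast
        ring
      linarith [hθ.2]
    · rw [indicator_of_notMem hθ, indicator_of_notMem]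
      intro hc
      apply hθ
      unfold AA
      have : an (k + 1) = Real.pi / 4 + an k := by
        unfold an
        push_cast
        ring
      exact ⟨by linarith [hc.1], by linarith [hc.2]⟩
  simp_rw [h1]
  rw [← lintegral_biUnion_finset]
  · refine lintegral_mono_set ?_
    intro θ hθ
    rw [mem_iUnion₂] at hθ
    obtain ⟨k, hk, hθ⟩ := hθ
    have hk8 : k + 1 ≤ 8 := by
      rw [Finset.mem_range] at hk
      omega
    unfold CC
    refine ⟨lt_of_le_of_lt ?_ hθ.1, lt_of_lt_of_le hθ.2 ?_⟩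
    · unfold an
      have : (0 : ℝ) ≤ k := Nat.cast_nonneg k
      nlinarith
    · unfold an
      have : ((k + 1 : ℕ) : ℝ) ≤ 8 := by exact_mod_cast hk8
      nlinarith
  · intro i _ j _ hij
    have key : ∀ i j : ℕ, i < j → Disjoint (Ioo (an i) (an (i + 1))) (Ioo (an j) (an (j + 1))) := by
      intro i j hij
      rw [Set.disjoint_left]
      rintro x ⟨_, h1⟩ ⟨h2, _⟩
      have h3 : an (i + 1) ≤ an j := by
        unfold an
        have : ((i + 1 : ℕ) : ℝ) ≤ (j : ℝ) := by exact_mod_cast hij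
        nlinarith
      linarith
    rcases lt_or_gt_of_ne hij with h | h
    · exact key i j h
    · exact (key j i h).symm
  · exact fun k _ => measurableSet_Ioo

theorem EC_eq (hf : Measurable f) (hi : Integrable f) (t : ℝ) (ξ : ℂ) :
    2 * EC f t ξ = ∑ k ∈ Finset.range 8, PP (pH f k) t ((starRingEnd ℂ) (om (an k)) * ξ) := by
  set g : ℂ → ℂ := fun x => f x * cexp (((-(⟪ξ, x⟫ + t * ‖x‖ ^ 2) : ℝ) : ℂ) * I) with hg
  have hgm : Measurable g := hf.mul (Continuous.measurable (by fun_prop))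
  have hgi : Integrable g := by
    refine hi.norm.mono' hgm.aestronglyMeasurable (Eventually.of_forall fun x => ?_)
    rw [hg]
    simp only
    rw [norm_mul, Complex.norm_exp_ofReal_mul_I, mul_one]
  unfold EC
  rw [polar_Cs g hgm hgi]
  set G : ℝ → ℂ := fun θ => ∫ s in Ioi (0 : ℝ), g (√s • om θ) with hG
  have hGm : StronglyMeasurable G := by
    refine StronglyMeasurable.integral_prod_right (f := fun (θ : ℝ) (s : ℝ) => g (√s • om θ)) ?_
    refine Measurable.stronglyMeasurable (hgm.comp ?_)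
    exact ((Real.continuous_sqrt.comp continuous_snd).smul (om_cont.comp continuous_fst)).measurable
  have hGi : IntegrableOn G CC := by
    refine ⟨hGm.aestronglyMeasurable, ?_⟩
    refine lt_of_le_of_lt (lintegral_mono fun θ => enorm_integral_le_lintegral_enorm _) ?_
    rw [← polar_Ls (fun x => ‖g x‖ₑ) hgm.enorm]
    exact ENNReal.mul_lt_top (by norm_num) hgi.2
  rw [CC_split hGi]
  refine Finset.sum_congr rfl fun k _ => ?_
  unfold PP
  refine integral_congr_ae (Eventually.of_forall fun θ => ?_)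
  simp only [hG]
  refine setIntegral_congr_fun measurableSet_Ioi fun s hs => ?_
  have hs0 : (0 : ℝ) < s := hs
  rw [hg]
  unfold pH
  simp only
  rw [inner_om, norm_r_om _ _ (Real.sqrt_nonneg _), Real.sq_sqrt hs0.le, aa_add]

theorem rot_lint (F : ℂ → ℝ≥0∞) (α : ℝ) :
    ∫⁻ ξ, F ((starRingEnd ℂ) (om α) * ξ) = ∫⁻ ξ, F ξ := by
  have hc : (starRingEnd ℂ) (om α) ∈ Submonoid.unitSphere ℂ := by
    rw [Submonoid.unitSphere, ← SetLike.mem_coe]
    simp [om_norm]
  set c : Circle := ⟨(starRingEnd ℂ) (om α), hc⟩ with hcd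
  have hmp : MeasurePreserving (rotation c) (volume : Measure ℂ) volume :=
    (rotation c).measurePreserving
  have := hmp.lintegral_comp_emb (rotation c).toHomeomorph.measurableEmbedding F
  exact this

theorem BVR.bd (h : BVR f m) (x : ℂ) (hx : x ≠ 0) : ‖f x‖ ≤ m x := by
  have hx0 : 0 < ‖x‖ := norm_pos_iff.2 hx
  have h1 := h.var x hx (max 1 (2 / ‖x‖)) (le_max_left _ _)
  have h2 : 1 < ‖(max 1 (2 / ‖x‖)) • x‖ := by
    rw [norm_smul, Real.norm_of_nonneg (le_trans zero_le_one (le_max_left _ _))]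
    have : 2 / ‖x‖ ≤ max 1 (2 / ‖x‖) := le_max_right _ _
    have h3 : 2 ≤ max 1 (2 / ‖x‖) * ‖x‖ := by
      rw [div_le_iff₀ hx0] at this
      exact this
    linarith
  rw [h.suppf _ h2, h.suppm _ h2, sub_zero, sub_zero] at h1
  exact h1

theorem BVR.bd_ae (h : BVR f m) : ∀ᵐ x : ℂ, ‖f x‖ ≤ m x := by
  have h1 : ∀ᵐ x : ℂ, x ≠ 0 := by
    rw [ae_iff]
    simp
  filter_upwards [h1] with x hx
  exact h.bd x hx

/-- `L¹` norm by `L^q` norm -/
theorem BVR.l1 (h : BVR f m) (q : ℝ) (hq : 1 < q) :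
    (∫⁻ x, ‖f x‖ₑ) ^ q ≤ ENNReal.ofReal (Real.pi ^ (q - 1)) * ∫⁻ x, ENNReal.ofReal (m x) ^ q := by
  have hq0 : 0 < q := by linarith
  have h1 : ∫⁻ x, ‖f x‖ₑ ≤ ∫⁻ x, (Metric.closedBall (0 : ℂ) 1).indicator 1 x * ENNReal.ofReal (m x) := by
    refine lintegral_mono_ae ?_
    filter_upwards [h.bd_ae] with x hx
    by_cases h2 : x ∈ Metric.closedBall (0 : ℂ) 1
    · rw [indicator_of_mem h2, Pi.one_apply, one_mul, ← ofReal_norm]
      exact ENNReal.ofReal_le_ofReal hx
    · rw [h.suppf x (by simpa using h2)]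
      simp
  have h3 := jens (volume : Measure ℂ) ((Metric.closedBall (0 : ℂ) 1).indicator 1)
    (fun x => ENNReal.ofReal (m x))
    (measurable_one.indicator Metric.isClosed_closedBall.measurableSet).aemeasurable
    h.measm.ennreal_ofReal.aemeasurable q hq
  refine (ENNReal.rpow_le_rpow h1 hq0.le).trans (h3.trans ?_)
  have h4 : ∫⁻ x, (Metric.closedBall (0 : ℂ) 1).indicator 1 x = ENNReal.ofReal Real.pi := by
    rw [lintegral_indicator_one Metric.isClosed_closedBall.measurableSet, Complex.volume_closedBall]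
    rw [ENNReal.ofReal_one, one_pow, one_mul, ← NNReal.coe_real_pi, ENNReal.ofReal_coe_nnreal]
  rw [h4, ENNReal.ofReal_rpow_of_nonneg Real.pi_pos.le (by linarith)]
  gcongr with x
  by_cases h2 : x ∈ Metric.closedBall (0 : ℂ) 1
  · rw [indicator_of_mem h2, Pi.one_apply, one_mul]
  · rw [indicator_of_notMem h2, zero_mul]
    exact zero_le

theorem BVR.int (h : BVR f m) (q : ℝ) (hq : 1 < q) (hX : ∫⁻ x, ENNReal.ofReal (m x) ^ q ≠ ∞) :
    Integrable f := by
  refine ⟨h.measf.aestronglyMeasurable, ?_⟩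
  have h1 := h.l1 q hq
  unfold HasFiniteIntegral
  by_contra hc
  rw [not_lt, top_le_iff] at hc
  rw [hc, ENNReal.top_rpow_of_pos (by linarith), top_le_iff] at h1
  exact ENNReal.mul_ne_top ENNReal.ofReal_ne_top hX h1

/-- **The fixed time theorem in the plane** -/
theorem FTP (q κ : ℝ) (hq : 2 < q) (hq4 : q < 4) (hκ0 : 0 ≤ κ) (hκ : κ < q - 2) : ∃ C : ℝ≥0∞, C ≠ ∞ ∧
    ∀ (f : ℂ → ℂ) (m : ℂ → ℝ), BVR f m → ∀ t : ℝ,
    ∫⁻ ξ, ‖EC f t ξ‖ₑ ^ q ≤ C * ENNReal.ofReal ((1 + |t|) ^ (-κ)) *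
      ∫⁻ x, ENNReal.ofReal (m x) ^ q := by
  obtain ⟨C, hC, h0⟩ := FT q κ hq hq4 hκ0 hκ
  have hq0 : 0 < q := by linarith
  have h8 : (8 : ℝ≥0∞) ^ (q - 1) ≠ ∞ := ENNReal.rpow_ne_top_of_nonneg (by linarith) (by norm_num)
  refine ⟨8 ^ (q - 1) * C * 2 + 1, ENNReal.add_ne_top.2 ⟨ENNReal.mul_ne_top (ENNReal.mul_ne_top h8 hC)
    (by norm_num), ENNReal.one_ne_top⟩, ?_⟩
  intro f m h t
  set T := ENNReal.ofReal ((1 + |t|) ^ (-κ)) with hT
  have hT0 : T ≠ 0 := by
    rw [hT]
    simp only [ne_eq, ENNReal.ofReal_eq_zero, not_le]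
    positivity
  by_cases hX : ∫⁻ x, ENNReal.ofReal (m x) ^ q = ∞
  · rw [hX, ENNReal.mul_top]
    · exact le_top
    · exact mul_ne_zero (by simp) hT0
  have hi := h.int q (by linarith) hX
  have hmm : Measurable fun x => ENNReal.ofReal (m x) ^ q := h.measm.ennreal_ofReal.pow_const q
  set P : ℕ → ℂ → ℝ≥0∞ := fun k ξ => ‖PP (pH f k) t ((starRingEnd ℂ) (om (an k)) * ξ)‖ₑ with hP
  have hPm : ∀ k, Measurable (P k) := fun k =>
    ((PP_meas' _ (h.ray k).measH t).comp (by fun_prop)).enorm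
  have h1 : ∀ ξ, ‖EC f t ξ‖ₑ ≤ ∑ k ∈ Finset.range 8, P k ξ := by
    intro ξ
    calc ‖EC f t ξ‖ₑ ≤ ‖(2 : ℂ) * EC f t ξ‖ₑ := by
          rw [enorm_mul]
          refine le_mul_of_one_le_left zero_le ?_
          rw [← ofReal_norm]
          norm_num
      _ ≤ _ := by
          rw [EC_eq h.measf hi]
          exact enorm_sum_le _ _
  have h2 : ∀ ξ, ‖EC f t ξ‖ₑ ^ q ≤ 8 ^ (q - 1) * ∑ k ∈ Finset.range 8, P k ξ ^ q := by
    intro ξ
    refine (ENNReal.rpow_le_rpow (h1 ξ) hq0.le).trans ?_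
    have := ENNReal.rpow_sum_le_const_mul_sum_rpow (Finset.range 8) (fun k => P k ξ) (by linarith : (1 : ℝ) ≤ q)
    simpa using this
  have h3 : ∀ k, ∫⁻ ξ, P k ξ ^ q ≤ C * T * ∫⁻ θ in AA, ∫⁻ s in Ioi (0 : ℝ),
      ENNReal.ofReal (m (√s • om (θ + an k))) ^ q := by
    intro k
    rw [hP]
    simp only
    rw [rot_lint (fun ξ => ‖PP (pH f k) t ξ‖ₑ ^ q)]
    exact h0 _ _ (h.ray k) t
  calc ∫⁻ ξ, ‖EC f t ξ‖ₑ ^ q ≤ ∫⁻ ξ, 8 ^ (q - 1) * ∑ k ∈ Finset.range 8, P k ξ ^ q :=
        lintegral_mono h2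
    _ = 8 ^ (q - 1) * ∑ k ∈ Finset.range 8, ∫⁻ ξ, P k ξ ^ q := by
        rw [lintegral_const_mul' _ _ h8, lintegral_finsetSum _ (fun k _ => (hPm k).pow_const q)]
    _ ≤ 8 ^ (q - 1) * ∑ k ∈ Finset.range 8, C * T * ∫⁻ θ in AA, ∫⁻ s in Ioi (0 : ℝ),
          ENNReal.ofReal (m (√s • om (θ + an k))) ^ q := by
        gcongr with k _
        exact h3 k
    _ = 8 ^ (q - 1) * (C * T) * ∑ k ∈ Finset.range 8, ∫⁻ θ in AA, ∫⁻ s in Ioi (0 : ℝ),
          ENNReal.ofReal (m (√s • om (θ + an k))) ^ q := by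
        rw [← Finset.mul_sum]
        ring
    _ ≤ 8 ^ (q - 1) * (C * T) * ∫⁻ θ in CC, ∫⁻ s in Ioi (0 : ℝ), ENNReal.ofReal (m (√s • om θ)) ^ q := by
        gcongr
        exact CC_split_lint (fun θ => ∫⁻ s in Ioi (0 : ℝ), ENNReal.ofReal (m (√s • om θ)) ^ q)
    _ = 8 ^ (q - 1) * (C * T) * (2 * ∫⁻ x, ENNReal.ofReal (m x) ^ q) := by
        rw [polar_Ls _ hmm]
    _ = 8 ^ (q - 1) * C * 2 * T * ∫⁻ x, ENNReal.ofReal (m x) ^ q := by ring
    _ ≤ _ := by
        gcongr
        exact le_self_add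

end Run7.h783.RV
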