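import Mathlib
import Pool.Agent.Run7.h783.RV.Plane
import Pool.Agent.R412.RT.C
set_option autoImplicit false

/-! # The space-time estimate and the transfer to Euclidean space -/

namespace Run7.h783.RV

open MeasureTheory Set Complex Filter Topology
open scoped ENNReal NNReal RealInnerProductSpace

variable {f : ℂ → ℂ} {m : ℂ → ℝ}

theorem time_int (κ : ℝ) (hκ : 1 < κ) : ∫⁻ t : ℝ, ENNReal.ofReal ((1 + |t|) ^ (-κ)) ≠ ∞ := by
  have h := finite_integral_one_add_norm (E := ℝ) (μ := volume) (r := κ) (by simpa using hκ)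
  simp only [Real.norm_eq_abs] at h
  exact h.ne

theorem ST1 (q : ℝ) (hq : 3 < q) (hq4 : q < 4) : ∃ C : ℝ≥0∞, C ≠ ∞ ∧
    ∀ (f : ℂ → ℂ) (m : ℂ → ℝ), BVR f m →
    ∫⁻ t : ℝ, ∫⁻ ξ : ℂ, ‖EC f t ξ‖ₑ ^ q ≤ C * ∫⁻ x, ENNReal.ofReal (m x) ^ q := by
  obtain ⟨C, hC, h0⟩ := FTP q ((q - 1) / 2) (by linarith) hq4 (by linarith) (by linarith)
  set J := ∫⁻ t : ℝ, ENNReal.ofReal ((1 + |t|) ^ (-((q - 1) / 2))) with hJ
  have hJt : J ≠ ∞ := time_int _ (by linarith)
  refine ⟨C * J, ENNReal.mul_ne_top hC hJt, fun f m h => ?_⟩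
  calc ∫⁻ t : ℝ, ∫⁻ ξ : ℂ, ‖EC f t ξ‖ₑ ^ q
      ≤ ∫⁻ t : ℝ, ENNReal.ofReal ((1 + |t|) ^ (-((q - 1) / 2))) * (C * ∫⁻ x, ENNReal.ofReal (m x) ^ q) := by
        refine lintegral_mono fun t => (h0 f m h t).trans (le_of_eq ?_)
        ring
    _ = J * (C * ∫⁻ x, ENNReal.ofReal (m x) ^ q) := by
        rw [lintegral_mul_const]
        fun_prop
    _ = _ := by ring

theorem BVR.lp (h : BVR f m) (p q : ℝ) (hp : 0 < p) (hpq : p < q) :
    (∫⁻ x, ENNReal.ofReal (m x) ^ p) ^ (q / p) ≤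
      ENNReal.ofReal (Real.pi ^ (q / p - 1)) * ∫⁻ x, ENNReal.ofReal (m x) ^ q := by
  have hqp : 1 < q / p := (one_lt_div hp).2 hpq
  have h1 : ∫⁻ x, ENNReal.ofReal (m x) ^ p =
      ∫⁻ x, (Metric.closedBall (0 : ℂ) 1).indicator 1 x * ENNReal.ofReal (m x) ^ p := by
    refine lintegral_congr fun x => ?_
    by_cases h2 : x ∈ Metric.closedBall (0 : ℂ) 1
    · rw [indicator_of_mem h2, Pi.one_apply, one_mul]
    · rw [indicator_of_notMem h2, h.suppm x (by simpa using h2), zero_mul, ENNReal.ofReal_zero,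
        ENNReal.zero_rpow_of_pos hp]
  have h3 := jens (volume : Measure ℂ) ((Metric.closedBall (0 : ℂ) 1).indicator 1)
    (fun x => ENNReal.ofReal (m x) ^ p)
    (measurable_one.indicator Metric.isClosed_closedBall.measurableSet).aemeasurable
    (h.measm.ennreal_ofReal.pow_const p).aemeasurable (q / p) hqp
  rw [h1]
  refine h3.trans ?_
  have h4 : ∫⁻ x, (Metric.closedBall (0 : ℂ) 1).indicator 1 x = ENNReal.ofReal Real.pi := by
    rw [lintegral_indicator_one Metric.isClosed_closedBall.measurableSet, Complex.volume_closedBall]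
    rw [ENNReal.ofReal_one, one_pow, one_mul, ← NNReal.coe_real_pi, ENNReal.ofReal_coe_nnreal]
  rw [h4, ENNReal.ofReal_rpow_of_nonneg Real.pi_pos.le (by linarith)]
  gcongr with x
  rw [← ENNReal.rpow_mul, mul_div_cancel₀ _ hp.ne']
  by_cases h2 : x ∈ Metric.closedBall (0 : ℂ) 1
  · rw [indicator_of_mem h2, Pi.one_apply, one_mul]
  · rw [indicator_of_notMem h2, zero_mul]
    exact zero_le

theorem EC_sup (f : ℂ → ℂ) (t : ℝ) (ξ : ℂ) : ‖EC f t ξ‖ₑ ≤ ∫⁻ x, ‖f x‖ₑ := by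
  unfold EC
  refine (enorm_integral_le_lintegral_enorm _).trans (le_of_eq ?_)
  refine lintegral_congr fun x => ?_
  rw [enorm_mul, ← ofReal_norm (cexp _), Complex.norm_exp_ofReal_mul_I, ENNReal.ofReal_one, mul_one]

/-- **Space-time estimate** -/
theorem ST (q : ℝ) (hq : 3 < q) : ∃ C : ℝ≥0∞, C ≠ ∞ ∧
    ∀ (f : ℂ → ℂ) (m : ℂ → ℝ), BVR f m →
    ∫⁻ t : ℝ, ∫⁻ ξ : ℂ, ‖EC f t ξ‖ₑ ^ q ≤ C * ∫⁻ x, ENNReal.ofReal (m x) ^ q := by
  rcases lt_or_ge q 4 with hq4 | hq4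
  · exact ST1 q hq hq4
  · obtain ⟨C, hC, h0⟩ := ST1 (7 / 2) (by norm_num) (by norm_num)
    have hq0 : 0 < q := by linarith
    set a : ℝ := (q - 7 / 2) / q with ha
    set b : ℝ := (7 / 2) / q with hb
    have ha0 : 0 < a := div_pos (by linarith) hq0
    have hb0 : 0 < b := div_pos (by norm_num) hq0
    have hab : a + b = 1 := by
      rw [ha, hb, ← add_div, div_eq_one_iff_eq hq0.ne']
      ring
    refine ⟨ENNReal.ofReal (Real.pi ^ (q - 1)) ^ a * (C * ENNReal.ofReal (Real.pi ^ (q / (7 / 2) - 1)) ^ b) + 1,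
      ?_, ?_⟩
    · refine ENNReal.add_ne_top.2 ⟨?_, ENNReal.one_ne_top⟩
      exact ENNReal.mul_ne_top (ENNReal.rpow_ne_top_of_nonneg ha0.le ENNReal.ofReal_ne_top)
        (ENNReal.mul_ne_top hC (ENNReal.rpow_ne_top_of_nonneg hb0.le ENNReal.ofReal_ne_top))
    intro f m h
    set X := ∫⁻ x, ENNReal.ofReal (m x) ^ q with hX
    by_cases hXt : X = ∞
    · rw [hXt, ENNReal.mul_top]
      · exact le_top
      · simp
    set L := ∫⁻ x, ‖f x‖ₑ with hL
    have hLq := h.l1 q (by linarith)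
    have hLt : L ≠ ∞ := (h.int q (by linarith) hXt).2.ne
    have h1 : L ^ (q - 7 / 2) ≤ (ENNReal.ofReal (Real.pi ^ (q - 1)) * X) ^ a := by
      have := ENNReal.rpow_le_rpow hLq ha0.le
      rw [← ENNReal.rpow_mul] at this
      have e : q * a = q - 7 / 2 := by
        rw [ha]
        field_simp
      rwa [e] at this
    have h2 : ∫⁻ x, ENNReal.ofReal (m x) ^ (7 / 2 : ℝ) ≤
        (ENNReal.ofReal (Real.pi ^ (q / (7 / 2) - 1)) * X) ^ b := by
      have := ENNReal.rpow_le_rpow (h.lp (7 / 2) q (by norm_num) (by linarith)) hb0.le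
      rw [← ENNReal.rpow_mul] at this
      have e : q / (7 / 2) * b = 1 := by
        rw [hb]
        field_simp
      rwa [e, ENNReal.rpow_one] at this
    calc ∫⁻ t : ℝ, ∫⁻ ξ : ℂ, ‖EC f t ξ‖ₑ ^ q
        ≤ ∫⁻ t : ℝ, ∫⁻ ξ : ℂ, L ^ (q - 7 / 2) * ‖EC f t ξ‖ₑ ^ (7 / 2 : ℝ) := by
          refine lintegral_mono fun t => lintegral_mono fun ξ => ?_
          calc ‖EC f t ξ‖ₑ ^ q = ‖EC f t ξ‖ₑ ^ (q - 7 / 2) * ‖EC f t ξ‖ₑ ^ (7 / 2 : ℝ) := by
                rw [← ENNReal.rpow_add_of_nonneg _ _ (by linarith) (by norm_num), sub_add_cancel]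
            _ ≤ _ := by
                refine mul_le_mul' ?_ le_rfl
                exact ENNReal.rpow_le_rpow (EC_sup f t ξ) (by linarith)
      _ = L ^ (q - 7 / 2) * ∫⁻ t : ℝ, ∫⁻ ξ : ℂ, ‖EC f t ξ‖ₑ ^ (7 / 2 : ℝ) := by
          have hLt' : L ^ (q - 7 / 2) ≠ ∞ := ENNReal.rpow_ne_top_of_nonneg (by linarith) hLt
          simp_rw [lintegral_const_mul' _ _ hLt']
      _ ≤ (ENNReal.ofReal (Real.pi ^ (q - 1)) * X) ^ a * (C *
          (ENNReal.ofReal (Real.pi ^ (q / (7 / 2) - 1)) * X) ^ b) := by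
          refine mul_le_mul' h1 ((h0 f m h).trans ?_)
          gcongr
      _ = ENNReal.ofReal (Real.pi ^ (q - 1)) ^ a * (C * ENNReal.ofReal (Real.pi ^ (q / (7 / 2) - 1)) ^ b) *
          (X ^ a * X ^ b) := by
          rw [ENNReal.mul_rpow_of_nonneg _ _ ha0.le, ENNReal.mul_rpow_of_nonneg _ _ hb0.le]
          ring
      _ = ENNReal.ofReal (Real.pi ^ (q - 1)) ^ a * (C * ENNReal.ofReal (Real.pi ^ (q / (7 / 2) - 1)) ^ b) * X := by
          rw [← ENNReal.rpow_add_of_nonneg _ _ ha0.le hb0.le, hab, ENNReal.rpow_one]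
      _ ≤ _ := by
          gcongr
          exact le_self_add

/-- translations in the plane -/
theorem EC_trans (f : ℂ → ℂ) (a : ℂ) (t : ℝ) (ξ : ℂ) :
    ‖EC f t ξ‖ₑ = ‖EC (fun z => f (a + z)) t (ξ + (2 * t) • a)‖ₑ := by
  have h1 : EC f t ξ = cexp (((-(⟪ξ, a⟫ + t * ‖a‖ ^ 2) : ℝ) : ℂ) * I) *
      EC (fun z => f (a + z)) t (ξ + (2 * t) • a) := by
    unfold EC
    rw [← integral_add_left_eq_self _ a, ← integral_const_mul]
    refine integral_congr_ae (Eventually.of_forall fun z => ?_)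
    try simp only
    rw [mul_left_comm, ← Complex.exp_add, ← add_mul, ← Complex.ofReal_add]
    congr 4
    rw [inner_add_left, inner_add_right, inner_smul_left, norm_add_sq_real]
    simp only [conj_trivial]
    ring
  rw [h1, enorm_mul, ← ofReal_norm (cexp _), Complex.norm_exp_ofReal_mul_I, ENNReal.ofReal_one, one_mul]

theorem EC_trans_lint (f : ℂ → ℂ) (a : ℂ) (t q : ℝ) :
    ∫⁻ ξ, ‖EC f t ξ‖ₑ ^ q = ∫⁻ ξ, ‖EC (fun z => f (a + z)) t ξ‖ₑ ^ q := by
  rw [← lintegral_add_right_eq_self (fun ξ => ‖EC (fun z => f (a + z)) t ξ‖ₑ ^ q) ((2 * t) • a)]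
  refine lintegral_congr fun ξ => ?_
  rw [EC_trans f a t ξ]

/-- dilations -/
theorem EC_dil (f : ℂ → ℂ) (R : ℝ) (hR : 0 < R) (t : ℝ) (ξ : ℂ) :
    EC f t ξ = ((R ^ 2 : ℝ) : ℂ) * EC (fun z => f (R • z)) (R ^ 2 * t) (R • ξ) := by
  unfold EC
  have h1 := Measure.integral_comp_smul (volume : Measure ℂ)
    (fun x => f x * cexp (((-(⟪ξ, x⟫ + t * ‖x‖ ^ 2) : ℝ) : ℂ) * I)) R
  rw [Complex.finrank_real_complex, abs_of_pos (by positivity)] at h1
  have h2 : ∫ x : ℂ, f x * cexp (((-(⟪ξ, x⟫ + t * ‖x‖ ^ 2) : ℝ) : ℂ) * I) =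
      ((R ^ 2 : ℝ) : ℂ) * ∫ z : ℂ, f (R • z) * cexp (((-(⟪ξ, R • z⟫ + t * ‖R • z‖ ^ 2) : ℝ) : ℂ) * I) := by
    rw [h1, Complex.real_smul, ← mul_assoc, ← Complex.ofReal_mul, mul_inv_cancel₀ (by positivity),
      Complex.ofReal_one, one_mul]
  rw [h2]
  congr 1
  refine integral_congr_ae (Eventually.of_forall fun z => ?_)
  try simp only
  congr 4
  rw [inner_smul_right, inner_smul_left, norm_smul, Real.norm_of_nonneg hR.le]
  simp only [conj_trivial]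
  ring

theorem EC_meas (f : ℂ → ℂ) (hf : Measurable f) : Measurable fun p : ℝ × ℂ => EC f p.1 p.2 := by
  unfold EC
  refine StronglyMeasurable.measurable ?_
  refine StronglyMeasurable.integral_prod_right (f := fun (p : ℝ × ℂ) (x : ℂ) =>
    f x * cexp (((-(⟪p.2, x⟫ + p.1 * ‖x‖ ^ 2) : ℝ) : ℂ) * I)) ?_
  refine Measurable.stronglyMeasurable ?_
  exact (hf.comp measurable_snd).mul (Continuous.measurable (by fun_prop))

theorem EC_dil_lint (f : ℂ → ℂ) (hf : Measurable f) (R : ℝ) (hR : 0 < R) (q : ℝ) (hq : 0 < q) :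
    ∫⁻ t : ℝ, ∫⁻ ξ : ℂ, ‖EC f t ξ‖ₑ ^ q = ENNReal.ofReal (R ^ (2 * q - 4)) *
      ∫⁻ t : ℝ, ∫⁻ ξ : ℂ, ‖EC (fun z => f (R • z)) t ξ‖ₑ ^ q := by
  set g : ℂ → ℂ := fun z => f (R • z) with hg
  have hgm : Measurable g := hf.comp (measurable_const_smul R)
  have hm := EC_meas g hgm
  have hmt : Measurable fun t : ℝ => ∫⁻ ξ : ℂ, ‖EC g t ξ‖ₑ ^ q := by
    have : Measurable fun p : ℝ × ℂ => ‖EC g p.1 p.2‖ₑ ^ q := hm.enorm.pow_const q
    exact this.lintegral_prod_right'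
  have hm1 : ∀ t, Measurable fun ξ : ℂ => ‖EC g t ξ‖ₑ ^ q := by
    intro t
    have h1 : Measurable fun ξ : ℂ => ((t, ξ) : ℝ × ℂ) := measurable_prodMk_left
    have h2 := (hm.enorm.pow_const q).comp h1
    simp only [Function.comp_def] at h2
    exact h2
  have e1 : ∀ t : ℝ, ∫⁻ ξ : ℂ, ‖EC f t ξ‖ₑ ^ q = ENNReal.ofReal (R ^ (2 * q - 2)) *
      ∫⁻ ξ : ℂ, ‖EC g (R ^ 2 * t) ξ‖ₑ ^ q := by
    intro t
    have h1 := lint_smul (volume : Measure ℂ) (fun ξ => ‖EC g (R ^ 2 * t) ξ‖ₑ ^ q) (hm1 _) R hR.ne'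
    rw [Complex.finrank_real_complex, abs_of_pos (by positivity)] at h1
    calc ∫⁻ ξ : ℂ, ‖EC f t ξ‖ₑ ^ q = ∫⁻ ξ : ℂ, ENNReal.ofReal (R ^ (2 * q)) * ‖EC g (R ^ 2 * t) (R • ξ)‖ₑ ^ q := by
          refine lintegral_congr fun ξ => ?_
          rw [EC_dil f R hR t ξ, enorm_mul, ENNReal.mul_rpow_of_nonneg _ _ hq.le]
          congr 1
          rw [← ofReal_norm, Complex.norm_real, Real.norm_of_nonneg (by positivity),
            ENNReal.ofReal_rpow_of_nonneg (by positivity) hq.le, ← Real.rpow_natCast, ← Real.rpow_mul hR.le]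
          norm_num
      _ = ENNReal.ofReal (R ^ (2 * q)) * (ENNReal.ofReal (R ^ 2)⁻¹ * ∫⁻ ξ : ℂ, ‖EC g (R ^ 2 * t) ξ‖ₑ ^ q) := by
          rw [lintegral_const_mul' _ _ ENNReal.ofReal_ne_top, h1]
      _ = _ := by
          rw [← mul_assoc, ← ENNReal.ofReal_mul (by positivity)]
          congr 2
          rw [Real.rpow_sub hR, div_eq_mul_inv]
          norm_num
  simp_rw [e1]
  rw [lintegral_const_mul' _ _ ENNReal.ofReal_ne_top]
  have h2 := lint_smul (volume : Measure ℝ) (fun t => ∫⁻ ξ : ℂ, ‖EC g t ξ‖ₑ ^ q) hmt (R ^ 2) (by positivity)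
  simp only [smul_eq_mul] at h2
  rw [h2, Module.finrank_self, pow_one, abs_of_pos (by positivity), ← mul_assoc,
    ← ENNReal.ofReal_mul (by positivity)]
  congr 2
  rw [show 2 * q - 2 = (2 * q - 4) + 2 by ring, Real.rpow_add hR, mul_assoc]
  norm_num
  rw [mul_inv_cancel₀ (by positivity), mul_one]

open Pool.Agent.H789R2.FR (E)

theorem toE_emb : MeasurableEmbedding toE := by
  have h : toE = Pool.Agent.TH554.J1595.pr.symm ∘ Complex.measurableEquivRealProd := rfl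
  rw [h]
  exact Pool.Agent.TH554.J1595.pr.symm.measurableEmbedding.comp
    Complex.measurableEquivRealProd.measurableEmbedding

theorem toE_0 (z : ℂ) : (toE z) 0 = z.re := by
  have := Pool.Agent.TH554.J1595.pr.apply_symm_apply ((z.re, z.im) : ℝ × ℝ)
  rw [Pool.Agent.TH554.J1595.pr_apply] at this
  exact congrArg Prod.fst this

theorem toE_1 (z : ℂ) : (toE z) 1 = z.im := by
  have := Pool.Agent.TH554.J1595.pr.apply_symm_apply ((z.re, z.im) : ℝ × ℝ)
  rw [Pool.Agent.TH554.J1595.pr_apply] at this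
  exact congrArg Prod.snd this

theorem toE_add (z w : ℂ) : toE (z + w) = toE z + toE w := by
  ext i
  fin_cases i
  · change (toE (z + w)) 0 = (toE z) 0 + (toE w) 0
    simp only [toE_0, Complex.add_re]
  · change (toE (z + w)) 1 = (toE z) 1 + (toE w) 1
    simp only [toE_1, Complex.add_im]

theorem toE_smul (r : ℝ) (z : ℂ) : toE (r • z) = r • toE z := by
  ext i
  fin_cases i
  · change (toE (r • z)) 0 = r * (toE z) 0
    simp only [toE_0, Complex.smul_re, smul_eq_mul]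
  · change (toE (r • z)) 1 = r * (toE z) 1
    simp only [toE_1, Complex.smul_im, smul_eq_mul]

theorem toE_norm (z : ℂ) : ‖toE z‖ = ‖z‖ := by
  rw [EuclideanSpace.norm_eq, Fin.sum_univ_two, toE_0, toE_1, Complex.norm_def, Complex.normSq_apply]
  congr 1
  rw [Real.norm_eq_abs, Real.norm_eq_abs, sq_abs, sq_abs]
  ring

theorem toE_surj (x : E 2) : ∃ z, toE z = x := by
  refine ⟨⟨x 0, x 1⟩, ?_⟩
  ext i
  fin_cases i
  · exact toE_0 _
  · exact toE_1 _

/-- integration over `ℝ³` -/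
theorem lint_E3 (F : E 3 → ℝ≥0∞) (hF : Measurable F) :
    ∫⁻ ξ, F ξ = ∫⁻ t : ℝ, ∫⁻ z : ℂ, F !₂[z.re, z.im, t] := by
  have h1 := (PiLp.volume_preserving_toLp (Fin 3)).lintegral_comp hF
  have hm : Measurable fun y : Fin 3 → ℝ => F (WithLp.toLp 2 y) :=
    hF.comp (PiLp.volume_preserving_toLp (Fin 3)).measurable
  rw [← h1, Pool.Agent.R412.RT.split_lint (n := 2) (2 : Fin 3) _ hm]
  refine lintegral_congr fun t => ?_
  have h2 := Complex.volume_preserving_equiv_pi.lintegral_comp_emb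
    Complex.measurableEquivPi.measurableEmbedding
    (fun y : Fin 2 → ℝ => F (WithLp.toLp 2 ((2 : Fin 3).insertNth t y : Fin 3 → ℝ)))
  rw [← h2]
  refine lintegral_congr fun z => ?_
  congr 1
  ext i
  fin_cases i <;> simp [Complex.measurableEquivPi_apply, Fin.insertNth, Fin.succAboveCases]

end Run7.h783.RV
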