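import Mathlib
import Pool.Agent.Run7.h783.RV.Space
set_option autoImplicit false

/-! # Mixed norms of the extension of functions of bounded variation along rays -/

namespace Run7.h783.RV

open MeasureTheory Set Complex Filter Topology
open scoped ENNReal NNReal RealInnerProductSpace

variable {f : ℂ → ℂ} {m : ℂ → ℝ}

theorem MIX1 (n : ℕ) (hn : 2 ≤ n) (q : ℝ) (hq : 2 * ((n : ℝ) + 1) / n < q) (hq4 : q < 4) :
    ∃ C : ℝ≥0∞, C ≠ ∞ ∧ ∀ (f : ℂ → ℂ) (m : ℂ → ℝ), BVR f m →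
    ∫⁻ t : ℝ, (∫⁻ ξ : ℂ, ‖EC f t ξ‖ₑ ^ q) ^ ((n : ℝ) / 2) ≤
      C * (∫⁻ x, ENNReal.ofReal (m x) ^ q) ^ ((n : ℝ) / 2) := by
  have hn2 : (2 : ℝ) ≤ n := by exact_mod_cast hn
  have hn0 : (0 : ℝ) < n := by linarith
  have hn' : (0 : ℝ) ≤ (n : ℝ) / 2 := by positivity
  have hq2 : 2 / (n : ℝ) < q - 2 := by
    have : 2 * ((n : ℝ) + 1) / n = 2 + 2 / n := by field_simp
    rw [this] at hq
    linarith
  have h2n : 0 < 2 / (n : ℝ) := by positivity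
  set κ : ℝ := (q - 2 + 2 / n) / 2 with hκ
  have hκ1 : 1 < κ * (n / 2) := by
    have h1 : 2 / (n : ℝ) < κ := by rw [hκ]; linarith
    calc (1 : ℝ) = 2 / n * (n / 2) := by field_simp
      _ < κ * (n / 2) := by gcongr
  obtain ⟨C, hC, h0⟩ := FTP q κ (by linarith) hq4 (by rw [hκ]; linarith) (by rw [hκ]; linarith)
  set J := ∫⁻ t : ℝ, ENNReal.ofReal ((1 + |t|) ^ (-(κ * (n / 2)))) with hJ
  have hJt : J ≠ ∞ := time_int _ hκ1
  refine ⟨C ^ ((n : ℝ) / 2) * J, ENNReal.mul_ne_top (ENNReal.rpow_ne_top_of_nonneg hn' hC) hJt,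
    fun f m h => ?_⟩
  set X := ∫⁻ x, ENNReal.ofReal (m x) ^ q with hX
  calc ∫⁻ t : ℝ, (∫⁻ ξ : ℂ, ‖EC f t ξ‖ₑ ^ q) ^ ((n : ℝ) / 2)
      ≤ ∫⁻ t : ℝ, ENNReal.ofReal ((1 + |t|) ^ (-(κ * (n / 2)))) *
          (C ^ ((n : ℝ) / 2) * X ^ ((n : ℝ) / 2)) := by
        refine lintegral_mono fun t => (ENNReal.rpow_le_rpow (h0 f m h t) hn').trans (le_of_eq ?_)
        rw [ENNReal.mul_rpow_of_nonneg _ _ hn', ENNReal.mul_rpow_of_nonneg _ _ hn',
          ENNReal.ofReal_rpow_of_nonneg (by positivity) hn', ← Real.rpow_mul (by positivity), neg_mul]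
        ring
    _ = J * (C ^ ((n : ℝ) / 2) * X ^ ((n : ℝ) / 2)) := by
        rw [lintegral_mul_const]
        fun_prop
    _ = _ := by ring

theorem MIX2 (n : ℕ) (hn : 2 ≤ n) (q : ℝ) (hq : 2 * ((n : ℝ) + 1) / n < q) :
    ∃ C : ℝ≥0∞, C ≠ ∞ ∧ ∀ (f : ℂ → ℂ) (m : ℂ → ℝ), BVR f m →
    ∫⁻ t : ℝ, (∫⁻ ξ : ℂ, ‖EC f t ξ‖ₑ ^ q) ^ ((n : ℝ) / 2) ≤
      C * (∫⁻ x, ENNReal.ofReal (m x) ^ q) ^ ((n : ℝ) / 2) := by
  rcases lt_or_ge q 4 with hq4 | hq4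
  · exact MIX1 n hn q hq hq4
  · have hn2 : (2 : ℝ) ≤ n := by exact_mod_cast hn
    have hn0 : (0 : ℝ) < n := by linarith
    have hn' : (0 : ℝ) < (n : ℝ) / 2 := by positivity
    obtain ⟨C, hC, h0⟩ := MIX1 n hn (7 / 2) (by
      rw [div_lt_iff₀ hn0]; linarith) (by norm_num)
    have hq0 : 0 < q := by linarith
    set a : ℝ := (q - 7 / 2) / q with ha
    set b : ℝ := (7 / 2) / q with hb
    have ha0 : 0 < a := div_pos (by linarith) hq0
    have hb0 : 0 < b := div_pos (by norm_num) hq0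
    have hab : a + b = 1 := by
      rw [ha, hb, ← add_div, div_eq_one_iff_eq hq0.ne']
      ring
    set N : ℝ := (n : ℝ) / 2 with hN
    set K : ℝ≥0∞ := (ENNReal.ofReal (Real.pi ^ (q - 1)) ^ a) ^ N *
      (C * (ENNReal.ofReal (Real.pi ^ (q / (7 / 2) - 1)) ^ b) ^ N) with hK
    refine ⟨K + 1, ?_, ?_⟩
    · refine ENNReal.add_ne_top.2 ⟨?_, ENNReal.one_ne_top⟩
      exact ENNReal.mul_ne_top (ENNReal.rpow_ne_top_of_nonneg hn'.le
        (ENNReal.rpow_ne_top_of_nonneg ha0.le ENNReal.ofReal_ne_top))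
        (ENNReal.mul_ne_top hC (ENNReal.rpow_ne_top_of_nonneg hn'.le
        (ENNReal.rpow_ne_top_of_nonneg hb0.le ENNReal.ofReal_ne_top)))
    intro f m h
    set X := ∫⁻ x, ENNReal.ofReal (m x) ^ q with hX
    by_cases hXt : X = ∞
    · rw [hXt, ENNReal.top_rpow_of_pos hn', ENNReal.mul_top]
      · exact le_top
      · simp
    set L := ∫⁻ x, ‖f x‖ₑ with hL
    have hLq := h.l1 q (by linarith)
    have hLt : L ≠ ∞ := (h.int q (by linarith) hXt).2.ne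
    have h1 : L ^ (q - 7 / 2) ≤ (ENNReal.ofReal (Real.pi ^ (q - 1)) * X) ^ a := by
      have := ENNReal.rpow_le_rpow hLq ha0.le
      rw [← ENNReal.rpow_mul] at this
      have e : q * a = q - 7 / 2 := by
        rw [ha]
        field_simp
      rwa [e] at this
    have h2 : ∫⁻ x, ENNReal.ofReal (m x) ^ (7 / 2 : ℝ) ≤
        (ENNReal.ofReal (Real.pi ^ (q / (7 / 2) - 1)) * X) ^ b := by
      have := ENNReal.rpow_le_rpow (h.lp (7 / 2) q (by norm_num) (by linarith)) hb0.le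
      rw [← ENNReal.rpow_mul] at this
      have e : q / (7 / 2) * b = 1 := by
        rw [hb]
        field_simp
      rwa [e, ENNReal.rpow_one] at this
    have hLt' : L ^ (q - 7 / 2) ≠ ∞ := ENNReal.rpow_ne_top_of_nonneg (by linarith) hLt
    calc ∫⁻ t : ℝ, (∫⁻ ξ : ℂ, ‖EC f t ξ‖ₑ ^ q) ^ N
        ≤ ∫⁻ t : ℝ, (∫⁻ ξ : ℂ, L ^ (q - 7 / 2) * ‖EC f t ξ‖ₑ ^ (7 / 2 : ℝ)) ^ N := by
          refine lintegral_mono fun t => ENNReal.rpow_le_rpow (lintegral_mono fun ξ => ?_) hn'.le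
          calc ‖EC f t ξ‖ₑ ^ q = ‖EC f t ξ‖ₑ ^ (q - 7 / 2) * ‖EC f t ξ‖ₑ ^ (7 / 2 : ℝ) := by
                rw [← ENNReal.rpow_add_of_nonneg _ _ (by linarith) (by norm_num), sub_add_cancel]
            _ ≤ _ := by
                refine mul_le_mul' ?_ le_rfl
                exact ENNReal.rpow_le_rpow (EC_sup f t ξ) (by linarith)
      _ = (L ^ (q - 7 / 2)) ^ N * ∫⁻ t : ℝ, (∫⁻ ξ : ℂ, ‖EC f t ξ‖ₑ ^ (7 / 2 : ℝ)) ^ N := by
          simp_rw [lintegral_const_mul' _ _ hLt', ENNReal.mul_rpow_of_nonneg _ _ hn'.le]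
          rw [lintegral_const_mul' _ _ (ENNReal.rpow_ne_top_of_nonneg hn'.le hLt')]
      _ ≤ ((ENNReal.ofReal (Real.pi ^ (q - 1)) * X) ^ a) ^ N * (C *
          ((ENNReal.ofReal (Real.pi ^ (q / (7 / 2) - 1)) * X) ^ b) ^ N) := by
          refine mul_le_mul' (ENNReal.rpow_le_rpow h1 hn'.le) ((h0 f m h).trans ?_)
          gcongr
      _ = K * (X ^ a * X ^ b) ^ N := by
          rw [ENNReal.mul_rpow_of_nonneg _ _ ha0.le, ENNReal.mul_rpow_of_nonneg _ _ hb0.le,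
            ENNReal.mul_rpow_of_nonneg _ _ hn'.le, ENNReal.mul_rpow_of_nonneg _ _ hn'.le,
            ENNReal.mul_rpow_of_nonneg _ _ hn'.le, hK]
          ring
      _ = K * X ^ N := by
          rw [← ENNReal.rpow_add_of_nonneg _ _ ha0.le hb0.le, hab, ENNReal.rpow_one]
      _ ≤ _ := by
          gcongr
          exact le_self_add

/-- dilations at a fixed time -/
theorem EC_dil_fix (f : ℂ → ℂ) (hf : Measurable f) (R : ℝ) (hR : 0 < R) (q : ℝ) (hq : 0 < q) (t : ℝ) :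
    ∫⁻ ξ : ℂ, ‖EC f t ξ‖ₑ ^ q = ENNReal.ofReal (R ^ (2 * q - 2)) *
      ∫⁻ ξ : ℂ, ‖EC (fun z => f (R • z)) (R ^ 2 * t) ξ‖ₑ ^ q := by
  set g : ℂ → ℂ := fun z => f (R • z) with hg
  have hgm : Measurable g := hf.comp (measurable_const_smul R)
  have hm : Measurable fun ξ : ℂ => ‖EC g (R ^ 2 * t) ξ‖ₑ ^ q :=
    ((EC_meas g hgm).comp (measurable_const.prodMk measurable_id)).enorm.pow_const q
  have h1 := lint_smul (volume : Measure ℂ) (fun ξ => ‖EC g (R ^ 2 * t) ξ‖ₑ ^ q) hm R hR.ne'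
  rw [Complex.finrank_real_complex, abs_of_pos (by positivity)] at h1
  have h2 : ∀ ξ : ℂ, ‖EC f t ξ‖ₑ ^ q = ENNReal.ofReal (R ^ (2 * q)) * ‖EC g (R ^ 2 * t) (R • ξ)‖ₑ ^ q := by
    intro ξ
    rw [EC_dil f R hR t ξ, enorm_mul, ENNReal.mul_rpow_of_nonneg _ _ hq.le]
    congr 1
    rw [← ofReal_norm, Complex.norm_real, Real.norm_of_nonneg (by positivity),
      ENNReal.ofReal_rpow_of_nonneg (by positivity) hq.le, ← Real.rpow_natCast, ← Real.rpow_mul hR.le]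
    norm_num
  simp_rw [h2]
  rw [lintegral_const_mul' _ _ ENNReal.ofReal_ne_top, h1, ← mul_assoc,
    ← ENNReal.ofReal_mul (by positivity)]
  congr 2
  rw [sub_eq_add_neg, Real.rpow_add hR, Real.rpow_neg hR.le]
  norm_num

/-- **Mixed norms.** -/
theorem MIX (n : ℕ) (hn : 2 ≤ n) (q R : ℝ) (hq : 2 * ((n : ℝ) + 1) / n < q) (hR : 1 ≤ R) :
    ∃ C : ℝ≥0∞, C ≠ ∞ ∧ ∀ (f : ℂ → ℂ) (m : ℂ → ℝ) (a : ℂ), Measurable f → Measurable m →
    BVR (fun z => f (a + R • z)) (fun z => m (a + R • z)) →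
    ∫⁻ t : ℝ, (∫⁻ ξ : ℂ, ‖EC f t ξ‖ₑ ^ q) ^ ((n : ℝ) / 2) ≤
      C * (∫⁻ x, ENNReal.ofReal (m x) ^ q) ^ ((n : ℝ) / 2) := by
  obtain ⟨C, hC, h0⟩ := MIX2 n hn q hq
  have hn2 : (2 : ℝ) ≤ n := by exact_mod_cast hn
  have hn0 : (0 : ℝ) < n := by linarith
  have hn' : (0 : ℝ) < (n : ℝ) / 2 := by positivity
  have hR0 : 0 < R := by linarith
  have hq0 : 0 < q := by
    refine lt_trans ?_ hq
    positivity
  set N : ℝ := (n : ℝ) / 2 with hN
  refine ⟨ENNReal.ofReal (R ^ (2 * q - 2)) ^ N * C, ENNReal.mul_ne_top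
    (ENNReal.rpow_ne_top_of_nonneg hn'.le ENNReal.ofReal_ne_top) hC, ?_⟩
  intro f m a hf hm h
  set g : ℂ → ℂ := fun z => f (a + z) with hg
  have hgm : Measurable g := hf.comp (measurable_const.add measurable_id)
  set F : ℂ → ℂ := fun z => f (a + R • z) with hF
  have hFm : Measurable F := hgm.comp (measurable_const_smul R)
  have h1 : ∀ t, ∫⁻ ξ : ℂ, ‖EC f t ξ‖ₑ ^ q = ENNReal.ofReal (R ^ (2 * q - 2)) *
      ∫⁻ ξ : ℂ, ‖EC F (R ^ 2 * t) ξ‖ₑ ^ q := by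
    intro t
    rw [EC_trans_lint f a t q, EC_dil_fix g hgm R hR0 q hq0 t]
  have hTm : Measurable fun t : ℝ => (∫⁻ ξ : ℂ, ‖EC F t ξ‖ₑ ^ q) ^ N := by
    have : Measurable fun p : ℝ × ℂ => ‖EC F p.1 p.2‖ₑ ^ q := (EC_meas F hFm).enorm.pow_const q
    exact this.lintegral_prod_right'.pow_const N
  have h2 := lint_smul (volume : Measure ℝ) (fun t : ℝ => (∫⁻ ξ : ℂ, ‖EC F t ξ‖ₑ ^ q) ^ N) hTm
    (R ^ 2) (by positivity)
  simp only [smul_eq_mul] at h2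
  have h3 : ∫⁻ z : ℂ, ENNReal.ofReal (m (a + R • z)) ^ q ≤ ∫⁻ x, ENNReal.ofReal (m x) ^ q := by
    have hmm : Measurable fun x => ENNReal.ofReal (m x) ^ q := hm.ennreal_ofReal.pow_const q
    have h4 := lint_smul (volume : Measure ℂ) (fun z => ENNReal.ofReal (m (a + z)) ^ q)
      (hmm.comp (measurable_const.add measurable_id)) R hR0.ne'
    rw [h4, Complex.finrank_real_complex, abs_of_pos (by positivity),
      lintegral_add_left_eq_self (fun z => ENNReal.ofReal (m z) ^ q) a]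
    calc ENNReal.ofReal (R ^ 2)⁻¹ * ∫⁻ x, ENNReal.ofReal (m x) ^ q
        ≤ 1 * ∫⁻ x, ENNReal.ofReal (m x) ^ q := by
          gcongr
          rw [ENNReal.ofReal_le_one]
          exact inv_le_one_of_one_le₀ (one_le_pow₀ hR)
      _ = _ := one_mul _
  calc ∫⁻ t : ℝ, (∫⁻ ξ : ℂ, ‖EC f t ξ‖ₑ ^ q) ^ N
      = ENNReal.ofReal (R ^ (2 * q - 2)) ^ N *
          ∫⁻ t : ℝ, (∫⁻ ξ : ℂ, ‖EC F (R ^ 2 * t) ξ‖ₑ ^ q) ^ N := by
        simp_rw [h1, ENNReal.mul_rpow_of_nonneg _ _ hn'.le]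
        rw [lintegral_const_mul' _ _ (ENNReal.rpow_ne_top_of_nonneg hn'.le ENNReal.ofReal_ne_top)]
    _ ≤ ENNReal.ofReal (R ^ (2 * q - 2)) ^ N * (1 * (C *
          (∫⁻ x, ENNReal.ofReal (m x) ^ q) ^ N)) := by
        rw [h2]
        gcongr
        · rw [ENNReal.ofReal_le_one, abs_of_pos (by positivity)]
          apply inv_le_one_of_one_le₀
          exact one_le_pow₀ (one_le_pow₀ hR)
        · refine (h0 _ _ h).trans ?_
          gcongr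
    _ = _ := by ring

end Run7.h783.RV
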