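import Mathlib
import Pool.Agent.Run7.h783.RV.Mix
import Pool.Agent.TH277.CB.B
set_option autoImplicit false

/-! # Superpositions of modulated functions of bounded variation along rays in the square -/

namespace Run7.h783.RV

open MeasureTheory Set Complex Filter Topology
open scoped ENNReal NNReal RealInnerProductSpace
open Pool.Agent.TH277.CS (s2 sup sup_meas)
open Pool.Agent.TH277.HT (ch ch_norm ch_cont)
open Pool.Agent.TH277.CB (Q2 pq pq_norm pq_cont pq_exp E2 E2_meas)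

/-- the modulated function -/
noncomputable def md (η : ℝ × ℝ) (β : ℝ) (g : ℝ × ℝ → ℂ) (x : ℝ × ℝ) : ℂ :=
  cexp (I * ((η.1 * x.1 + η.2 * x.2 + β * (x.1 ^ 2 + x.2 ^ 2) : ℝ) : ℂ)) * g x

/-- the atoms -/
def RAtom (q R : ℝ) (g : ℝ × ℝ → ℂ) : Prop :=
  ∃ (a η : ℝ × ℝ) (β : ℝ) (m : ℝ × ℝ → ℝ), a ∈ Icc (-R, -R) (R, R) ∧ Measurable m ∧
    ∫⁻ x, ‖m x‖ₑ ^ q ≤ 1 ∧ (∀ x ∉ Icc (-1, -1) (1, 1), g x = 0) ∧
    (∀ x ∉ Icc (-R, -R) (R, R), m x = 0) ∧
    ∀ v : ℝ × ℝ, v ≠ 0 → ∀ ρ : ℝ, 1 ≤ ρ →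
      ‖md η β g (a + v) - md η β g (a + ρ • v)‖ ≤ m (a + v) - m (a + ρ • v)

/-- the plane -/
def cc (z : ℂ) : ℝ × ℝ := (z.re, z.im)

theorem cc_mp : MeasurePreserving cc := Complex.volume_preserving_equiv_real_prod

theorem cc_emb : MeasurableEmbedding cc := Complex.measurableEquivRealProd.measurableEmbedding

theorem cc_add (z w : ℂ) : cc (z + w) = cc z + cc w := rfl

theorem cc_smul (r : ℝ) (z : ℂ) : cc (r • z) = r • cc z := by
  unfold cc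
  ext <;> simp

theorem md_meas (η : ℝ × ℝ) (β : ℝ) (g : ℝ × ℝ → ℂ) (hg : Measurable g) : Measurable (md η β g) := by
  unfold md
  refine Measurable.mul ?_ hg
  exact Continuous.measurable (by fun_prop)

theorem md_norm (η : ℝ × ℝ) (β : ℝ) (g : ℝ × ℝ → ℂ) (x : ℝ × ℝ) : ‖md η β g x‖ = ‖g x‖ := by
  unfold md
  rw [norm_mul, mul_comm I, Complex.norm_exp_ofReal_mul_I, one_mul]

theorem E2_EC (g : ℝ × ℝ → ℂ) (η : ℝ × ℝ) (β : ℝ) (z : ℂ) (t : ℝ) :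
    E2 g (cc z) t = EC (fun w => md η β g (cc w)) (β - (2 * Real.pi) • t)
      ((⟨η.1, η.2⟩ : ℂ) - (2 * Real.pi) • z) := by
  unfold E2 EC
  rw [← cc_mp.integral_comp cc_emb]
  refine integral_congr_ae (Eventually.of_forall fun w => ?_)
  simp only
  rw [pq_exp]
  unfold md
  have hx : ∀ A B G : ℂ, cexp A * G * cexp B = cexp (A + B) * G := fun A B G => by
    rw [Complex.exp_add]
    ring
  rw [hx]
  congr 2
  have hn : ‖w‖ ^ 2 = w.re ^ 2 + w.im ^ 2 := by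
    rw [← Complex.normSq_eq_norm_sq, Complex.normSq_apply]; ring
  have hs : s2 (cc w) = w.re ^ 2 + w.im ^ 2 := rfl
  rw [hn, hs, Complex.inner, mul_comm _ I, ← mul_add]
  congr 1
  norm_cast
  simp only [cc, Complex.mul_re, Complex.conj_re, Complex.conj_im, Complex.sub_re, Complex.sub_im,
    Complex.real_smul, Complex.ofReal_re, Complex.ofReal_im, Complex.mul_im, smul_eq_mul]
  ring

theorem atom_bvr (R : ℝ) (hR : 1 ≤ R) (g : ℝ × ℝ → ℂ) (hg : Measurable g) (a η : ℝ × ℝ) (β : ℝ)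
    (m : ℝ × ℝ → ℝ) (ha : a ∈ Icc (-R, -R) (R, R)) (hm : Measurable m)
    (hg0 : ∀ x ∉ Icc (-1, -1) (1, 1), g x = 0) (hm0 : ∀ x ∉ Icc (-R, -R) (R, R), m x = 0)
    (hv : ∀ v : ℝ × ℝ, v ≠ 0 → ∀ ρ : ℝ, 1 ≤ ρ →
      ‖md η β g (a + v) - md η β g (a + ρ • v)‖ ≤ m (a + v) - m (a + ρ • v)) :
    BVR (fun z => md η β g (cc ((⟨a.1, a.2⟩ : ℂ) + (3 * R) • z)))
      (fun z => m (cc ((⟨a.1, a.2⟩ : ℂ) + (3 * R) • z))) := by
  have hcm : Measurable fun z : ℂ => cc ((⟨a.1, a.2⟩ : ℂ) + (3 * R) • z) :=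
    cc_mp.measurable.comp (measurable_const.add (measurable_const_smul (3 * R)))
  have e : ∀ z : ℂ, cc ((⟨a.1, a.2⟩ : ℂ) + (3 * R) • z) = a + (3 * R) • cc z := by
    intro z
    rw [cc_add, cc_smul]
    rfl
  have hout : ∀ z : ℂ, 1 < ‖z‖ → a + (3 * R) • cc z ∉ Icc (-R, -R) (R, R) := by
    intro z hz hin
    obtain ⟨⟨h1, h2⟩, h3, h4⟩ := hin
    obtain ⟨⟨a1, a2⟩, a3, a4⟩ := ha
    simp only [Prod.fst_add, Prod.snd_add, Prod.smul_fst, Prod.smul_snd, smul_eq_mul, cc] at h1 h2 h3 h4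
    simp only at a1 a2 a3 a4
    have hn : ‖z‖ ^ 2 = z.re ^ 2 + z.im ^ 2 := by
      rw [← Complex.normSq_eq_norm_sq, Complex.normSq_apply]; ring
    have hR0 : 0 < R := by linarith
    have b1 : |3 * z.re| ≤ 2 := by
      rw [abs_le]
      constructor
      · by_contra hc
        push Not at hc
        nlinarith
      · by_contra hc
        push Not at hc
        nlinarith
    have b2 : |3 * z.im| ≤ 2 := by
      rw [abs_le]
      constructor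
      · by_contra hc
        push Not at hc
        nlinarith
      · by_contra hc
        push Not at hc
        nlinarith
    have c1 := sq_le_sq' (abs_le.1 b1).1 (abs_le.1 b1).2
    have c2 := sq_le_sq' (abs_le.1 b2).1 (abs_le.1 b2).2
    nlinarith
  have hsub : Icc ((-1, -1) : ℝ × ℝ) (1, 1) ⊆ Icc (-R, -R) (R, R) := by
    apply Icc_subset_Icc
    · exact ⟨by simp only; linarith, by simp only; linarith⟩
    · exact ⟨hR, hR⟩
  refine ⟨(md_meas η β g hg).comp hcm, hm.comp hcm, ?_, ?_, ?_⟩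
  · intro z hz
    rw [e, ← norm_eq_zero, md_norm, norm_eq_zero]
    exact hg0 _ fun h => hout z hz (hsub h)
  · intro z hz
    rw [e]
    exact hm0 _ (hout z hz)
  · intro z hz ρ hρ
    rw [e, e, cc_smul, smul_comm]
    refine hv _ ?_ ρ hρ
    refine smul_ne_zero (by linarith) ?_
    intro h
    apply hz
    apply Complex.ext
    · exact congrArg Prod.fst h
    · exact congrArg Prod.snd h

theorem atom_mix (n : ℕ) (hn : 2 ≤ n) (q R : ℝ) (hq : 2 * ((n : ℝ) + 1) / n < q) (hR : 1 ≤ R) :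
    ∃ C : ℝ≥0∞, C ≠ ∞ ∧ ∀ g : ℝ × ℝ → ℂ, Measurable g → RAtom q R g →
    ∫⁻ t : ℝ, (∫⁻ y : ℝ × ℝ, ‖E2 g y t‖ₑ ^ q) ^ ((n : ℝ) / 2) ≤ C := by
  have hn2 : (2 : ℝ) ≤ n := by exact_mod_cast hn
  have hn0 : (0 : ℝ) < n := by linarith
  have hn' : (0 : ℝ) < (n : ℝ) / 2 := by positivity
  have hq0 : 0 < q := by
    refine lt_trans ?_ hq
    positivity
  obtain ⟨C, hC, h0⟩ := MIX n hn q (3 * R) hq (by linarith)
  refine ⟨C, hC, ?_⟩
  intro g hg h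
  obtain ⟨a, η, β, m, ha, hm, hm1, hg0, hm0, hv⟩ := h
  set F : ℂ → ℂ := fun w => md η β g (cc w) with hF
  have hFm : Measurable F := (md_meas η β g hg).comp cc_mp.measurable
  have hB := atom_bvr R hR g hg a η β m ha hm hg0 hm0 hv
  have h1 := h0 F (fun z => m (cc z)) ⟨a.1, a.2⟩ hFm (hm.comp cc_mp.measurable) hB
  have h2 : ∫⁻ x, ENNReal.ofReal (m (cc x)) ^ q ≤ 1 := by
    have h3 := cc_mp.lintegral_comp_emb cc_emb fun x => ENNReal.ofReal (m x) ^ q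
    rw [h3]
    refine le_trans (lintegral_mono fun x => ?_) hm1
    refine ENNReal.rpow_le_rpow ?_ hq0.le
    rw [← ofReal_norm]
    exact ENNReal.ofReal_le_ofReal (le_abs_self _)
  have hpi : (1 : ℝ) ≤ 2 * Real.pi := by linarith [Real.pi_gt_three]
  have h4 : ∀ t, ∫⁻ y : ℝ × ℝ, ‖E2 g y t‖ₑ ^ q ≤
      ∫⁻ ξ : ℂ, ‖EC F (β - (2 * Real.pi) • t) ξ‖ₑ ^ q := by
    intro t
    set τ : ℝ := β - (2 * Real.pi) • t with hτ
    have hm : Measurable fun ξ : ℂ => ‖EC F τ ξ‖ₑ ^ q :=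
      ((EC_meas F hFm).comp (measurable_const.prodMk measurable_id)).enorm.pow_const q
    have e1 := cc_mp.lintegral_comp_emb cc_emb fun y => ‖E2 g y t‖ₑ ^ q
    rw [← e1]
    have e2 : ∀ z : ℂ, ‖E2 g (cc z) t‖ₑ ^ q =
        ‖EC F τ ((⟨η.1, η.2⟩ : ℂ) - (2 * Real.pi) • z)‖ₑ ^ q := by
      intro z
      rw [E2_EC g η β z t]
    simp_rw [e2]
    have e3 := lint_smul (volume : Measure ℂ)
      (fun ξ => ‖EC F τ ((⟨η.1, η.2⟩ : ℂ) - ξ)‖ₑ ^ q)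
      (hm.comp (measurable_const.sub measurable_id)) (2 * Real.pi) (by positivity)
    rw [e3, lintegral_sub_left_eq_self (fun ξ : ℂ => ‖EC F τ ξ‖ₑ ^ q)]
    calc _ ≤ 1 * ∫⁻ ξ : ℂ, ‖EC F τ ξ‖ₑ ^ q := by
          gcongr
          rw [ENNReal.ofReal_le_one, abs_of_pos (by positivity)]
          exact inv_le_one_of_one_le₀ (one_le_pow₀ hpi)
      _ = _ := one_mul _
  have hTm : Measurable fun t : ℝ => (∫⁻ ξ : ℂ, ‖EC F t ξ‖ₑ ^ q) ^ ((n : ℝ) / 2) := by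
    have : Measurable fun p : ℝ × ℂ => ‖EC F p.1 p.2‖ₑ ^ q := (EC_meas F hFm).enorm.pow_const q
    exact this.lintegral_prod_right'.pow_const _
  have h5 := lint_smul (volume : Measure ℝ)
    (fun t : ℝ => (∫⁻ ξ : ℂ, ‖EC F (β - t) ξ‖ₑ ^ q) ^ ((n : ℝ) / 2))
    (hTm.comp (measurable_const.sub measurable_id)) (2 * Real.pi) (by positivity)
  calc ∫⁻ t : ℝ, (∫⁻ y : ℝ × ℝ, ‖E2 g y t‖ₑ ^ q) ^ ((n : ℝ) / 2)
      ≤ ∫⁻ t : ℝ, (∫⁻ ξ : ℂ, ‖EC F (β - (2 * Real.pi) • t) ξ‖ₑ ^ q) ^ ((n : ℝ) / 2) :=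
        lintegral_mono fun t => ENNReal.rpow_le_rpow (h4 t) hn'.le
    _ ≤ 1 * ∫⁻ t : ℝ, (∫⁻ ξ : ℂ, ‖EC F t ξ‖ₑ ^ q) ^ ((n : ℝ) / 2) := by
        rw [h5, lintegral_sub_left_eq_self
          (fun t : ℝ => (∫⁻ ξ : ℂ, ‖EC F t ξ‖ₑ ^ q) ^ ((n : ℝ) / 2))]
        gcongr
        rw [ENNReal.ofReal_le_one, abs_of_pos (by positivity)]
        exact inv_le_one_of_one_le₀ (one_le_pow₀ hpi)
    _ ≤ 1 * (C * 1 ^ ((n : ℝ) / 2)) := by
        refine mul_le_mul' le_rfl (h1.trans ?_)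
        gcongr
    _ = C := by
        rw [ENNReal.one_rpow, one_mul, mul_one]

/-- the `L¹` norm of an atom -/
theorem atom_l1 (q R : ℝ) (hq : 1 ≤ q) (hR : 1 ≤ R) (g : ℝ × ℝ → ℂ) (hg : Measurable g)
    (h : RAtom q R g) :
    ∫⁻ x, ‖g x‖ₑ ≤ volume (Icc (-R, -R) ((R, R) : ℝ × ℝ)) + 1 := by
  obtain ⟨a, η, β, m, ha, hm, hm1, hg0, hm0, hv⟩ := h
  have hB := atom_bvr R hR g hg a η β m ha hm hg0 hm0 hv
  have h1 : ∀ x, x ≠ a → ‖g x‖ ≤ m x := by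
    intro x hx
    set z : ℂ := (3 * R)⁻¹ • ((⟨x.1, x.2⟩ : ℂ) - ⟨a.1, a.2⟩) with hz
    have h3R : (3 * R) ≠ 0 := by positivity
    have hz0 : z ≠ 0 := by
      refine smul_ne_zero (inv_ne_zero h3R) ?_
      intro h
      apply hx
      rw [sub_eq_zero] at h
      have h5 := congrArg Complex.re h
      have h6 := congrArg Complex.im h
      exact Prod.ext h5 h6
    have h2 := hB.bd z hz0
    have h3 : cc ((⟨a.1, a.2⟩ : ℂ) + (3 * R) • z) = x := by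
      rw [hz, smul_smul, mul_inv_cancel₀ h3R, one_smul, add_sub_cancel]
      rfl
    rw [h3, md_norm] at h2
    exact h2
  have h2 : ∀ᵐ x : ℝ × ℝ, x ≠ a := by
    rw [ae_iff]
    simp
  have hQ : MeasurableSet (Icc (-R, -R) ((R, R) : ℝ × ℝ)) := measurableSet_Icc
  calc ∫⁻ x, ‖g x‖ₑ ≤ ∫⁻ x, ((Icc (-R, -R) ((R, R) : ℝ × ℝ)).indicator 1 x + ‖m x‖ₑ ^ q) := by
        refine lintegral_mono_ae ?_
        filter_upwards [h2] with x hx
        have h3 := h1 x hx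
        have h4 : ‖g x‖ₑ ≤ ‖m x‖ₑ := by
          rw [← ofReal_norm, ← ofReal_norm]
          exact ENNReal.ofReal_le_ofReal (h3.trans (le_abs_self _))
        by_cases hxQ : x ∈ Icc (-R, -R) ((R, R) : ℝ × ℝ)
        · rw [indicator_of_mem hxQ, Pi.one_apply]
          rcases le_total ‖m x‖ₑ 1 with h5 | h5
          · exact (h4.trans h5).trans le_self_add
          · refine h4.trans (le_trans ?_ le_add_self)
            calc ‖m x‖ₑ = ‖m x‖ₑ ^ (1 : ℝ) := (ENNReal.rpow_one _).symm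
              _ ≤ ‖m x‖ₑ ^ q := ENNReal.rpow_le_rpow_of_exponent_le h5 hq
        · rw [hm0 x hxQ, enorm_zero] at h4
          exact h4.trans zero_le
    _ = volume (Icc (-R, -R) ((R, R) : ℝ × ℝ)) + ∫⁻ x, ‖m x‖ₑ ^ q := by
        rw [lintegral_add_left (measurable_one.indicator hQ), lintegral_indicator_one hQ]
    _ ≤ _ := by gcongr

end Run7.h783.RV
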