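import Mathlib
import Pool.Agent.Run7.h783.RV.Prod
import Pool.Agent.TH277.CB.C
set_option autoImplicit false
set_option linter.unusedSectionVars false

/-! # The extension estimate for products over blocks -/

namespace Run7.h783.RV

open MeasureTheory Set Complex Filter Topology
open scoped ENNReal NNReal RealInnerProductSpace
open Pool.Agent.TH277.CS (s2 sup sup_meas)
open Pool.Agent.TH277.HT (ch ch_norm ch_cont ch_add ch_sum EE EE_meas Sch Adm E1 E1_meas E1t_meas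
  EE_mult lint_pi mix)
open Pool.Agent.TH277.CB (Q2 pq pq_norm pq_cont pq_exp E2 E2_meas E2t_meas Phi Phi_mp lint_pi2 EE_blk
  sch_time)

variable {S : Type} [MeasurableSpace S]

theorem swap_sup (ν : Measure S) [IsFiniteMeasure ν] {g : S → ℝ × ℝ → ℂ}
    (hm : Measurable (Function.uncurry g)) (B : ℝ≥0∞) (hB : B ≠ ∞) (hb : ∀ s, ∫⁻ x, ‖g s x‖ₑ ≤ B)
    (y : ℝ × ℝ) (t : ℝ) : E2 (sup ν g) y t = ∫ s, E2 (g s) y t ∂ν := by
  unfold E2
  have h3 : ∀ x, pq y t x * sup ν g x = ∫ s, pq y t x * g s x ∂ν := by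
    intro x
    unfold sup
    rw [integral_const_mul]
  simp only [h3]
  apply integral_integral_swap
  have hpm : Measurable (pq y t) := by
    have h := pq_cont.comp (Continuous.prodMk_right ((y, t) : (ℝ × ℝ) × ℝ))
    exact h.measurable
  have hmm : Measurable (Function.uncurry fun (x : ℝ × ℝ) (s : S) => pq y t x * g s x) :=
    (hpm.comp measurable_fst).mul (hm.comp measurable_swap)
  refine ⟨hmm.aestronglyMeasurable, ?_⟩
  unfold HasFiniteIntegral
  rw [lintegral_prod_symm _ hmm.enorm.aemeasurable]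
  refine lt_of_le_of_lt (b := ∫⁻ _s, B ∂ν) (lintegral_mono fun s => ?_) ?_
  · refine le_trans (lintegral_mono fun x => ?_) (hb s)
    simp only [Function.uncurry]
    rw [enorm_mul, ← ofReal_norm (pq y t x), pq_norm, ENNReal.ofReal_one, one_mul]
  · rw [lintegral_const]
    exact ENNReal.mul_lt_top hB.lt_top (measure_lt_top ν univ)

theorem jens1 (ν : Measure S) (A : S → ℝ≥0∞) (hA : AEMeasurable A ν) (N : ℝ) (hN : 1 ≤ N) :
    (∫⁻ s, A s ∂ν) ^ N ≤ ν univ ^ (N - 1) * ∫⁻ s, A s ^ N ∂ν := by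
  rcases hN.eq_or_lt with h | h
  · rw [← h, sub_self, ENNReal.rpow_zero, one_mul, ENNReal.rpow_one]
    simp only [ENNReal.rpow_one]
    exact le_rfl
  · have := jens ν 1 A aemeasurable_one hA N h
    simpa using this

theorem E2s_meas {g : S → ℝ × ℝ → ℂ} (hm : Measurable (Function.uncurry g)) :
    Measurable fun p : S × ((ℝ × ℝ) × ℝ) => E2 (g p.1) p.2.1 p.2.2 := by
  unfold E2
  refine StronglyMeasurable.measurable ?_
  refine StronglyMeasurable.integral_prod_right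
    (f := fun (p : S × ((ℝ × ℝ) × ℝ)) (x : ℝ × ℝ) => pq p.2.1 p.2.2 x * g p.1 x) ?_
  refine Measurable.stronglyMeasurable ?_
  have h1 : Measurable fun z : (S × ((ℝ × ℝ) × ℝ)) × (ℝ × ℝ) => pq z.1.2.1 z.1.2.2 z.2 := by
    have h2 : Measurable fun z : (S × ((ℝ × ℝ) × ℝ)) × (ℝ × ℝ) => (z.1.2, z.2) := by fun_prop
    exact pq_cont.measurable.comp h2
  have h3 : Measurable fun z : (S × ((ℝ × ℝ) × ℝ)) × (ℝ × ℝ) => g z.1.1 z.2 := by
    have h2 : Measurable fun z : (S × ((ℝ × ℝ) × ℝ)) × (ℝ × ℝ) => (z.1.1, z.2) := by fun_prop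
    exact hm.comp h2
  exact h1.mul h3

attribute [local irreducible] E1 E2

theorem sup_mix (ν : Measure S) [IsFiniteMeasure ν] {g : S → ℝ × ℝ → ℂ}
    (hm : Measurable (Function.uncurry g)) (B : ℝ≥0∞) (hB : B ≠ ∞) (hb : ∀ s, ∫⁻ x, ‖g s x‖ₑ ≤ B)
    (q N : ℝ) (hq : 1 ≤ q) (hN : 1 ≤ N) (C : ℝ≥0∞)
    (hC : ∀ s, ∫⁻ t : ℝ, (∫⁻ y : ℝ × ℝ, ‖E2 (g s) y t‖ₑ ^ q) ^ N ≤ C) :
    ∫⁻ t : ℝ, (∫⁻ y : ℝ × ℝ, ‖E2 (sup ν g) y t‖ₑ ^ q) ^ N ≤ C * ν univ ^ (q * N) := by
  have hq0 : 0 < q := by linarith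
  have hN0 : 0 < N := by linarith
  have hEm := E2s_meas hm
  set D : S → ℝ × ℝ → ℝ → ℝ≥0∞ := fun s y t => ‖E2 (g s) y t‖ₑ ^ q with hD
  have hDm : Measurable fun p : S × ((ℝ × ℝ) × ℝ) => D p.1 p.2.1 p.2.2 := hEm.enorm.pow_const q
  have hAm : Measurable fun p : S × ℝ => ∫⁻ y : ℝ × ℝ, D p.1 y p.2 := by
    have h1 : Measurable fun z : (S × ℝ) × (ℝ × ℝ) => D z.1.1 z.2 z.1.2 := by
      have h2 : Measurable fun z : (S × ℝ) × (ℝ × ℝ) => (z.1.1, (z.2, z.1.2)) := by fun_prop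
      have h3 := hDm.comp h2
      simp only [Function.comp_def] at h3
      exact h3
    exact h1.lintegral_prod_right'
  have h1 : ∀ t, ∫⁻ y : ℝ × ℝ, ‖E2 (sup ν g) y t‖ₑ ^ q ≤
      ν univ ^ (q - 1) * ∫⁻ s, (∫⁻ y : ℝ × ℝ, D s y t) ∂ν := by
    intro t
    have hD2 : Measurable fun z : (ℝ × ℝ) × S => D z.2 z.1 t := by
      have h2 : Measurable fun z : (ℝ × ℝ) × S => (z.2, (z.1, t)) := by fun_prop
      exact hDm.comp h2
    calc ∫⁻ y : ℝ × ℝ, ‖E2 (sup ν g) y t‖ₑ ^ q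
        ≤ ∫⁻ y : ℝ × ℝ, ν univ ^ (q - 1) * ∫⁻ s, D s y t ∂ν := by
          refine lintegral_mono fun y => ?_
          rw [swap_sup ν hm B hB hb y t]
          refine (ENNReal.rpow_le_rpow (enorm_integral_le_lintegral_enorm _) hq0.le).trans ?_
          refine jens1 ν _ ?_ q hq
          have h2 : Measurable fun s : S => (s, (y, t)) := by fun_prop
          exact (hEm.comp h2).enorm.aemeasurable
      _ = ν univ ^ (q - 1) * ∫⁻ y : ℝ × ℝ, ∫⁻ s, D s y t ∂ν :=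
          lintegral_const_mul' _ _ (ENNReal.rpow_ne_top_of_nonneg (by linarith) (measure_ne_top ν _))
      _ = _ := by
          rw [lintegral_lintegral_swap hD2.aemeasurable]
  have hAs : ∀ t, Measurable fun s => ∫⁻ y : ℝ × ℝ, D s y t := by
    intro t
    have h2 : Measurable fun s : S => (s, t) := by fun_prop
    exact hAm.comp h2
  have hsw : Measurable fun z : ℝ × S => (∫⁻ y : ℝ × ℝ, D z.2 y z.1) ^ N := by
    have h2 : Measurable fun z : ℝ × S => (z.2, z.1) := by fun_prop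
    exact (hAm.comp h2).pow_const N
  calc ∫⁻ t : ℝ, (∫⁻ y : ℝ × ℝ, ‖E2 (sup ν g) y t‖ₑ ^ q) ^ N
      ≤ ∫⁻ t : ℝ, (ν univ ^ (q - 1)) ^ N * (ν univ ^ (N - 1) *
          ∫⁻ s, (∫⁻ y : ℝ × ℝ, D s y t) ^ N ∂ν) := by
        refine lintegral_mono fun t => (ENNReal.rpow_le_rpow (h1 t) hN0.le).trans ?_
        rw [ENNReal.mul_rpow_of_nonneg _ _ hN0.le]
        exact mul_le_mul' le_rfl (jens1 ν _ (hAs t).aemeasurable N hN)
    _ = (ν univ ^ (q - 1)) ^ N * (ν univ ^ (N - 1) *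
          ∫⁻ t : ℝ, ∫⁻ s, (∫⁻ y : ℝ × ℝ, D s y t) ^ N ∂ν) := by
        rw [lintegral_const_mul' _ _ (ENNReal.rpow_ne_top_of_nonneg hN0.le
          (ENNReal.rpow_ne_top_of_nonneg (by linarith) (measure_ne_top ν _))),
          lintegral_const_mul' _ _ (ENNReal.rpow_ne_top_of_nonneg (by linarith) (measure_ne_top ν _))]
    _ ≤ (ν univ ^ (q - 1)) ^ N * (ν univ ^ (N - 1) * ∫⁻ _s, C ∂ν) := by
        rw [lintegral_lintegral_swap hsw.aemeasurable]
        gcongr with s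
        exact hC s
    _ = C * ν univ ^ (q * N) := by
        rw [lintegral_const, ← ENNReal.rpow_mul]
        have e : ν univ ^ (q * N) = ν univ ^ ((q - 1) * N) * (ν univ ^ (N - 1) * ν univ) := by
          have e1 : ν univ ^ (N - 1) * ν univ = ν univ ^ N := by
            nth_rewrite 2 [← ENNReal.rpow_one (ν univ)]
            rw [← ENNReal.rpow_add_of_nonneg _ _ (by linarith) (by norm_num), sub_add_cancel]
          rw [e1, ← ENNReal.rpow_add_of_nonneg _ _ (mul_nonneg (by linarith) hN0.le) hN0.le]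
          congr 1
          ring
        rw [e]
        ring


/-- **The estimate for products over blocks.** -/
theorem blocks (m₁ m₂ n : ℕ) (hm₂ : 1 ≤ m₂) (hn : n = m₁ + 2 * m₂) (q R : ℝ)
    (hq : 2 * ((n : ℝ) + 1) / n < q) (hR : 1 ≤ R) :
    ∃ C : ℝ≥0, ∀ (e : Fin m₁ ⊕ (Fin m₂ ⊕ Fin m₂) ≃ Fin n) (H : Type) [NormedAddCommGroup H]
      [InnerProductSpace ℂ H] [CompleteSpace H]
      (M : ContinuousMultilinearMap ℂ (fun _ : Fin m₁ => H) ℂ) (a : Fin m₁ → ℝ → H),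
      ‖M‖ ≤ 1 → (∀ j, Adm (a j)) →
      ∀ (S : Fin m₂ → Type) [∀ j, MeasurableSpace (S j)] (ν : ∀ j, Measure (S j))
        [∀ j, IsFiniteMeasure (ν j)] (g : ∀ j, S j → ℝ × ℝ → ℂ),
        (∀ j, Measurable (Function.uncurry (g j))) → (∀ j s, RAtom q R (g j s)) →
        ∫⁻ y : (Fin n → ℝ) × ℝ,
          ‖EE (fun ξ => M (fun j => a j ((Phi e ξ).1 j)) *
            ∏ j, sup (ν j) (g j) ((Phi e ξ).2 j)) y‖ₑ ^ q ≤ C * ∏ j, ν j univ ^ q := by
  have hn2 : 2 ≤ n := by omega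
  have hn0' : 0 < n := by omega
  have hn0 : (0 : ℝ) < n := by exact_mod_cast hn0'
  have hn2' : (2 : ℝ) ≤ n := by exact_mod_cast hn2
  have hq2 : 2 < q := by
    have h1 : 2 < 2 * ((n : ℝ) + 1) / n := by
      rw [lt_div_iff₀ hn0]
      linarith
    linarith
  have hq0 : 0 < q := by linarith
  obtain ⟨C, hC⟩ := mix n hn2 q hq
  obtain ⟨K, hK, hK0⟩ := atom_mix n hn2 q R hq hR
  set N : ℝ := (n : ℝ) / 2 with hN
  have hN1 : 1 ≤ N := by rw [hN]; linarith
  have hN0 : 0 < N := by linarith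
  have hsum : ∑ _j : Fin m₁, 1 / (n : ℝ) + ∑ _j : Fin m₂, 1 / N = 1 := by
    rw [Finset.sum_const, Finset.card_univ, Fintype.card_fin, nsmul_eq_mul,
      Finset.sum_const, Finset.card_univ, Fintype.card_fin, nsmul_eq_mul, hN]
    have h1 : (n : ℝ) = m₁ + 2 * m₂ := by exact_mod_cast hn
    field_simp
    linarith
  set L : ℝ≥0∞ := ((C : ℝ≥0∞) ^ (1 / (n : ℝ))) ^ m₁ * (K ^ (1 / N)) ^ m₂ with hL
  have hLt : L ≠ ⊤ := by
    rw [hL]
    apply ENNReal.mul_ne_top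
    · exact ENNReal.pow_ne_top (ENNReal.rpow_ne_top_of_nonneg (by positivity) ENNReal.coe_ne_top)
    · exact ENNReal.pow_ne_top (ENNReal.rpow_ne_top_of_nonneg (by positivity) hK)
  refine ⟨L.toNNReal, ?_⟩
  intro e H _ _ _ M a hM ha S _ ν _ g hg hat
  rw [ENNReal.coe_toNNReal hLt]
  set s : (Fin m₁ → ℝ) → ℂ := fun ξ => M (fun j => a j (ξ j)) with hs
  have hSch : Sch m₁ s := ⟨H, inferInstance, inferInstance, inferInstance, M, a, hM, ha,
    fun ξ => rfl⟩
  have hsm : StronglyMeasurable s := hSch.meas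
  set G : Fin m₂ → ℝ × ℝ → ℂ := fun j => sup (ν j) (g j) with hG
  have hGm : ∀ j, StronglyMeasurable (G j) := fun j => sup_meas (ν j) (hg j)
  have hG0 : ∀ j x, x ∉ Q2 → G j x = 0 := by
    intro j x hx
    simp only [hG]
    unfold sup
    have h1 : ∀ s, g j s x = 0 := by
      intro s
      obtain ⟨_, _, _, _, _, _, _, h2, _⟩ := hat j s
      exact h2 x hx
    simp only [h1, integral_zero]
  set f : (Fin n → ℝ) → ℂ := fun ξ => s (Phi e ξ).1 * ∏ j, G j ((Phi e ξ).2 j) with hf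
  have hfm : StronglyMeasurable f := by
    apply StronglyMeasurable.mul
    · exact hsm.comp_measurable (measurable_fst.comp (Phi_mp e).measurable)
    · apply Finset.stronglyMeasurable_fun_prod
      intro j _
      exact (hGm j).comp_measurable ((measurable_pi_apply j).comp
        (measurable_snd.comp (Phi_mp e).measurable))
  have hEm : Measurable fun y : (Fin n → ℝ) × ℝ => ‖EE f y‖ₑ ^ q :=
    (EE_meas hfm).enorm.pow_const q
  set Bj : Fin m₁ → ℝ → ℝ≥0∞ := fun j t => ∫⁻ x : ℝ, ‖E1 (a j) x t‖ₑ ^ q with hBj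
  have hBm : ∀ j, Measurable (Bj j) := fun j =>
    ((E1_meas (ha j)).enorm.pow_const q).lintegral_prod_left'
  set Wj : Fin m₂ → ℝ → ℝ≥0∞ := fun j t => ∫⁻ y : ℝ × ℝ, ‖E2 (G j) y t‖ₑ ^ q with hWj
  have hWm : ∀ j, Measurable (Wj j) := fun j =>
    ((E2_meas (G j) (hGm j)).enorm.pow_const q).lintegral_prod_left'
  -- the bound at a fixed time
  have hfix : ∀ t : ℝ, ∫⁻ x : Fin n → ℝ, ‖EE f (x, t)‖ₑ ^ q ≤
      (∏ j, (Bj j t ^ (n : ℝ)) ^ (1 / (n : ℝ))) * ∏ j, (Wj j t ^ N) ^ (1 / N) := by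
    intro t
    set Z : (Fin m₁ → ℝ) × (Fin m₂ → ℝ × ℝ) → ℝ≥0∞ := fun z =>
      ‖EE s (z.1, t)‖ₑ ^ q * ∏ j, ‖E2 (G j) (z.2 j) t‖ₑ ^ q with hZ
    have hEs : Measurable fun x : Fin m₁ → ℝ => ‖EE s (x, t)‖ₑ ^ q :=
      ((EE_meas hsm).enorm.pow_const q).comp
        (by fun_prop : Measurable fun x : Fin m₁ → ℝ => ((x, t) : (Fin m₁ → ℝ) × ℝ))
    have hEg : ∀ j, Measurable fun y : ℝ × ℝ => ‖E2 (G j) y t‖ₑ ^ q := fun j =>
      (E2t_meas (G j) (hGm j) t).pow_const q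
    have hEgp : Measurable fun z : Fin m₂ → ℝ × ℝ => ∏ j, ‖E2 (G j) (z j) t‖ₑ ^ q :=
      Finset.measurable_prod _ fun j _ => (hEg j).comp (measurable_pi_apply j)
    have hZm : Measurable Z :=
      (hEs.comp measurable_fst).mul (hEgp.comp measurable_snd)
    calc ∫⁻ x : Fin n → ℝ, ‖EE f (x, t)‖ₑ ^ q = ∫⁻ x : Fin n → ℝ, Z (Phi e x) := by
          apply lintegral_congr
          intro x
          rw [hf, EE_blk e hsm hGm hG0 x t, enorm_mul, ENNReal.mul_rpow_of_nonneg _ _ hq0.le]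
          simp only [hZ]
          congr 1
          rw [ENNReal.prod_rpow_of_nonneg hq0.le]
          congr 1
          rw [← ofReal_norm, norm_prod, ENNReal.ofReal_prod_of_nonneg fun j _ => norm_nonneg _]
          apply Finset.prod_congr rfl
          intro j _
          rw [ofReal_norm]
      _ = ∫⁻ z, Z z := (Phi_mp e).lintegral_comp hZm
      _ = (∫⁻ x : Fin m₁ → ℝ, ‖EE s (x, t)‖ₑ ^ q) *
            ∫⁻ z : Fin m₂ → ℝ × ℝ, ∏ j, ‖E2 (G j) (z j) t‖ₑ ^ q := by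
          rw [Measure.volume_eq_prod]
          exact lintegral_prod_mul hEs.aemeasurable hEgp.aemeasurable
      _ = (∫⁻ x : Fin m₁ → ℝ, ‖EE s (x, t)‖ₑ ^ q) * ∏ j, Wj j t := by
          rw [lint_pi2 (fun j y => ‖E2 (G j) y t‖ₑ ^ q) hEg]
      _ ≤ (∏ j, Bj j t) * ∏ j, Wj j t := by
          gcongr
          exact sch_time hq0 M hM ha t
      _ = _ := by
          congr 1
          · apply Finset.prod_congr rfl
            intro j _
            rw [← ENNReal.rpow_mul, mul_one_div_cancel hn0.ne', ENNReal.rpow_one]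
          · apply Finset.prod_congr rfl
            intro j _
            rw [← ENNReal.rpow_mul, mul_one_div_cancel hN0.ne', ENNReal.rpow_one]
  have hWint : ∀ j, ∫⁻ t, Wj j t ^ N ≤ K * ν j univ ^ (q * N) := by
    intro j
    refine sup_mix (ν j) (hg j) (volume (Icc (-R, -R) ((R, R) : ℝ × ℝ)) + 1) ?_ ?_ q N (by linarith)
      hN1 K ?_
    · refine ENNReal.add_ne_top.2 ⟨?_, ENNReal.one_ne_top⟩
      exact isCompact_Icc.measure_lt_top.ne
    · intro s
      exact atom_l1 q R (by linarith) hR (g j s) ((hg j).comp measurable_prodMk_left) (hat j s)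
    · intro s
      exact hK0 (g j s) ((hg j).comp measurable_prodMk_left) (hat j s)
  rw [Measure.volume_eq_prod, lintegral_prod_symm _ hEm.aemeasurable]
  calc ∫⁻ t : ℝ, ∫⁻ x : Fin n → ℝ, ‖EE f (x, t)‖ₑ ^ q
      ≤ ∫⁻ t : ℝ, (∏ j, (Bj j t ^ (n : ℝ)) ^ (1 / (n : ℝ))) * ∏ j, (Wj j t ^ N) ^ (1 / N) :=
        lintegral_mono hfix
    _ = ∫⁻ t : ℝ, ∏ i : Fin m₁ ⊕ Fin m₂,
          (Sum.elim (fun j t => Bj j t ^ (n : ℝ)) (fun j t => Wj j t ^ N) i t) ^
            (Sum.elim (fun _ => 1 / (n : ℝ)) (fun _ => 1 / N) i) := by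
        refine lintegral_congr fun t => ?_
        rw [Fintype.prod_sum_type]
        rfl
    _ ≤ ∏ i : Fin m₁ ⊕ Fin m₂,
          (∫⁻ t : ℝ, Sum.elim (fun j t => Bj j t ^ (n : ℝ)) (fun j t => Wj j t ^ N) i t) ^
            (Sum.elim (fun _ => 1 / (n : ℝ)) (fun _ => 1 / N) i) := by
        apply ENNReal.lintegral_prod_norm_pow_le
        · rintro (j | j) _
          · exact ((hBm j).pow_const _).aemeasurable
          · exact ((hWm j).pow_const _).aemeasurable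
        · rw [Fintype.sum_sum_type]
          exact hsum
        · rintro (j | j) _
          · simp only [Sum.elim_inl]
            positivity
          · simp only [Sum.elim_inr]
            positivity
    _ = (∏ j, (∫⁻ t : ℝ, Bj j t ^ (n : ℝ)) ^ (1 / (n : ℝ))) *
          ∏ j, (∫⁻ t : ℝ, Wj j t ^ N) ^ (1 / N) := by
        rw [Fintype.prod_sum_type]
        rfl
    _ ≤ (∏ _j : Fin m₁, (C : ℝ≥0∞) ^ (1 / (n : ℝ))) * ∏ j, (K * ν j univ ^ (q * N)) ^ (1 / N) := by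
        gcongr with j _ j
        · exact hC H (a j) (ha j)
        · exact hWint j
    _ = L * ∏ j, ν j univ ^ q := by
        have h1 : ∀ j, (K * ν j univ ^ (q * N)) ^ (1 / N) = K ^ (1 / N) * ν j univ ^ q := by
          intro j
          rw [ENNReal.mul_rpow_of_nonneg _ _ (by positivity), ← ENNReal.rpow_mul, mul_assoc,
            mul_one_div_cancel hN0.ne', mul_one]
        simp_rw [h1]
        rw [Finset.prod_mul_distrib, Finset.prod_const, Finset.prod_const, Finset.card_univ,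
          Fintype.card_fin, Finset.card_univ, Fintype.card_fin, hL]
        ring

end Run7.h783.RV
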